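import Pool.Agent.Q155.AL.Tan
import Pool.Agent.Y703.CX.Rank

/-! The group of the rational points of `X³ + Y³ = A` -/

set_option autoImplicit false

open scoped Classical

namespace Q155.AL

open WeierstrassCurve

/-- the curve `y² = x³ - 432 A²` -/
def WC (A : ℤ) : WeierstrassCurve ℚ := ⟨0, 0, 0, 0, -432 * (A : ℚ) ^ 2⟩

theorem WC_disc (A : ℤ) : (WC A).Δ = -80621568 * (A : ℚ) ^ 4 := by
  unfold WC WeierstrassCurve.Δ WeierstrassCurve.b₂ WeierstrassCurve.b₄ WeierstrassCurve.b₆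
    WeierstrassCurve.b₈
  ring

theorem WC_eqn (A : ℤ) (x y : ℚ) :
    (WC A).toAffine.Equation x y ↔ y ^ 2 = x ^ 3 - 432 * (A : ℚ) ^ 2 := by
  rw [WeierstrassCurve.Affine.equation_iff]
  unfold WC
  simp only
  constructor <;> intro h <;> linear_combination h

theorem WC_ns {A : ℤ} (hA : A ≠ 0) {x y : ℚ} (h : y ^ 2 = x ^ 3 - 432 * (A : ℚ) ^ 2) :
    (WC A).toAffine.Nonsingular x y := by
  refine (WeierstrassCurve.Affine.equation_iff_nonsingular_of_Δ_ne_zero
    (W := (WC A).toAffine) ?_).1 ((WC_eqn A x y).2 h)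
  show (WC A).Δ ≠ 0
  rw [WC_disc]
  have : (A : ℚ) ≠ 0 := by exact_mod_cast hA
  positivity

/-- the image of a point of the cubic -/
noncomputable def img (A : ℤ) (P : ℚ × ℚ) : (WC A).toAffine.Point :=
  if h : (WC A).toAffine.Nonsingular (12 * A / (P.1 + P.2)) (36 * A * (P.1 - P.2) / (P.1 + P.2)) then
    Affine.Point.some _ _ h else 0

theorem add_ne {A : ℤ} (hA : A ≠ 0) {P : ℚ × ℚ} (hP : P ∈ pts A) : P.1 + P.2 ≠ 0 := by
  intro h
  have h1 : P.1 ^ 3 + P.2 ^ 3 = (A : ℚ) := hP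
  have h2 : P.2 = -P.1 := by linarith
  rw [h2] at h1
  apply hA
  have : (A : ℚ) = 0 := by rw [← h1]; ring
  exact_mod_cast this

theorem img_eq {A : ℤ} (hA : A ≠ 0) {P : ℚ × ℚ} (hP : P ∈ pts A) :
    ∃ h, img A P = Affine.Point.some (12 * A / (P.1 + P.2)) (36 * A * (P.1 - P.2) / (P.1 + P.2)) h := by
  have h0 := add_ne hA hP
  have h1 : P.1 ^ 3 + P.2 ^ 3 = (A : ℚ) := hP
  have hns : (WC A).toAffine.Nonsingular (12 * A / (P.1 + P.2))
      (36 * A * (P.1 - P.2) / (P.1 + P.2)) := by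
    refine WC_ns hA ?_
    field_simp
    rw [← h1]
    ring
  exact ⟨hns, dif_pos hns⟩

theorem img_ne {A : ℤ} (hA : A ≠ 0) {P : ℚ × ℚ} (hP : P ∈ pts A) : img A P ≠ 0 := by
  obtain ⟨h, he⟩ := img_eq hA hP
  rw [he]
  exact Affine.Point.some_ne_zero h

theorem img_inj {A : ℤ} (hA : A ≠ 0) {P Q : ℚ × ℚ} (hP : P ∈ pts A) (hQ : Q ∈ pts A)
    (h : img A P = img A Q) : P = Q := by
  obtain ⟨h1, e1⟩ := img_eq hA hP
  obtain ⟨h2, e2⟩ := img_eq hA hQ
  rw [e1, e2, Affine.Point.some.injEq] at h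
  have hAq : (A : ℚ) ≠ 0 := by exact_mod_cast hA
  have p0 := add_ne hA hP
  have q0 := add_ne hA hQ
  obtain ⟨g1, g2⟩ := h
  have hs : P.1 + P.2 = Q.1 + Q.2 := by
    rw [div_eq_div_iff p0 q0] at g1
    have : (12 * (A : ℚ)) * (Q.1 + Q.2 - (P.1 + P.2)) = 0 := by linear_combination g1
    have h12 : (12 * (A : ℚ)) ≠ 0 := by positivity
    linarith [(mul_eq_zero.1 this).resolve_left h12]
  have hd : P.1 - P.2 = Q.1 - Q.2 := by
    rw [hs, div_eq_div_iff q0 q0] at g2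
    have h36 : (36 * (A : ℚ)) * (Q.1 + Q.2) ≠ 0 := mul_ne_zero (by positivity) q0
    have : ((36 * (A : ℚ)) * (Q.1 + Q.2)) * ((P.1 - P.2) - (Q.1 - Q.2)) = 0 := by
      linear_combination g2
    linarith [(mul_eq_zero.1 this).resolve_left h36]
  exact Prod.ext (by linarith) (by linarith)

theorem img_surj {A : ℤ} (hA : A ≠ 0) {P : (WC A).toAffine.Point} (hP : P ≠ 0) :
    ∃ Q ∈ pts A, img A Q = P := by
  have hAq : (A : ℚ) ≠ 0 := by exact_mod_cast hA
  rcases P with _ | ⟨x, y, h⟩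
  · exact absurd rfl hP
  · have he : y ^ 2 = x ^ 3 - 432 * (A : ℚ) ^ 2 := (WC_eqn A x y).1 h.1
    have hx : x ≠ 0 := by
      rintro rfl
      have : 0 < (A : ℚ) ^ 2 := by positivity
      nlinarith [sq_nonneg y]
    have hm : ((36 * A + y) / (6 * x), (36 * A - y) / (6 * x)) ∈ pts A := by
      show ((36 * (A : ℚ) + y) / (6 * x)) ^ 3 + ((36 * (A : ℚ) - y) / (6 * x)) ^ 3 = (A : ℚ)
      field_simp
      linear_combination 216 * (A : ℚ) * he
    refine ⟨_, hm, ?_⟩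
    obtain ⟨h1, e1⟩ := img_eq hA hm
    rw [e1, Affine.Point.some.injEq]
    simp only
    have hsum : (36 * (A : ℚ) + y) / (6 * x) + (36 * A - y) / (6 * x) = 12 * A / x := by
      field_simp
      ring
    have hdif : (36 * (A : ℚ) + y) / (6 * x) - (36 * A - y) / (6 * x) = y / (3 * x) := by
      field_simp
      ring
    rw [hsum, hdif]
    constructor
    · field_simp
    · field_simp
      ring

/-- generators -/
def Gens (A : ℤ) (S : Set (WC A).toAffine.Point) : Prop := AddSubgroup.closure S = ⊤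

/-- the least number of generators -/
noncomputable def rA (A : ℤ) : ℕ :=
  sInf {n | ∃ S : Finset (WC A).toAffine.Point, S.card = n ∧ Gens A S}

theorem gens_all {A : ℤ} (hA : A ≠ 0) {L : Set (ℚ × ℚ)} (h : L = pts A) :
    Gens A (img A '' L) := by
  unfold Gens
  rw [eq_top_iff]
  intro P _
  by_cases hP : P = 0
  · rw [hP]; exact zero_mem _
  · obtain ⟨Q, hQ, he⟩ := img_surj hA hP
    exact AddSubgroup.subset_closure ⟨Q, h ▸ hQ, he⟩

theorem rA_zero {A : ℤ} (hA : A ≠ 0) (h : pts A = ∅) : rA A = 0 := by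
  refine Nat.sInf_eq_zero.2 (Or.inl ⟨∅, rfl, ?_⟩)
  have := gens_all hA (L := ∅) h.symm
  rw [Set.image_empty] at this
  rw [Finset.coe_empty]
  exact this

theorem rA_one {A : ℤ} (hA : A ≠ 0) {P : ℚ × ℚ} (hP : P ∈ pts A)
    (h : ∀ Q : (WC A).toAffine.Point, Q ∈ AddSubgroup.closure {img A P}) : rA A = 1 := by
  have h1 : 1 ∈ {n | ∃ S : Finset (WC A).toAffine.Point, S.card = n ∧ Gens A S} := by
    refine ⟨{img A P}, Finset.card_singleton _, ?_⟩
    unfold Gens
    rw [Finset.coe_singleton, eq_top_iff]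
    exact fun Q _ => h Q
  have h2 : rA A ≤ 1 := Nat.sInf_le h1
  have h3 : rA A ≠ 0 := by
    intro h0
    have h4 : rA A ∈ {n | ∃ S : Finset (WC A).toAffine.Point, S.card = n ∧ Gens A S} :=
      Nat.sInf_mem ⟨1, h1⟩
    rw [h0] at h4
    obtain ⟨S, hS, hg⟩ := h4
    rw [Finset.card_eq_zero] at hS
    subst hS
    unfold Gens at hg
    rw [Finset.coe_empty, AddSubgroup.closure_empty] at hg
    have h5 : img A P ∈ (⊥ : AddSubgroup (WC A).toAffine.Point) := by
      rw [hg]; exact AddSubgroup.mem_top _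
    exact img_ne hA hP ((AddSubgroup.mem_bot).1 h5)
  omega

theorem rA_single {A : ℤ} (hA : A ≠ 0) {P : ℚ × ℚ} (h : pts A = {P}) : rA A = 1 := by
  have hP : P ∈ pts A := by rw [h]; rfl
  refine rA_one hA hP fun Q => ?_
  by_cases hQ : Q = 0
  · rw [hQ]; exact zero_mem _
  · obtain ⟨R, hR, he⟩ := img_surj hA hQ
    rw [h, Set.mem_singleton_iff] at hR
    rw [← he, hR]
    exact AddSubgroup.subset_closure rfl

theorem rA_pair {A : ℤ} (hA : A ≠ 0) {P Q : ℚ × ℚ} (hne : P ≠ Q) (h : pts A = {P, Q}) :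
    rA A = 1 := by
  have hP : P ∈ pts A := by rw [h]; exact Or.inl rfl
  have hQ : Q ∈ pts A := by rw [h]; exact Or.inr rfl
  have hall : ∀ R : (WC A).toAffine.Point, R = 0 ∨ R = img A P ∨ R = img A Q := by
    intro R
    by_cases hR : R = 0
    · exact Or.inl hR
    · obtain ⟨T, hT, he⟩ := img_surj hA hR
      rw [h] at hT
      rcases hT with rfl | hT
      · exact Or.inr (Or.inl he.symm)
      · rw [Set.mem_singleton_iff] at hT
        subst hT
        exact Or.inr (Or.inr he.symm)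
  have hne' : img A P ≠ img A Q := fun h => hne (img_inj hA hP hQ h)
  have hsum : img A P + img A Q = 0 := by
    rcases hall (img A P + img A Q) with h1 | h1 | h1
    · exact h1
    · exact absurd (add_eq_left.1 h1) (img_ne hA hQ)
    · exact absurd (add_eq_right.1 h1) (img_ne hA hP)
  have hneg : img A Q = -img A P := (neg_eq_of_add_eq_zero_right hsum).symm
  refine rA_one hA hP fun R => ?_
  rcases hall R with h1 | h1 | h1
  · rw [h1]; exact zero_mem _
  · rw [h1]; exact AddSubgroup.subset_closure rfl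
  · rw [h1, hneg]
    exact neg_mem (AddSubgroup.subset_closure rfl)

/-- finiteness -/
theorem pts_fin {D : ℤ} (hD : D ≠ 0)
    (h : Finite (Pool.Agent.Y703.CT.EQ (Pool.Agent.Y703.CT.WD D)).toAffine.Point) :
    (pts D).Finite := by
  have h1 := Pool.Agent.Y703.CX.fin_pts hD h
  have hDq : (D : ℚ) ≠ 0 := by exact_mod_cast hD
  refine Set.Finite.of_injOn (f := fun P : ℚ × ℚ =>
    (12 * (D : ℚ) / (P.1 + P.2), 36 * (D : ℚ) * (P.1 - P.2) / (P.1 + P.2))) ?_ ?_ h1
  · intro P hP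
    obtain ⟨h2, -⟩ := img_eq hD hP
    have h3 := (WC_eqn D _ _).1 h2.1
    show (36 * (D : ℚ) * (P.1 - P.2) / (P.1 + P.2)) ^ 2 = (12 * (D : ℚ) / (P.1 + P.2)) ^ 3 +
      ((0 : ℤ) : ℚ) * (12 * (D : ℚ) / (P.1 + P.2)) + ((-432 * D ^ 2 : ℤ) : ℚ)
    push_cast
    rw [h3]
    ring
  · intro P hP Q hQ hPQ
    simp only [Prod.mk.injEq] at hPQ
    refine img_inj hD hP hQ ?_
    obtain ⟨h2, e2⟩ := img_eq hD hP
    obtain ⟨h3, e3⟩ := img_eq hD hQ
    rw [e2, e3, Affine.Point.some.injEq]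
    exact hPQ

end Q155.AL
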