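import Pool.Agent.Q155.AL.Cnt
import Pool.Agent.Q155.AL.Crv
import Pool.Agent.Q283.Q3.Fld

/-! The algorithm for the generators -/

set_option autoImplicit false

open scoped Classical

namespace Q155.AL

open Primrec
open Pool.Agent.Y703.CT (Cls NoSplit Base Triv3)
open Q283.Q3B (rr)

/-- the absolute value is primitive recursive -/
theorem natAbsP : Primrec (Int.natAbs : ℤ → ℕ) := by
  refine Primrec.ofNat_iff.2 ?_
  have h : Primrec fun n : ℕ => (n + 1) / 2 :=
    nat_div.comp Primrec.succ (const 2)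
  refine h.of_eq fun n => ?_
  have h1 : (Denumerable.ofNat ℤ n) = Equiv.intEquivNat.symm n := rfl
  rcases Nat.even_or_odd' n with ⟨k, rfl | rfl⟩
  · have h2 : Equiv.intEquivNat.symm (2 * k) = (k : ℤ) := by
      rw [Equiv.symm_apply_eq]
      rfl
    rw [h1, h2, Int.natAbs_natCast]
    omega
  · have h2 : Equiv.intEquivNat.symm (2 * k + 1) = Int.negSucc k := by
      rw [Equiv.symm_apply_eq]
      rfl
    rw [h1, h2, Int.natAbs_negSucc]
    omega

theorem nonnegP : PrimrecPred fun A : ℤ => 0 ≤ A := by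
  have h : PrimrecPred fun A : ℤ => Encodable.encode A % 2 = 0 :=
    eqP (nat_mod.comp Primrec.encode (const 2)) (const 0)
  refine h.of_eq fun A => ?_
  rcases A with k | k
  · have h1 : Encodable.encode (Int.ofNat k) = 2 * k := rfl
    rw [h1]
    exact ⟨fun _ => Int.natCast_nonneg k, fun _ => by omega⟩
  · have h1 : Encodable.encode (Int.negSucc k) = 2 * k + 1 := rfl
    rw [h1]
    constructor
    · intro h; omega
    · intro h
      exact absurd h (by rw [not_le]; exact Int.negSucc_lt_zero k)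

theorem castP : Primrec (fun n : ℕ => (n : ℤ)) := by
  refine Primrec.encode_iff.1 ?_
  have h : Primrec fun n : ℕ => 2 * n := mulP (const 2) Primrec.id
  exact h.of_eq fun n => rfl

theorem negP : Primrec (fun n : ℕ => -(n : ℤ)) := by
  refine Primrec.encode_iff.1 ?_
  have h : Primrec fun n : ℕ => 2 * n - 1 := nat_sub.comp (mulP (const 2) Primrec.id) (const 1)
  refine h.of_eq fun n => ?_
  cases n with
  | zero => rfl
  | succ k =>
    have h1 : -((k + 1 : ℕ) : ℤ) = Int.negSucc k := rfl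
    rw [h1]
    rfl

/-- `± b` with the sign of `A` -/
noncomputable def sg (A : ℤ) (b : ℕ) : ℤ := if 0 ≤ A then (b : ℤ) else -(b : ℤ)

theorem sgP {α : Type} [Primcodable α] {f : α → ℤ} {g : α → ℕ} (hf : Primrec f) (hg : Primrec g) :
    Primrec fun a => sg (f a) (g a) :=
  Primrec.ite (nonnegP.comp hf) (castP.comp hg) (negP.comp hg)

/-- the root -/
noncomputable def rt (k n : ℕ) : ℕ := Nat.findGreatest (fun b => k * b ^ 3 = n) n

theorem rtP (k : ℕ) : Primrec (rt k) :=
  nat_findGreatest Primrec.id (PrimrecPred.primrecRel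
    (eqP (mulP (const k) (cube Primrec.snd)) Primrec.fst))

theorem rt_spec {k n b : ℕ} (hk : k ≠ 0) (h : k * b ^ 3 = n) : k * (rt k n) ^ 3 = n := by
  unfold rt
  refine Nat.findGreatest_spec (P := fun b => k * b ^ 3 = n) (m := b) ?_ h
  rw [← h]
  have h1 : b ≤ b ^ 3 := Nat.le_self_pow (by norm_num) b
  exact h1.trans (Nat.le_mul_of_pos_left _ (Nat.pos_of_ne_zero hk))

/-- the test for the good numbers -/
def Tst (n : ℕ) : Prop := ∃ m, m < n + 1 ∧ (∃ b, b < n + 1 ∧ (m * b ^ 3 = n ∧ Cls m ∧ spc m = 3))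

theorem tstP : PrimrecPred Tst := by
  have h1 : PrimrecPred fun t : (ℕ × ℕ) × ℕ => t.1.2 * t.2 ^ 3 = t.1.1 ∧ Cls t.1.2 ∧ spc t.1.2 = 3 :=
    (eqP (mulP (Primrec.snd.comp Primrec.fst) (cube Primrec.snd)) (Primrec.fst.comp Primrec.fst)).and
      ((clsP.comp (Primrec.snd.comp Primrec.fst)).and
        (eqP (spcP.comp (Primrec.snd.comp Primrec.fst)) (const 3)))
  have h2 : PrimrecPred fun t : ℕ × ℕ =>
      ∃ b, b < t.1 + 1 ∧ (t.2 * b ^ 3 = t.1 ∧ Cls t.2 ∧ spc t.2 = 3) :=
    exL (α := ℕ × ℕ) (Primrec.succ.comp Primrec.fst) (PrimrecPred.primrecRel h1)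
  exact exL Primrec.succ (PrimrecPred.primrecRel h2)

/-- **The algorithm** for the generators of `X³ + Y³ = A`. -/
noncomputable def gens (A : ℤ) : Option (List (ℤ × ℤ)) :=
  if 1 * (rt 1 A.natAbs) ^ 3 = A.natAbs then
    some [(sg A (rt 1 A.natAbs), 0), (0, sg A (rt 1 A.natAbs))]
  else if 2 * (rt 2 A.natAbs) ^ 3 = A.natAbs then
    some [(sg A (rt 2 A.natAbs), sg A (rt 2 A.natAbs))]
  else if Tst A.natAbs then some [] else none

theorem gensP : Primrec gens := by
  have ha : Primrec fun A : ℤ => A.natAbs := natAbsP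
  have hr : ∀ k, Primrec fun A : ℤ => rt k A.natAbs := fun k => (rtP k).comp ha
  have hs : ∀ k, Primrec fun A : ℤ => sg A (rt k A.natAbs) := fun k => sgP Primrec.id (hr k)
  have hc : ∀ k, PrimrecPred fun A : ℤ => k * (rt k A.natAbs) ^ 3 = A.natAbs := fun k =>
    eqP (mulP (const k) (cube (hr k))) ha
  have h1 : Primrec fun A : ℤ => [(sg A (rt 1 A.natAbs), (0 : ℤ)), (0, sg A (rt 1 A.natAbs))] :=
    list_cons.comp (Primrec.pair (hs 1) (const 0))
      (list_cons.comp (Primrec.pair (const 0) (hs 1)) (const []))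
  have h2 : Primrec fun A : ℤ => [(sg A (rt 2 A.natAbs), sg A (rt 2 A.natAbs))] :=
    list_cons.comp (Primrec.pair (hs 2) (hs 2)) (const [])
  exact Primrec.ite (hc 1) (option_some.comp h1) (Primrec.ite (hc 2) (option_some.comp h2)
    (Primrec.ite (tstP.comp ha) (const (some [])) (const none)))

/-- **The bound**. -/
noncomputable def bd (n : ℕ) : ℕ := Nat.findGreatest (fun r => 3 ^ (r + 1) = spc n) (spc n)

theorem bdP : Primrec bd :=
  nat_findGreatest spcP (PrimrecPred.primrecRel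
    (eqP ((Primrec₂.unpaired'.1 Nat.Primrec.pow).comp (const 3) (Primrec.succ.comp Primrec.snd))
      (spcP.comp Primrec.fst)))

theorem bd_eq {n : ℕ} (hC : Cls n) : bd n = rr n := by
  have h0 := spc_rr Pool.Agent.Y333.CX.t_LAM hC
  have h1 : rr n ≤ spc n := by
    rw [h0]
    exact (Nat.lt_pow_self (by norm_num : 1 < 3)).le.trans
      (Nat.pow_le_pow_right (by norm_num) (Nat.le_succ _))
  have h2 : 3 ^ (bd n + 1) = spc n :=
    Nat.findGreatest_spec (P := fun r => 3 ^ (r + 1) = spc n) h1 h0.symm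
  rw [h0] at h2
  have h3 := Nat.pow_right_injective (le_refl 2 |>.trans (by norm_num : 2 ≤ 3)) h2
  omega

/-- the square of minus signs -/
theorem sg_cube {A : ℤ} {n b : ℕ} (h : n * b ^ 3 = A.natAbs) : A = (n : ℤ) * (sg A b) ^ 3 := by
  unfold sg
  rcases Int.natAbs_eq A with h1 | h1
  · have h0 : 0 ≤ A := by rw [h1]; exact Int.natCast_nonneg _
    rw [if_pos h0, h1, ← h]
    push_cast
    rfl
  · by_cases h0 : 0 ≤ A
    · have h2 : A = 0 := by omega
      subst h2
      rw [if_pos le_rfl]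
      have h3 : ((n * b ^ 3 : ℕ) : ℤ) = 0 := by rw [h]; rfl
      push_cast at h3
      exact h3.symm
    · rw [if_neg h0, h1, ← h]
      push_cast
      ring

/-- the good numbers are found by the test -/
theorem tst_iff {A : ℕ} (hA : A ≠ 0) : Tst A ↔ ∃ n b : ℕ, n * b ^ 3 = A ∧ Cls n ∧ Triv3 n := by
  haveI : IsCyclotomicExtension {3} ℚ (CyclotomicField 3 ℚ) :=
    CyclotomicField.isCyclotomicExtension 3 ℚ
  obtain ⟨⟨j, -⟩, -⟩ := Pool.Agent.Y455.CTK.jex (CyclotomicField 3 ℚ)
  have key : ∀ {n : ℕ}, Cls n → (spc n = 3 ↔ Triv3 n) := by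
    intro n hC
    rw [spc_rr Pool.Agent.Y333.CX.t_LAM hC, ← (Q283.Q3B.sel_N (CyclotomicField 3 ℚ) j hC).2.2]
    constructor
    · intro h
      have h2 : (3 : ℕ) ^ (rr n + 1) = 3 ^ 1 := by rw [h]; norm_num
      have h3 := Nat.pow_right_injective (le_refl 2 |>.trans (by norm_num : 2 ≤ 3)) h2
      omega
    · intro h
      rw [h]; norm_num
  constructor
  · rintro ⟨m, -, b, -, h1, h2, h3⟩
    exact ⟨m, b, h1, h2, (key h2).1 h3⟩
  · rintro ⟨n, b, h1, h2, h3⟩
    have hb : b ≠ 0 := by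
      rintro rfl
      exact hA (by rw [← h1]; norm_num)
    have hn : n ≠ 0 := h2.1.1
    have h4 : n ≤ A := by
      rw [← h1]
      exact Nat.le_mul_of_pos_right _ (Nat.pos_of_ne_zero (pow_ne_zero 3 hb))
    have h5 : b ≤ A := by
      rw [← h1]
      exact (Nat.le_self_pow (by norm_num) b).trans (Nat.le_mul_of_pos_left _ (Nat.pos_of_ne_zero hn))
    exact ⟨n, Nat.lt_succ_of_le h4, b, Nat.lt_succ_of_le h5, h1, h2, (key h2).2 h3⟩

/-- the rational points found by the algorithm -/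
def toQ (P : ℤ × ℤ) : ℚ × ℚ := ((P.1 : ℚ), (P.2 : ℚ))

/-- all the rational points of the curves that pass the test -/
theorem pts_good {n : ℕ} (hC : Cls n) (hT : Triv3 n) : pts n = if n = 2 then {(1, 1)} else ∅ := by
  have hn : n ≠ 0 := hC.1.1
  have hn1 : n ≠ 1 := by
    rintro rfl
    obtain ⟨q, hq, -, hd, -⟩ := hC.2.2.2
    exact hq.one_lt.ne' (Nat.dvd_one.1 hd)
  have h1 := pts_fin (D := n) (by exact_mod_cast hn) hT.1
  have h2 := pts_of_finite (N := n) (by exact_mod_cast hn1) (fun p hp h => hC.1.2.2 p hp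
    (by exact_mod_cast h)) (by exact_mod_cast Nat.pos_of_ne_zero hn) h1
  rw [h2]
  by_cases h3 : n = 2
  · rw [if_pos h3, if_pos (by exact_mod_cast h3)]
  · rw [if_neg h3, if_neg (by exact_mod_cast h3)]

theorem cls_two : Cls 2 := by
  refine ⟨⟨by norm_num, by norm_num, fun p hp hd => ?_⟩, by norm_num, by norm_num, 2,
    Nat.prime_two, rfl, dvd_rfl, fun p hp hd hne => ?_⟩
  · have h1 := Nat.le_of_dvd (by norm_num) hd
    have h2 := Nat.pow_le_pow_left hp.two_le 3
    omega
  · exact absurd ((Nat.prime_dvd_prime_iff_eq hp Nat.prime_two).1 hd) hne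

theorem triv_two : Triv3 2 := by
  rw [Q283.Q3N.triv_iff cls_two]
  intro d hd hcop _
  have h2 : ∃ c, d c ≠ 1 := by
    by_contra hall
    push Not at hall
    rw [Finset.prod_congr rfl fun c _ => hall c, Finset.prod_const_one] at hd
    omega
  obtain ⟨c, hc⟩ := h2
  have hdv : ∀ c, d c ∣ 2 := fun c => by
    have := Finset.dvd_prod_of_mem d (Finset.mem_univ c)
    rw [hd] at this
    exact this
  have h2c : d c = 2 := ((Nat.dvd_prime Nat.prime_two).1 (hdv c)).resolve_left hc
  refine ⟨c, fun c' hc' => ?_⟩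
  rcases (Nat.dvd_prime Nat.prime_two).1 (hdv c') with h | h
  · exact h
  · have := hcop c' c hc'
    rw [h, h2c] at this
    norm_num at this

/-- **The algorithm is correct.** -/
theorem gens_spec {A : ℤ} (hA : A ≠ 0) {L : List (ℤ × ℤ)} (h : gens A = some L) :
    toQ '' {P | P ∈ L} = pts A ∧ L.Nodup ∧ rA A = min 1 L.length := by
  have hA' : A.natAbs ≠ 0 := Int.natAbs_ne_zero.2 hA
  unfold gens at h
  split_ifs at h with h1 h2 h3
  · -- cubes
    have hs := sg_cube h1
    rw [Nat.cast_one] at hs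
    obtain ⟨c, hc⟩ : ∃ c, c = sg A (rt 1 A.natAbs) := ⟨_, rfl⟩
    rw [← hc] at hs h
    have hc0 : c ≠ 0 := by
      rintro rfl
      exact hA (by rw [hs]; norm_num)
    have hcq : (c : ℚ) ≠ 0 := by exact_mod_cast hc0
    have hp : pts A = {((c : ℚ), 0), (0, (c : ℚ))} := by
      rw [pts_scale hc0 hs, pts_one, Set.image_insert_eq, Set.image_singleton]
      simp
    have hL : L = [(c, 0), (0, c)] := by
      rw [Option.some.injEq] at h
      exact h.symm
    subst hL
    have hne : ((c : ℚ), (0 : ℚ)) ≠ (0, (c : ℚ)) := fun h => hcq (Prod.mk.inj h).1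
    refine ⟨?_, ?_, ?_⟩
    · rw [hp]
      ext Q
      simp only [List.mem_cons, List.not_mem_nil, or_false, Set.mem_image, Set.mem_setOf_eq,
        Set.mem_insert_iff, Set.mem_singleton_iff]
      constructor
      · rintro ⟨R, rfl | rfl, rfl⟩
        · left; unfold toQ; push_cast; rfl
        · right; unfold toQ; push_cast; rfl
      · rintro (rfl | rfl)
        · exact ⟨_, Or.inl rfl, by unfold toQ; push_cast; rfl⟩
        · exact ⟨_, Or.inr rfl, by unfold toQ; push_cast; rfl⟩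
    · rw [List.nodup_cons]
      refine ⟨?_, List.nodup_singleton _⟩
      rw [List.mem_singleton]
      exact fun h => hc0 (Prod.mk.inj h).1
    · rw [rA_pair hA hne hp]
      rfl
  · -- twice a cube
    have hs := sg_cube h2
    obtain ⟨c, hc⟩ : ∃ c, c = sg A (rt 2 A.natAbs) := ⟨_, rfl⟩
    rw [← hc] at hs h
    have hc0 : c ≠ 0 := by
      rintro rfl
      exact hA (by rw [hs]; norm_num)
    have hp : pts A = {((c : ℚ), (c : ℚ))} := by
      rw [pts_scale hc0 hs, pts_good cls_two triv_two, if_pos rfl, Set.image_singleton]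
      simp
    have hL : L = [(c, c)] := by
      rw [Option.some.injEq] at h
      exact h.symm
    subst hL
    refine ⟨?_, List.nodup_singleton _, ?_⟩
    · rw [hp]
      ext Q
      simp only [List.mem_singleton, Set.mem_image, Set.mem_setOf_eq, Set.mem_singleton_iff]
      constructor
      · rintro ⟨R, rfl, rfl⟩
        rfl
      · rintro rfl
        exact ⟨_, rfl, rfl⟩
    · rw [rA_single hA hp]
      rfl
  · -- the good numbers
    obtain ⟨n, b, hn, hC, hT⟩ := (tst_iff hA').1 h3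
    have hb : b ≠ 0 := by
      rintro rfl
      exact hA' (by rw [← hn]; norm_num)
    have hn2 : n ≠ 2 := by
      rintro rfl
      exact h2 (rt_spec (by norm_num) hn)
    have hs := sg_cube hn
    have hc0 : sg A b ≠ 0 := by
      intro h0
      rw [h0] at hs
      exact hA (by rw [hs]; norm_num)
    have hp : pts A = ∅ := by
      rw [pts_scale hc0 hs, pts_good hC hT, if_neg hn2, Set.image_empty]
    have hL : L = [] := by
      rw [Option.some.injEq] at h
      exact h.symm
    subst hL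
    refine ⟨?_, List.nodup_nil, ?_⟩
    · rw [hp]
      ext Q
      simp
    · rw [rA_zero hA hp]
      rfl

/-- the domain of the algorithm -/
theorem gens_dom {A : ℤ} (hA : A ≠ 0) :
    gens A ≠ none ↔ ∃ n b : ℕ, n * b ^ 3 = A.natAbs ∧ (n = 1 ∨ (Cls n ∧ Triv3 n)) := by
  have hA' : A.natAbs ≠ 0 := Int.natAbs_ne_zero.2 hA
  unfold gens
  constructor
  · intro h
    split_ifs at h with h1 h2 h3
    · exact ⟨1, _, h1, Or.inl rfl⟩
    · exact ⟨2, _, h2, Or.inr ⟨cls_two, triv_two⟩⟩
    · obtain ⟨n, b, hn, hC, hT⟩ := (tst_iff hA').1 h3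
      exact ⟨n, b, hn, Or.inr ⟨hC, hT⟩⟩
    · exact absurd rfl h
  · rintro ⟨n, b, hn, rfl | ⟨hC, hT⟩⟩
    · rw [if_pos (rt_spec one_ne_zero hn)]
      exact Option.some_ne_none _
    · split_ifs with h1 h2 h3
      · exact Option.some_ne_none _
      · exact Option.some_ne_none _
      · exact Option.some_ne_none _
      · exact absurd ((tst_iff hA').2 ⟨n, b, hn, hC, hT⟩) h3

/-- `m` is the base of `n` -/
def Cn (n m : ℕ) : Prop := ∃ b, b < n + 1 ∧ (m * b ^ 3 = n ∧ Cls m)

theorem cnP : PrimrecRel Cn := by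
  have h1 : PrimrecPred fun t : (ℕ × ℕ) × ℕ => t.1.2 * t.2 ^ 3 = t.1.1 ∧ Cls t.1.2 :=
    (eqP (mulP (Primrec.snd.comp Primrec.fst) (cube Primrec.snd)) (Primrec.fst.comp Primrec.fst)).and
      (clsP.comp (Primrec.snd.comp Primrec.fst))
  exact PrimrecPred.primrecRel (exL (α := ℕ × ℕ) (Primrec.succ.comp Primrec.fst)
    (PrimrecPred.primrecRel h1))

/-- the base of `n` -/
noncomputable def cfm (n : ℕ) : ℕ := Nat.findGreatest (Cn n) n

/-- the bound for all integers -/
noncomputable def bound (A : ℤ) : ℕ := bd (cfm A.natAbs)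

theorem boundP : Primrec bound :=
  bdP.comp ((nat_findGreatest Primrec.id cnP).comp natAbsP)

theorem bound_eq {A : ℤ} (hA : A ≠ 0) {n b : ℕ} (h : n * b ^ 3 = A.natAbs) (hC : Cls n) :
    bound A = rr n := by
  have hA' : A.natAbs ≠ 0 := Int.natAbs_ne_zero.2 hA
  have hb : b ≠ 0 := by
    rintro rfl
    exact hA' (by rw [← h]; norm_num)
  have hn : n ≠ 0 := hC.1.1
  have h4 : n ≤ A.natAbs := by
    rw [← h]
    exact Nat.le_mul_of_pos_right _ (Nat.pos_of_ne_zero (pow_ne_zero 3 hb))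
  have h5 : b ≤ A.natAbs := by
    rw [← h]
    exact (Nat.le_self_pow (by norm_num) b).trans (Nat.le_mul_of_pos_left _ (Nat.pos_of_ne_zero hn))
  have h6 : Cn A.natAbs n := ⟨b, Nat.lt_succ_of_le h5, h, hC⟩
  have h7 : Cn A.natAbs (cfm A.natAbs) := Nat.findGreatest_spec (P := Cn A.natAbs) h4 h6
  obtain ⟨b', -, h8, h9⟩ := h7
  have h10 : cfm A.natAbs = n :=
    Q283.Q3N.cf_unique (h8.trans h.symm) (by rw [h8]; exact hA') h9.1.2.2 hC.1.2.2
  unfold bound
  rw [h10, bd_eq hC]

/-- the domain, for one number -/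
theorem gens_base {A : ℤ} (hA : A ≠ 0) {n b : ℕ} (h : n * b ^ 3 = A.natAbs) (hC : Cls n) :
    gens A ≠ none ↔ Triv3 n := by
  have hA' : A.natAbs ≠ 0 := Int.natAbs_ne_zero.2 hA
  rw [gens_dom hA]
  constructor
  · rintro ⟨m, c, hm, rfl | ⟨hCm, hTm⟩⟩
    · have h1 : 1 = n := Q283.Q3N.cf_unique (hm.trans h.symm) (by rw [hm]; exact hA')
        (fun p hp hd => hp.one_lt.ne' (Nat.dvd_one.1 ((dvd_pow_self p (by norm_num)).trans hd)))
        hC.1.2.2
      obtain ⟨q, hq, -, hd, -⟩ := hC.2.2.2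
      rw [← h1] at hd
      exact absurd (Nat.dvd_one.1 hd) hq.one_lt.ne'
    · have h1 : m = n := Q283.Q3N.cf_unique (hm.trans h.symm) (by rw [hm]; exact hA')
        hCm.1.2.2 hC.1.2.2
      rw [← h1]
      exact hTm
  · intro hT
    exact ⟨n, b, h, Or.inr ⟨hC, hT⟩⟩

end Q155.AL
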