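import Mathlib

/-! Polynomials in two variables without common factors: the two eliminations -/

set_option autoImplicit false
set_option maxHeartbeats 400000

namespace Q155.AL

open Polynomial nonZeroDivisors

/-- elimination of the main variable -/
theorem bez {R : Type} [CommRing R] [IsDomain R] [UniqueFactorizationMonoid R] {f g : R[X]}
    (h : ∀ d : R[X], d ∣ f → d ∣ g → d.natDegree = 0) :
    ∃ (u v : R[X]) (r : R), r ≠ 0 ∧ u * f + v * g = C r := by
  let K := FractionRing R
  let : NormalizedGCDMonoid R := Nonempty.some inferInstance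
  have hinj : Function.Injective (algebraMap R K) := IsFractionRing.injective R K
  have hminj : Function.Injective (Polynomial.map (algebraMap R K)) := map_injective _ hinj
  have hcop : IsCoprime (f.map (algebraMap R K)) (g.map (algebraMap R K)) := by
    refine isCoprime_of_irreducible_dvd ?_ ?_
    · rintro ⟨h1, h2⟩
      have hf : f = 0 := hminj (by rw [h1, Polynomial.map_zero])
      have hg : g = 0 := hminj (by rw [h2, Polynomial.map_zero])
      have h3 := h X (by rw [hf]; exact dvd_zero _) (by rw [hg]; exact dvd_zero _)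
      rw [natDegree_X] at h3
      exact one_ne_zero h3
    · intro z hz h1 h2
      obtain ⟨b, hb, hbz⟩ := IsLocalization.integerNormalization_spec R⁰ z
      obtain ⟨w, hw⟩ : ∃ w, w = IsLocalization.integerNormalization R⁰ z := ⟨_, rfl⟩
      rw [← hw] at hbz
      have hb0 : algebraMap R K b ≠ 0 := by
        rw [Ne, map_eq_zero_iff _ hinj]
        exact nonZeroDivisors.ne_zero hb
      have hbz' : w.map (algebraMap R K) = C (algebraMap R K b) * z := by
        rw [hbz, Algebra.smul_def, Polynomial.algebraMap_apply]
      have hw0 : w ≠ 0 := by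
        rintro rfl
        rw [Polynomial.map_zero] at hbz'
        exact mul_ne_zero (C_ne_zero.2 hb0) hz.ne_zero hbz'.symm
      have hc0 : algebraMap R K w.content ≠ 0 := by
        rw [Ne, map_eq_zero_iff _ hinj, content_eq_zero_iff]
        exact hw0
      have hq : C (algebraMap R K w.content) * w.primPart.map (algebraMap R K) =
          C (algebraMap R K b) * z := by
        rw [← hbz']
        conv_rhs => rw [w.eq_C_content_mul_primPart]
        rw [Polynomial.map_mul, map_C]
      have hdz : w.primPart.map (algebraMap R K) ∣ z := by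
        refine ⟨C (algebraMap R K w.content) * C (algebraMap R K b)⁻¹, ?_⟩
        have h3 : C (algebraMap R K b)⁻¹ * C (algebraMap R K b) = (1 : K[X]) := by
          rw [← C_mul, inv_mul_cancel₀ hb0, C_1]
        calc z = C (algebraMap R K b)⁻¹ * C (algebraMap R K b) * z := by rw [h3, one_mul]
          _ = C (algebraMap R K b)⁻¹ * (C (algebraMap R K w.content) *
              w.primPart.map (algebraMap R K)) := by rw [hq]; ring
          _ = _ := by ring
      have d1 := w.isPrimitive_primPart.dvd_of_fraction_map_dvd_fraction_map (hdz.trans h1)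
      have d2 := w.isPrimitive_primPart.dvd_of_fraction_map_dvd_fraction_map (hdz.trans h2)
      have h4 := h _ d1 d2
      rw [natDegree_primPart] at h4
      have h5 : (w.map (algebraMap R K)).natDegree = w.natDegree :=
        natDegree_map_eq_of_injective hinj w
      rw [hbz', natDegree_C_mul hb0, h4] at h5
      exact hz.not_isUnit (by
        rw [eq_C_of_natDegree_eq_zero h5, isUnit_C, isUnit_iff_ne_zero]
        intro h6
        apply hz.ne_zero
        rw [eq_C_of_natDegree_eq_zero h5, h6, C_0])
  obtain ⟨a, b, hab⟩ := hcop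
  obtain ⟨α, hα, ha⟩ := IsLocalization.integerNormalization_spec R⁰ a
  obtain ⟨β, hβ, hb⟩ := IsLocalization.integerNormalization_spec R⁰ b
  refine ⟨C β * IsLocalization.integerNormalization R⁰ a, C α * IsLocalization.integerNormalization R⁰ b,
    α * β, mul_ne_zero (nonZeroDivisors.ne_zero hα) (nonZeroDivisors.ne_zero hβ), hminj ?_⟩
  simp only [Polynomial.map_add, Polynomial.map_mul, map_C]
  rw [ha, hb, Algebra.smul_def, Algebra.smul_def, Polynomial.algebraMap_apply,
    Polynomial.algebraMap_apply]
  have e1 : ∀ t : R, C ((algebraMap R (FractionRing R)) t) = (C (algebraMap R K t) : K[X]) :=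
    fun _ => rfl
  rw [e1, e1, map_mul, C_mul]
  linear_combination (C (algebraMap R K α) * C (algebraMap R K β)) * hab

/-- the two eliminations -/
theorem bez2 {F T : Polynomial (Polynomial ℤ)}
    (h : ∀ D : Polynomial (Polynomial ℤ), D ∣ F → D ∣ T → ∃ n : ℤ, D = C (C n)) :
    (∃ (U V : Polynomial (Polynomial ℤ)) (w : ℤ[X]), w ≠ 0 ∧ U * F + V * T = C w) ∧
    ∃ (U V : Polynomial (Polynomial ℤ)) (w : ℤ[X]), w ≠ 0 ∧ U * F + V * T = w.map C := by
  constructor
  · refine bez fun d h1 h2 => ?_
    obtain ⟨n, rfl⟩ := h d h1 h2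
    exact natDegree_C _
  · obtain ⟨E, e1, e2, e3⟩ : ∃ E : Polynomial (Polynomial ℤ) →+* Polynomial (Polynomial ℤ),
        (∀ p, E (E p) = p) ∧ (∀ n : ℤ, E (C (C n)) = C (C n)) ∧ ∀ w : ℤ[X], E (C w) = w.map C :=
      ⟨(Bivariate.swap (R := ℤ)).toRingEquiv.toRingHom, fun p => Bivariate.swap_swap_apply p,
        fun n => Bivariate.swap_C_C n, fun w => Bivariate.swap_C w⟩
    have hdv : ∀ {a b : Polynomial (Polynomial ℤ)}, a ∣ b → E a ∣ E b := by
      rintro a _ ⟨c, rfl⟩
      exact ⟨E c, map_mul E a c⟩
    have h' : ∀ D : Polynomial (Polynomial ℤ), D ∣ E F → D ∣ E T → D.natDegree = 0 := by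
      intro D h1 h2
      have g1 := hdv h1
      have g2 := hdv h2
      rw [e1] at g1 g2
      obtain ⟨n, hn⟩ := h (E D) g1 g2
      rw [← e1 D, hn, e2]
      exact natDegree_C _
    obtain ⟨U, V, w, hw, he⟩ := bez h'
    refine ⟨E U, E V, w, hw, ?_⟩
    rw [← e3 w, ← he, map_add, map_mul, map_mul, e1, e1]

end Q155.AL
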