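import Pool.Agent.Q155.AL.Pos

/-! The certificates for infinitely many zeros -/

set_option autoImplicit false
set_option maxHeartbeats 400000

open scoped Classical

namespace Q155.AL

open Polynomial Pool.Agent.Helper446 Pool.Agent.W960.GA

/-- the value at a point with the common denominator `d`, made integral -/
noncomputable def hz (M : ℕ) (l : List (List ℤ)) (a b d : ℤ) : ℤ :=
  cf2 (hom M l (C (C a)) (C (C b)) (C (C d))) 0 0

theorem hz_cast (M : ℕ) (l : List (List ℤ)) (a b d : ℤ) : (hz M l a b d : ℚ) = hq M l a b d := by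
  have h1 : hom M l (C (C a)) (C (C b)) (C (C d)) =
      C (C (∑ i ∈ Finset.range l.length, ∑ j ∈ Finset.range (l.getD i []).length,
        (l.getD i []).getD j 0 * a ^ i * b ^ j * d ^ (M - i - j))) := by
    unfold hom
    simp only [map_sum, map_mul, map_pow]
  unfold hz
  rw [h1, cf2_const, if_pos ⟨rfl, rfl⟩]
  unfold hq
  push_cast
  rfl

theorem hz_eq {M : ℕ} {l : List (List ℤ)} {a b d : ℤ} (hd : d ≠ 0) (hM : dg l ≤ M) :
    (hz M l a b d : ℚ) = (d : ℚ) ^ M * evR ((a : ℚ) / d) ((b : ℚ) / d) (toP l) := by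
  rw [hz_cast, hq_eq (by exact_mod_cast hd) (dg_bd hM)]

theorem hz_comp {α : Type} [Primcodable α] {M : α → ℕ} {l : α → List (List ℤ)} {a b d : α → ℤ}
    (hM : Computable M) (hl : Computable l) (ha : Computable a) (hb : Computable b)
    (hd : Computable d) : Computable fun t => hz (M t) (l t) (a t) (b t) (d t) := by
  have h1 := hom_cb hM hl (CB.const ha) (CB.const hb) (CB.const hd)
  have p : Computable fun t : α => (t, ((0 : ℕ), (0 : ℕ))) :=
    Computable.pair Computable.id (Computable.const (0, 0))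
  have q := h1.coef.comp p
  exact q

/-- integral coordinates -/
theorem int_pt {A : ℤ} {P : ℚ × ℚ} (hP : P ∈ pts A) : ∃ a b d : ℤ, d ≠ 0 ∧
    P = ((a : ℚ) / d, (b : ℚ) / d) ∧ a * a * a + b * b * b = A * (d * d * d) := by
  obtain ⟨X, Y⟩ := P
  have hXY : X ^ 3 + Y ^ 3 = (A : ℚ) := hP
  have hden : X.den = Y.den := den_eq hP
  have hzq : ((X.den : ℤ) : ℚ) ≠ 0 := by exact_mod_cast X.den_ne_zero
  have hXz : X * ((X.den : ℤ) : ℚ) = X.num := by
    push_cast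
    exact Rat.mul_den_eq_num X
  have hYz : Y * ((X.den : ℤ) : ℚ) = Y.num := by
    rw [hden]
    push_cast
    exact Rat.mul_den_eq_num Y
  refine ⟨X.num, Y.num, X.den, by exact_mod_cast X.den_ne_zero, ?_, ?_⟩
  · rw [← hXz, ← hYz, mul_div_cancel_right₀ _ hzq, mul_div_cancel_right₀ _ hzq]
  · have h4 : ((X.num : ℤ) : ℚ) * X.num * X.num + (Y.num : ℚ) * Y.num * Y.num =
        (A : ℚ) * (((X.den : ℤ) : ℚ) * ((X.den : ℤ) : ℚ) * ((X.den : ℤ) : ℚ)) := by
      rw [← hXz, ← hYz]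
      linear_combination ((X.den : ℤ) : ℚ) ^ 3 * hXY
    exact_mod_cast h4

theorem pt_of {A a b d : ℤ} (hd : d ≠ 0) (h : a * a * a + b * b * b = A * (d * d * d)) :
    ((a : ℚ) / d, (b : ℚ) / d) ∈ pts A := by
  have hdq : (d : ℚ) ≠ 0 := by exact_mod_cast hd
  show ((a : ℚ) / d) ^ 3 + ((b : ℚ) / d) ^ 3 = (A : ℚ)
  have h1 : ((a * a * a + b * b * b : ℤ) : ℚ) = ((A * (d * d * d) : ℤ) : ℚ) := by rw [h]
  push_cast at h1
  rw [div_pow, div_pow, ← add_div, div_eq_iff (pow_ne_zero 3 hdq)]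
  linear_combination h1

/-- the type of the certificates -/
abbrev CT : Type := ℤ × (ℕ × (ℕ × (List ℤ × List (List (List ℤ)))))

/-- the numbers of a certificate -/
def zk (c : CT) (k : ℕ) : ℤ := c.2.2.2.1.getD k 0

/-- the polynomials of a certificate -/
def lk (c : CT) (k : ℕ) : List (List ℤ) := c.2.2.2.2.getD k []

/-- the values at the two points -/
noncomputable def e1 (c : CT) (k : ℕ) : ℤ := hz c.2.2.1 (lk c k) (zk c 0) (zk c 1) (zk c 2)

/-- the values at the two points -/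
noncomputable def e2 (c : CT) (k : ℕ) : ℤ := hz c.2.2.1 (lk c k) (zk c 3) (zk c 4) (zk c 5)

/-- the certificates for infinitely many zeros -/
def PD (L : List (List ℤ)) (c : CT) : Prop :=
  (¬ c.1 = 0 ∧ (zk c 0 * zk c 0 * zk c 0 + zk c 1 * zk c 1 * zk c 1 =
    c.1 * (zk c 2 * zk c 2 * zk c 2) ∧ (¬ zk c 2 = 0 ∧ ¬ zk c 0 = zk c 1) ∧
      ¬ zk c 0 = 0 ∧ ¬ zk c 1 = 0)) ∧
  (zk c 3 * zk c 3 * zk c 3 + zk c 4 * zk c 4 * zk c 4 = c.1 * (zk c 5 * zk c 5 * zk c 5) ∧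
    ¬ zk c 5 = 0) ∧
  (dg L ≤ c.2.1 ∧ dg (lk c 0) ≤ c.2.2.1 ∧ dg (lk c 1) ≤ c.2.2.1 ∧ dg (lk c 2) ≤ c.2.2.1) ∧
  hom c.2.1 L (toP (lk c 0)) (toP (lk c 1)) (toP (lk c 2)) = toP (cubL c.1) * toP (lk c 3) ∧
  (¬ e1 c 2 = 0 ∧ ¬ e2 c 2 = 0) ∧
  ¬ (e1 c 0 * e2 c 2 = e2 c 0 * e1 c 2 ∧ e1 c 1 * e2 c 2 = e2 c 1 * e1 c 2)

theorem FA_cub (A : ℤ) : toP (cubL A) = FA A := toP_cubL A

/-- **Soundness.** -/
theorem pd_sound {L : List (List ℤ)} {c : CT} (h : PD L c) : (Zer L).Infinite := by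
  obtain ⟨⟨hA, hP, ⟨hd, hab⟩, ha, hb⟩, ⟨hP', hd'⟩, ⟨g0, g1, g2, g3⟩, hid, ⟨w1, w2⟩, hne⟩ := h
  have hdq : (zk c 2 : ℚ) ≠ 0 := by exact_mod_cast hd
  have hdq' : (zk c 5 : ℚ) ≠ 0 := by exact_mod_cast hd'
  have m1 := pt_of hd hP
  have m2 := pt_of hd' hP'
  have hinf : (pts c.1).Infinite := by
    refine pts_inf hA m1 ?_ ?_ ?_
    · simp only
      rw [Ne, div_left_inj' hdq]
      exact_mod_cast hab
    · simp only
      exact div_ne_zero (by exact_mod_cast ha) hdq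
    · simp only
      exact div_ne_zero (by exact_mod_cast hb) hdq
  rw [FA_cub] at hid
  have a0 := hz_eq (a := zk c 0) (b := zk c 1) hd g1
  have a1 := hz_eq (a := zk c 0) (b := zk c 1) hd g2
  have a2 := hz_eq (a := zk c 0) (b := zk c 1) hd g3
  have b0 := hz_eq (a := zk c 3) (b := zk c 4) hd' g1
  have b1 := hz_eq (a := zk c 3) (b := zk c 4) hd' g2
  have b2 := hz_eq (a := zk c 3) (b := zk c 4) hd' g3
  change ((e1 c 0 : ℤ) : ℚ) = _ at a0
  change ((e1 c 1 : ℤ) : ℚ) = _ at a1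
  change ((e1 c 2 : ℤ) : ℚ) = _ at a2
  change ((e2 c 0 : ℤ) : ℚ) = _ at b0
  change ((e2 c 1 : ℤ) : ℚ) = _ at b1
  change ((e2 c 2 : ℤ) : ℚ) = _ at b2
  have key : ∀ (k : ℕ) (u t : ℤ), t ≠ 0 → FA c.1 ∣ C (C t) * toP (lk c k) - C (C u) * toP (lk c 2) →
      ((e1 c k : ℤ) : ℚ) = (zk c 2 : ℚ) ^ c.2.2.1 *
        evR ((zk c 0 : ℚ) / zk c 2) ((zk c 1 : ℚ) / zk c 2) (toP (lk c k)) →
      ((e2 c k : ℤ) : ℚ) = (zk c 5 : ℚ) ^ c.2.2.1 *
        evR ((zk c 3 : ℚ) / zk c 5) ((zk c 4 : ℚ) / zk c 5) (toP (lk c k)) →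
      e1 c k * e2 c 2 = e2 c k * e1 c 2 := by
    rintro k u t ht ⟨G, hG⟩ h1 h2
    have k1 := congrArg (evR ((zk c 0 : ℚ) / zk c 2) ((zk c 1 : ℚ) / zk c 2)) hG
    have k2 := congrArg (evR ((zk c 3 : ℚ) / zk c 5) ((zk c 4 : ℚ) / zk c 5)) hG
    rw [evR_lin, map_mul, evR_FA m1, zero_mul] at k1
    rw [evR_lin, map_mul, evR_FA m2, zero_mul] at k2
    have htq : (t : ℚ) ≠ 0 := by exact_mod_cast ht
    have h3 : ((e1 c k : ℤ) : ℚ) * e2 c 2 = (e2 c k : ℚ) * e1 c 2 := by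
      rw [h1, h2, a2, b2]
      refine mul_left_cancel₀ htq ?_
      linear_combination ((zk c 2 : ℚ) ^ c.2.2.1 * (zk c 5 : ℚ) ^ c.2.2.1 *
        evR ((zk c 3 : ℚ) / zk c 5) ((zk c 4 : ℚ) / zk c 5) (toP (lk c 2))) * k1 -
        ((zk c 2 : ℚ) ^ c.2.2.1 * (zk c 5 : ℚ) ^ c.2.2.1 *
        evR ((zk c 0 : ℚ) / zk c 2) ((zk c 1 : ℚ) / zk c 2) (toP (lk c 2))) * k2
    exact_mod_cast h3
  refine inf_core hA hinf (dg_bd g0) ⟨_, hid⟩ ?_ fun u v t ht => ?_
  · rintro ⟨G, hG⟩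
    have k1 := congrArg (evR ((zk c 0 : ℚ) / zk c 2) ((zk c 1 : ℚ) / zk c 2)) hG
    rw [map_mul, evR_FA m1, zero_mul] at k1
    rw [k1, mul_zero] at a2
    exact w1 (by exact_mod_cast a2)
  · rintro ⟨h1, h2⟩
    exact hne ⟨key 0 u t ht h1 a0 b0, key 1 v t ht h2 a1 b1⟩

/-- **Completeness.** -/
theorem pd_complete {A : ℤ} (hA : A ≠ 0) (hinf : (pts A).Infinite) {L : List (List ℤ)}
    (h : Cv L A) : ∃ c, PD L c := by
  obtain ⟨U, V, W, N, hN, hd, hW, hnc⟩ := h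
  have hS := inf_S hA hinf hW
  -- the first point
  obtain ⟨P, hP, hPW, hP1, hP2, hP3⟩ : ∃ P ∈ pts A, evR P.1 P.2 W ≠ 0 ∧ P.1 ≠ P.2 ∧ P.1 ≠ 0 ∧
      P.2 ≠ 0 := by
    by_contra hc
    push Not at hc
    have q1 : ¬ FA A ∣ (X - C X : PP) := fun hdv => by
      have h1 := natDegree_le_of_dvd hdv (X_sub_C_ne_zero _)
      rw [FA_eq, natDegree_X_pow_add_C, natDegree_X_sub_C] at h1
      omega
    have q2 : ¬ FA A ∣ (X : PP) := fun hdv => by
      have h1 := natDegree_le_of_dvd hdv X_ne_zero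
      rw [FA_eq, natDegree_X_pow_add_C, natDegree_X] at h1
      omega
    have q3 : ¬ FA A ∣ (C X : PP) := fun hdv => by
      have h1 := natDegree_le_of_dvd hdv (C_ne_zero.2 X_ne_zero)
      rw [FA_eq, natDegree_X_pow_add_C, natDegree_C] at h1
      omega
    refine hS ((((fin_zeros hA q1).union (fin_zeros hA q2)).union (fin_zeros hA q3)).subset
      fun p hp => ?_)
    by_cases r1 : p.1 = p.2
    · refine Or.inl (Or.inl ⟨hp.1, ?_⟩)
      rw [map_sub, evR_X, evR_CX, r1, sub_self]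
    · by_cases r2 : p.1 = 0
      · refine Or.inl (Or.inr ⟨hp.1, ?_⟩)
        rw [evR_X, r2]
      · refine Or.inr ⟨hp.1, ?_⟩
        rw [evR_CX]
        exact hc p hp.1 hp.2 r1 r2
  -- the second point
  obtain ⟨Q, hQ, hQW, hPQ⟩ : ∃ Q ∈ pts A, evR Q.1 Q.2 W ≠ 0 ∧
      ¬ (evR P.1 P.2 U * evR Q.1 Q.2 W = evR Q.1 Q.2 U * evR P.1 P.2 W ∧
        evR P.1 P.2 V * evR Q.1 Q.2 W = evR Q.1 Q.2 V * evR P.1 P.2 W) := by
    by_contra hc
    push Not at hc
    obtain ⟨a, b, c, h0, h1, h2⟩ := const_q hA hS (fun p hp => hp.1)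
      (evR P.1 P.2 U / evR P.1 P.2 W) (evR P.1 P.2 V / evR P.1 P.2 W) (U := U) (V := V) (W := W)
      (fun p hp => by
        have := (hc p hp.1 hp.2).1
        field_simp
        linear_combination -this) (fun p hp => by
        have := (hc p hp.1 hp.2).2
        field_simp
        linear_combination -this)
    exact hnc a b c h0 ⟨h1, h2⟩
  obtain ⟨a, b, d, hd0, rfl, hab⟩ := int_pt hP
  obtain ⟨a', b', d', hd0', rfl, hab'⟩ := int_pt hQ
  simp only at hPW hP1 hP2 hP3 hQW hPQ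
  obtain ⟨l0, e0⟩ := toP_surj U
  obtain ⟨l1, e1⟩ := toP_surj V
  obtain ⟨l2, e2⟩ := toP_surj W
  obtain ⟨G, hG⟩ := hd
  obtain ⟨l3, e3⟩ := toP_surj (G * W ^ dg L)
  have hdq : (d : ℚ) ≠ 0 := by exact_mod_cast hd0
  have hdq' : (d' : ℚ) ≠ 0 := by exact_mod_cast hd0'
  refine ⟨(A, N + dg L, dg l0 + dg l1 + dg l2, [a, b, d, a', b', d'], [l0, l1, l2, l3]),
    ⟨hA, hab, ⟨hd0, ?_⟩, ?_, ?_⟩, ⟨hab', hd0'⟩, ⟨Nat.le_add_left _ _, ?_, ?_, ?_⟩, ?_, ⟨?_, ?_⟩, ?_⟩
  · intro h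
    exact hP1 (by rw [show a = b from h])
  · intro h
    exact hP2 (by rw [show a = 0 from h]; simp)
  · intro h
    exact hP3 (by rw [show b = 0 from h]; simp)
  · show dg l0 ≤ dg l0 + dg l1 + dg l2
    omega
  · show dg l1 ≤ dg l0 + dg l1 + dg l2
    omega
  · show dg l2 ≤ dg l0 + dg l1 + dg l2
    omega
  · show hom (N + dg L) L (toP l0) (toP l1) (toP l2) = toP (cubL A) * toP l3
    rw [hom_add hN, e0, e1, e2, e3, hG, FA_cub]
    ring
  · show ¬ hz (dg l0 + dg l1 + dg l2) l2 a b d = 0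
    intro h
    have h1 := hz_eq (l := l2) (M := dg l0 + dg l1 + dg l2) (a := a) (b := b) hd0 (by omega)
    rw [h, e2, Int.cast_zero] at h1
    exact (mul_ne_zero (pow_ne_zero _ hdq) hPW) h1.symm
  · show ¬ hz (dg l0 + dg l1 + dg l2) l2 a' b' d' = 0
    intro h
    have h1 := hz_eq (l := l2) (M := dg l0 + dg l1 + dg l2) (a := a') (b := b') hd0' (by omega)
    rw [h, e2, Int.cast_zero] at h1
    exact (mul_ne_zero (pow_ne_zero _ hdq') hQW) h1.symm
  · show ¬ (hz (dg l0 + dg l1 + dg l2) l0 a b d * hz (dg l0 + dg l1 + dg l2) l2 a' b' d' =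
      hz (dg l0 + dg l1 + dg l2) l0 a' b' d' * hz (dg l0 + dg l1 + dg l2) l2 a b d ∧
      hz (dg l0 + dg l1 + dg l2) l1 a b d * hz (dg l0 + dg l1 + dg l2) l2 a' b' d' =
      hz (dg l0 + dg l1 + dg l2) l1 a' b' d' * hz (dg l0 + dg l1 + dg l2) l2 a b d)
    obtain ⟨M, hM⟩ : ∃ M, M = dg l0 + dg l1 + dg l2 := ⟨_, rfl⟩
    rw [← hM]
    have a0 := hz_eq (l := l0) (M := M) (a := a) (b := b) hd0 (by omega)
    have a1 := hz_eq (l := l1) (M := M) (a := a) (b := b) hd0 (by omega)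
    have a2 := hz_eq (l := l2) (M := M) (a := a) (b := b) hd0 (by omega)
    have b0 := hz_eq (l := l0) (M := M) (a := a') (b := b') hd0' (by omega)
    have b1 := hz_eq (l := l1) (M := M) (a := a') (b := b') hd0' (by omega)
    have b2 := hz_eq (l := l2) (M := M) (a := a') (b := b') hd0' (by omega)
    rw [e0] at a0 b0
    rw [e1] at a1 b1
    rw [e2] at a2 b2
    have hpp : (d : ℚ) ^ M * (d' : ℚ) ^ M ≠ 0 := mul_ne_zero (pow_ne_zero _ hdq) (pow_ne_zero _ hdq')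
    rintro ⟨r1, r2⟩
    have s1 : ((hz M l0 a b d : ℤ) : ℚ) * hz M l2 a' b' d' = (hz M l0 a' b' d' : ℚ) * hz M l2 a b d := by
      exact_mod_cast r1
    have s2 : ((hz M l1 a b d : ℤ) : ℚ) * hz M l2 a' b' d' = (hz M l1 a' b' d' : ℚ) * hz M l2 a b d := by
      exact_mod_cast r2
    rw [a0, b0, a2, b2] at s1
    rw [a1, b1, a2, b2] at s2
    refine hPQ ⟨mul_left_cancel₀ hpp ?_, mul_left_cancel₀ hpp ?_⟩
    · linear_combination s1
    · linear_combination s2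

/-- the certificates can be checked -/
theorem pd_cp : ComputablePred fun t : (List (List ℤ)) × CT => PD t.1 t.2 := by
  have hL : Computable fun t : (List (List ℤ)) × CT => t.1 := Computable.fst
  have hc : Computable fun t : (List (List ℤ)) × CT => t.2 := Computable.snd
  have hA : Computable fun t : (List (List ℤ)) × CT => t.2.1 := Computable.fst.comp hc
  have hc2 : Computable fun t : (List (List ℤ)) × CT => t.2.2 := Computable.snd.comp hc
  have hN : Computable fun t : (List (List ℤ)) × CT => t.2.2.1 := Computable.fst.comp hc2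
  have hc3 : Computable fun t : (List (List ℤ)) × CT => t.2.2.2 := Computable.snd.comp hc2
  have hM : Computable fun t : (List (List ℤ)) × CT => t.2.2.2.1 := Computable.fst.comp hc3
  have hc4 : Computable fun t : (List (List ℤ)) × CT => t.2.2.2.2 := Computable.snd.comp hc3
  have hzl : Computable fun t : (List (List ℤ)) × CT => t.2.2.2.2.1 := Computable.fst.comp hc4
  have hll : Computable fun t : (List (List ℤ)) × CT => t.2.2.2.2.2 := Computable.snd.comp hc4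
  have gz : Computable fun t : (List ℤ) × ℕ => t.1.getD t.2 0 :=
    (Primrec.list_getD (α := ℤ) 0).to_comp
  have gl : Computable fun t : (List (List (List ℤ))) × ℕ => t.1.getD t.2 [] :=
    (Primrec.list_getD (α := List (List ℤ)) []).to_comp
  have z : ∀ k : ℕ, Computable fun t : (List (List ℤ)) × CT => zk t.2 k := by
    intro k
    have p : Computable fun t : (List (List ℤ)) × CT => (t.2.2.2.2.1, k) :=
      Computable.pair hzl (Computable.const k)
    have q := gz.comp p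
    exact q
  have l : ∀ k : ℕ, Computable fun t : (List (List ℤ)) × CT => lk t.2 k := by
    intro k
    have p : Computable fun t : (List (List ℤ)) × CT => (t.2.2.2.2.2, k) :=
      Computable.pair hll (Computable.const k)
    have q := gl.comp p
    exact q
  have hcub : Computable cubL := by
    have h1 : Primrec fun A : ℤ => -A := Pool.Agent.Helper566.FD.J7.prim_int_neg
    have h2 : Primrec fun A : ℤ => [-A, 0, 0, 1] := Primrec.list_cons.comp h1 (Primrec.const _)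
    have h3 : Primrec cubL := Primrec.list_cons.comp h2 (Primrec.const [[], [], [1]])
    exact h3.to_comp
  have cu : ∀ {f : (List (List ℤ)) × CT → ℤ}, Computable f → Computable fun t => f t * f t * f t :=
    fun hf => zmul (zmul hf hf) hf
  have E1 : ∀ k : ℕ, Computable fun t : (List (List ℤ)) × CT => e1 t.2 k := fun k =>
    hz_comp hM (l k) (z 0) (z 1) (z 2)
  have E2 : ∀ k : ℕ, Computable fun t : (List (List ℤ)) × CT => e2 t.2 k := fun k =>
    hz_comp hM (l k) (z 3) (z 4) (z 5)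
  refine cp_and (cp_and (cp_not (RE.cp_eq hA (Computable.const 0))) (cp_and
      (RE.cp_eq (zadd (cu (z 0)) (cu (z 1))) (zmul hA (cu (z 2)))) (cp_and (cp_and
        (cp_not (RE.cp_eq (z 2) (Computable.const 0))) (cp_not (RE.cp_eq (z 0) (z 1)))) (cp_and
          (cp_not (RE.cp_eq (z 0) (Computable.const 0))) (cp_not (RE.cp_eq (z 1) (Computable.const 0)))))))
    (cp_and (cp_and (RE.cp_eq (zadd (cu (z 3)) (cu (z 4))) (zmul hA (cu (z 5))))
        (cp_not (RE.cp_eq (z 5) (Computable.const 0))))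
      (cp_and (cp_and (RE.cp_le (dg_comp.comp hL) hN) (cp_and (RE.cp_le (dg_comp.comp (l 0)) hM)
        (cp_and (RE.cp_le (dg_comp.comp (l 1)) hM) (RE.cp_le (dg_comp.comp (l 2)) hM))))
        (cp_and ?_ (cp_and (cp_and (cp_not (RE.cp_eq (E1 2) (Computable.const 0)))
          (cp_not (RE.cp_eq (E2 2) (Computable.const 0)))) (cp_not (cp_and
            (RE.cp_eq (zmul (E1 0) (E2 2)) (zmul (E2 0) (E1 2)))
            (RE.cp_eq (zmul (E1 1) (E2 2)) (zmul (E2 1) (E1 2)))))))))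
  exact CB.eq (hom_cb hN hL (toP_cb (l 0)) (toP_cb (l 1)) (toP_cb (l 2)))
    ((toP_cb (hcub.comp hA)).mul (toP_cb (l 3)))

theorem pd_re : REPred fun L => ∃ c, PD L c := RE.ex (p := PD) pd_cp.to_re

/-- **The algorithm.** -/
theorem main_alg2 : ∃ φ : List (List ℤ) →. Bool, Partrec φ ∧
    (∀ L, ∀ r ∈ φ L, (r = true ↔ (Zer L).Infinite)) ∧
    (∀ A : ℤ, A ≠ 0 → (pts A).Infinite → ∀ L, Cv L A → true ∈ φ L) ∧
    ∀ A : ℤ, A ≠ 0 → gens A ≠ none → ∀ L, Mp (toP L) A → false ∈ φ L := by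
  have hf : Partrec fun L : List (List ℤ) =>
      (Part.assert (∃ c, PD L c) fun _ => Part.some ()).map (fun _ => true) :=
    Partrec.map pd_re (Computable.const true).to₂
  have hg : Partrec fun L : List (List ℤ) =>
      (Part.assert (∃ c, NC L c) fun _ => Part.some ()).map (fun _ => false) :=
    Partrec.map nc_re (Computable.const false).to₂
  have mf : ∀ L x, x ∈ (Part.assert (∃ c, PD L c) fun _ => Part.some ()).map (fun _ => true) ↔
      x = true ∧ ∃ c, PD L c := by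
    intro L x
    rw [Part.mem_map_iff]
    constructor
    · rintro ⟨u, hu, rfl⟩
      exact ⟨rfl, (Part.mem_assert_iff.1 hu).1⟩
    · rintro ⟨rfl, h⟩
      exact ⟨(), Part.mem_assert_iff.2 ⟨h, Part.mem_some _⟩, rfl⟩
  have mg : ∀ L x, x ∈ (Part.assert (∃ c, NC L c) fun _ => Part.some ()).map (fun _ => false) ↔
      x = false ∧ ∃ c, NC L c := by
    intro L x
    rw [Part.mem_map_iff]
    constructor
    · rintro ⟨u, hu, rfl⟩
      exact ⟨rfl, (Part.mem_assert_iff.1 hu).1⟩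
    · rintro ⟨rfl, h⟩
      exact ⟨(), Part.mem_assert_iff.2 ⟨h, Part.mem_some _⟩, rfl⟩
  obtain ⟨φ, hφ, hm⟩ := Partrec.merge hf hg (fun L x hx y hy => by
    obtain ⟨-, c, hc⟩ := (mf L x).1 hx
    obtain ⟨-, c', hc'⟩ := (mg L y).1 hy
    exact absurd (nc_sound hc') (pd_sound hc))
  refine ⟨φ, hφ, fun L r hr => ?_, fun A hA h L hL => ?_, fun A hA h L hL => ?_⟩
  · rcases (hm L r).1 hr with h | h
    · obtain ⟨rfl, c, hc⟩ := (mf L r).1 h
      exact ⟨fun _ => pd_sound hc, fun _ => rfl⟩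
    · obtain ⟨rfl, c, hc⟩ := (mg L r).1 h
      exact ⟨fun h => Bool.noConfusion h, fun h => absurd (nc_sound hc) h⟩
  · exact (hm _ _).2 (Or.inl ((mf _ _).2 ⟨rfl, pd_complete hA h hL⟩))
  · exact (hm _ _).2 (Or.inr ((mg _ _).2 ⟨rfl, nc_complete hA h hL⟩))

end Q155.AL
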