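import Pool.Agent.Q155.AL.Prim
import Pool.Agent.Q283.Q3.Kt

/-! The number of splittings and the corank -/

set_option autoImplicit false

open scoped Classical

namespace Q155.AL

open Finset Module
open Pool.Agent.Y703.CX (lam LamP)
open Pool.Agent.Y703.CT (Cls NoSplit Base)
open Pool.Agent.Y710.CX (lam_one cube_two)
open Q283.Q3 (KT mem_KT)
open Q283.Q3N (fe dd prod_dd lam_dd fe_ne)
open Q283.Q3B (rr)

/-- the splittings as functions -/
def SplF (D : ℕ) (d : ZMod 3 → ℕ) : Prop :=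
  ∏ c, d c = D ∧ (∀ c c', c ≠ c' → Nat.Coprime (d c) (d c')) ∧
    ∀ (c : ZMod 3) (p : ℕ), p.Prime → p ∣ d c →
      ∃ x : ℤ, (p : ℤ) ∣ (d (c + 1) : ℤ) * (d (c + 2) : ℤ) ^ 2 - x ^ 3

/-- the extension of a labelling -/
noncomputable def xt (N : ℕ) (x : N.primeFactors → ZMod 3) (p : ℕ) : ZMod 3 :=
  if h : p ∈ N.primeFactors then x ⟨p, h⟩ else 0

theorem xt_coe {N : ℕ} (x : N.primeFactors → ZMod 3) (p : N.primeFactors) : xt N x p = x p :=
  dif_pos p.2

theorem mem_dd {N : ℕ} (c : ℕ → ZMod 3) {i : ZMod 3} {p : ℕ} (hp : p.Prime) (hd : p ∣ dd N c i) :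
    p ∈ N.primeFactors ∧ c p = i := by
  unfold dd at hd
  obtain ⟨q, hq, hpq⟩ := (hp.prime.dvd_finsetProd_iff _).1 hd
  have h1 := hp.dvd_of_dvd_pow hpq
  rw [mem_filter] at hq
  rw [(Nat.prime_dvd_prime_iff_eq hp (Nat.prime_of_mem_primeFactors hq.1)).1 h1]
  exact hq

theorem dvd_dd {N : ℕ} (c : ℕ → ZMod 3) {p : ℕ} (hp : p ∈ N.primeFactors) : p ∣ dd N c (c p) := by
  have hpp := Nat.prime_of_mem_primeFactors hp
  unfold dd
  refine Dvd.dvd.trans ?_ (Finset.dvd_prod_of_mem _ (Finset.mem_filter.2 ⟨hp, rfl⟩))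
  refine dvd_pow_self p ?_
  exact (hpp.factorization_pos_of_dvd (Nat.mem_primeFactors.1 hp).2.2
    (Nat.dvd_of_mem_primeFactors hp)).ne'

/-- the condition of a labelling, with the extension -/
theorem kt_iff (N : ℕ) (hb : Base N) (x : N.primeFactors → ZMod 3) :
    x ∈ KT N.primeFactors (fe N) ↔ ∀ p ∈ N.primeFactors, p % 3 = 1 →
      ∑ q ∈ N.primeFactors, (xt N x q - xt N x p) * (fe N q * lam p q) = 0 := by
  have key : ∀ p : N.primeFactors,
      (∑ q : N.primeFactors, fe N p * fe N q * lam p q * (x q - x p) =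
        fe N p * ∑ q ∈ N.primeFactors, (xt N x q - xt N x p) * (fe N q * lam p q)) := by
    intro p
    rw [mul_sum, ← Finset.sum_coe_sort N.primeFactors
      fun q => fe N p * ((xt N x q - xt N x p) * (fe N q * lam p q))]
    refine sum_congr rfl fun q _ => ?_
    rw [xt_coe, xt_coe]; ring
  rw [mem_KT]
  constructor
  · rintro ⟨-, h⟩ p hp h1
    have h2 := h ⟨p, hp⟩ h1
    rw [key ⟨p, hp⟩] at h2
    exact (mul_eq_zero.1 h2).resolve_left ((fe_ne hb).2 hp)
  · intro h
    refine ⟨fun p h0 => absurd h0 ((fe_ne hb).2 p.2), fun p h1 => ?_⟩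
    rw [key p, h p p.2 h1, mul_zero]

/-- the labelling gives a splitting -/
theorem spl_of (h : LamP) {N : ℕ} (hb : Base N) {x : N.primeFactors → ZMod 3}
    (hx : x ∈ KT N.primeFactors (fe N)) : SplF N (dd N (xt N x)) := by
  rw [kt_iff N hb] at hx
  have hN : N ≠ 0 := hb.1
  have hcase : ∀ p ∈ N.primeFactors, p % 3 = 1 ∨ p % 3 = 2 := by
    intro p hp
    refine Q283.Q3.mod3' (Nat.prime_of_mem_primeFactors hp) fun h3 => ?_
    rw [h3] at hp
    exact hb.2.1 (Nat.dvd_of_mem_primeFactors hp)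
  refine ⟨prod_dd hN _, fun i j hij => ?_, fun i p hp hd => ?_⟩
  · refine Nat.coprime_of_dvd fun p hp h1 h2 => ?_
    exact hij ((mem_dd _ hp h1).2.symm.trans (mem_dd _ hp h2).2)
  · obtain ⟨hpS, hcp⟩ := mem_dd _ hp hd
    rcases hcase p hpS with h1 | h2
    · obtain ⟨k1, k2⟩ := lam_dd h (N := N) (xt N x) hp h1
      have k3 := hx p hpS h1
      rw [k3] at k2
      rw [hcp] at k1 k2
      have := (h.cube p _ hp h1 k1).1 k2
      push_cast at this
      exact this
    · exact cube_two hp h2 _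

/-- a splitting comes from a labelling -/
theorem of_spl (h : LamP) {N : ℕ} (hb : Base N) {d : ZMod 3 → ℕ} (hd : SplF N d) :
    ∃ x ∈ KT N.primeFactors (fe N), dd N (xt N x) = d := by
  obtain ⟨hd, hcop, hcube⟩ := hd
  have hN : N ≠ 0 := hb.1
  have hS : ∀ q ∈ N.primeFactors, q.Prime := fun q hq => Nat.prime_of_mem_primeFactors hq
  -- the labels
  have hex : ∀ p ∈ N.primeFactors, ∃ i : ZMod 3, p ∣ d i := by
    intro p hp
    have h1 : p ∣ ∏ i, d i := by
      rw [hd]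
      exact Nat.dvd_of_mem_primeFactors hp
    obtain ⟨i, -, hi⟩ := ((hS p hp).prime.dvd_finsetProd_iff _).1 h1
    exact ⟨i, hi⟩
  have huniq : ∀ p : ℕ, p.Prime → ∀ i j : ZMod 3, p ∣ d i → p ∣ d j → i = j := by
    intro p hp i j h1 h2
    by_contra hne
    have h3 : p ∣ Nat.gcd (d i) (d j) := Nat.dvd_gcd h1 h2
    rw [Nat.Coprime.gcd_eq_one (hcop i j hne)] at h3
    exact hp.one_lt.ne' (Nat.dvd_one.1 h3)
  choose! c₀ hc₀ using hex
  obtain ⟨x, hx⟩ : ∃ x : N.primeFactors → ZMod 3, x = fun p : N.primeFactors => c₀ p := ⟨_, rfl⟩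
  have hc : ∀ p ∈ N.primeFactors, p ∣ d (xt N x p) := by
    intro p hp
    have h1 : xt N x p = c₀ p := by
      rw [show xt N x p = x ⟨p, hp⟩ from dif_pos hp, hx]
    rw [h1]
    exact hc₀ p hp
  have hd0 : ∀ i, d i ≠ 0 := fun i h0 => hN (by rw [← hd]; exact prod_eq_zero (mem_univ i) h0)
  have hdD : ∀ i, d i ∣ N := fun i => by
    rw [← hd]
    exact Finset.dvd_prod_of_mem _ (Finset.mem_univ i)
  have hdd : ∀ i, dd N (xt N x) i = d i := by
    intro i
    unfold dd
    conv_rhs => rw [← Nat.prod_factorization_pow_eq_self (hd0 i)]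
    have e1 : (d i).primeFactors = N.primeFactors.filter fun q => xt N x q = i := by
      ext p
      rw [Finset.mem_filter, Nat.mem_primeFactors, Nat.mem_primeFactors]
      constructor
      · rintro ⟨hp, hpd, -⟩
        have hpm : p ∈ N.primeFactors := Nat.mem_primeFactors.2 ⟨hp, hpd.trans (hdD i), hN⟩
        exact ⟨⟨hp, hpd.trans (hdD i), hN⟩, huniq p hp _ _ (hc p hpm) hpd⟩
      · rintro ⟨⟨hp, hpD, -⟩, rfl⟩
        exact ⟨hp, hc p (Nat.mem_primeFactors.2 ⟨hp, hpD, hN⟩), hd0 _⟩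
    rw [Finsupp.prod, Nat.support_factorization, e1]
    refine prod_congr rfl fun q hq => ?_
    rw [mem_filter] at hq
    congr 1
    have hq' := hS q hq.1
    -- the factorization of the product
    have h1 : N.factorization q = ∑ j, (d j).factorization q := by
      rw [← hd, Nat.factorization_prod (fun j _ => hd0 j), Finsupp.finsetSum_apply]
    rw [h1, sum_eq_single i]
    · intro j _ hj
      refine Nat.factorization_eq_zero_of_not_dvd fun h' => hj ?_
      have h2 : q ∣ d i := by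
        rw [← hq.2]
        exact hc q hq.1
      exact huniq q hq' j i h' h2
    · intro h'
      exact absurd (mem_univ i) h'
  refine ⟨x, ?_, funext hdd⟩
  rw [kt_iff N hb]
  intro p hp hp1
  obtain ⟨k1, k2⟩ := lam_dd h (N := N) (xt N x) (hS p hp) hp1
  rw [← k2]
  rw [h.cube p _ (hS p hp) hp1 k1, hdd, hdd]
  have := hcube (xt N x p) p (hS p hp) (hc p hp)
  push_cast
  exact this

theorem dd_inj {N : ℕ} {x y : N.primeFactors → ZMod 3} (h : dd N (xt N x) = dd N (xt N y)) :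
    x = y := by
  funext p
  have h1 := dvd_dd (N := N) (xt N x) p.2
  rw [h] at h1
  have h2 := (mem_dd _ (Nat.prime_of_mem_primeFactors p.2) h1).2
  rw [xt_coe, xt_coe] at h2
  exact h2.symm

/-- the number of splittings is the order of the space of solutions -/
theorem card_splF (h : LamP) {N : ℕ} (hb : Base N) :
    Nat.card {d : ZMod 3 → ℕ // SplF N d} = 3 ^ finrank (ZMod 3) (KT N.primeFactors (fe N)) := by
  have h1 : Nat.card {d : ZMod 3 → ℕ // SplF N d} = Nat.card (KT N.primeFactors (fe N)) := by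
    refine (Nat.card_congr (Equiv.ofBijective
      (fun x : KT N.primeFactors (fe N) =>
        (⟨dd N (xt N x.1), spl_of h hb x.2⟩ : {d : ZMod 3 → ℕ // SplF N d})) ⟨?_, ?_⟩)).symm
    · intro x y hxy
      exact Subtype.ext (dd_inj (congrArg Subtype.val hxy))
    · rintro ⟨d, hd⟩
      obtain ⟨x, hx, he⟩ := of_spl h hb hd
      exact ⟨⟨x, hx⟩, Subtype.ext he⟩
  rw [h1, Module.natCard_eq_pow_finrank (K := ZMod 3), Nat.card_zmod]

/-- the two forms of the splittings -/
theorem splF_iff {N : ℕ} (hN : N ≠ 0) (d : ZMod 3 → ℕ) :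
    SplF N d ↔ Spl N (d 0) (d 1) (d 2) := by
  have hpr : ∏ c, d c = d 0 * d 1 * d 2 := Fin.prod_univ_three (fun c : Fin 3 => d c)
  unfold SplF Spl
  rw [hpr]
  refine and_congr_right fun hprod => ?_
  have hdv : ∀ i, d i ∣ N := by
    intro i
    rw [← hprod, ← hpr]
    exact Finset.dvd_prod_of_mem _ (Finset.mem_univ i)
  have hle : ∀ (i : ZMod 3) (p : ℕ), p ∣ d i → p < N + 1 := fun i p hp =>
    Nat.lt_succ_of_le (Nat.le_of_dvd (Nat.pos_of_ne_zero hN) (hp.trans (hdv i)))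
  have hcop : ∀ i j : ZMod 3, Cop N (d i) (d j) ↔ Nat.Coprime (d i) (d j) := by
    intro i j
    constructor
    · intro h
      exact Nat.coprime_of_dvd fun p hp h1 h2 => h p (hle i p h1) hp h1 h2
    · intro h p _ hp h1 h2
      have h3 : p ∣ Nat.gcd (d i) (d j) := Nat.dvd_gcd h1 h2
      rw [Nat.Coprime.gcd_eq_one h] at h3
      exact hp.one_lt.ne' (Nat.dvd_one.1 h3)
  have hcub : ∀ i : ZMod 3, Cub N (d i) (d (i + 1)) (d (i + 2)) ↔ ∀ p : ℕ, p.Prime → p ∣ d i →
      ∃ x : ℤ, (p : ℤ) ∣ (d (i + 1) : ℤ) * (d (i + 2) : ℤ) ^ 2 - x ^ 3 := by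
    intro i
    constructor
    · intro h p hp hd
      obtain ⟨x, -, hx⟩ := h p (hle i p hd) hp hd
      refine ⟨x, ?_⟩
      have h1 := (Nat.modEq_iff_dvd.1 (show Nat.ModEq p (x ^ 3) (d (i + 1) * d (i + 2) ^ 2) from
        hx.symm))
      push_cast at h1
      exact h1
    · intro h p _ hp hd
      obtain ⟨x, hx⟩ := h p hp hd
      have hp0 : (p : ℤ) ≠ 0 := by exact_mod_cast hp.ne_zero
      refine ⟨(x % p).toNat, ?_, ?_⟩
      · have h1 := Int.emod_lt_of_pos x (show (0 : ℤ) < p by exact_mod_cast hp.pos)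
        have h2 := Int.emod_nonneg x hp0
        omega
      · have h2 := Int.emod_nonneg x hp0
        have h3 : (((x % p).toNat : ℕ) : ℤ) = x % p := Int.toNat_of_nonneg h2
        have h4 : Nat.ModEq p ((x % p).toNat ^ 3) (d (i + 1) * d (i + 2) ^ 2) := by
          rw [Nat.modEq_iff_dvd]
          push_cast
          rw [h3]
          have h5 : (p : ℤ) ∣ x ^ 3 - (x % p) ^ 3 := by
            have h6 : (p : ℤ) ∣ x - x % p := Int.dvd_self_sub_emod
            exact h6.trans (sub_dvd_pow_sub_pow x (x % p) 3)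
          have h7 : (d (i + 1) : ℤ) * (d (i + 2) : ℤ) ^ 2 - (x % p) ^ 3 =
            ((d (i + 1) : ℤ) * (d (i + 2) : ℤ) ^ 2 - x ^ 3) + (x ^ 3 - (x % p) ^ 3) := by ring
          rw [h7]
          exact dvd_add hx h5
        exact h4.symm
  have e1 : (1 : ZMod 3) + 1 = 2 := by decide
  have e2 : (1 : ZMod 3) + 2 = 0 := by decide
  have e3 : (2 : ZMod 3) + 1 = 0 := by decide
  have e4 : (2 : ZMod 3) + 2 = 1 := by decide
  have c0 := hcub 0
  have c1 := hcub 1
  have c2 := hcub 2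
  rw [zero_add, zero_add] at c0
  rw [e1, e2] at c1
  rw [e3, e4] at c2
  rw [hcop, hcop, hcop, c0, c1, c2]
  have hall : ∀ P : ZMod 3 → Prop, (∀ c, P c) ↔ P 0 ∧ P 1 ∧ P 2 := by
    intro P
    constructor
    · intro h
      exact ⟨h 0, h 1, h 2⟩
    · rintro ⟨h0, h1, h2⟩ c
      have : c = 0 ∨ c = 1 ∨ c = 2 := by
        revert c; decide
      rcases this with rfl | rfl | rfl
      · exact h0
      · exact h1
      · exact h2
  refine and_congr ?_ ?_
  · constructor
    · intro h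
      exact ⟨h 0 1 (by decide), h 1 2 (by decide), h 2 0 (by decide)⟩
    · rintro ⟨h01, h12, h20⟩
      rw [hall]
      refine ⟨?_, ?_, ?_⟩ <;> rw [hall] <;> refine ⟨fun h => ?_, fun h => ?_, fun h => ?_⟩
      · exact absurd rfl h
      · exact h01
      · exact h20.symm
      · exact h01.symm
      · exact absurd rfl h
      · exact h12
      · exact h20
      · exact h12.symm
      · exact absurd rfl h
  · rw [hall]
    simp only [e1, e2, e3, e4, zero_add]

/-- the number of splittings -/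
theorem spc_eq {N : ℕ} (hN : N ≠ 0) : spc N = Nat.card {d : ZMod 3 → ℕ // SplF N d} := by
  have h1 : spc N = (((range (N + 1) ×ˢ (range (N + 1) ×ˢ range (N + 1))).filter
      fun t : ℕ × ℕ × ℕ => Spl N t.1 t.2.1 t.2.2)).card := by
    unfold spc
    rw [card_filter, sum_product]
    refine sum_congr rfl fun a _ => ?_
    rw [sum_product]
  rw [h1]
  have hb : ∀ d : ZMod 3 → ℕ, SplF N d → ∀ i, d i < N + 1 := fun d hd i => by
    refine Nat.lt_succ_of_le (Nat.le_of_dvd (Nat.pos_of_ne_zero hN) ?_)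
    rw [← hd.1]
    exact Finset.dvd_prod_of_mem _ (Finset.mem_univ i)
  obtain ⟨s, hs⟩ : ∃ s, s = ((range (N + 1) ×ˢ (range (N + 1) ×ˢ range (N + 1))).filter
      fun t : ℕ × ℕ × ℕ => Spl N t.1 t.2.1 t.2.2) := ⟨_, rfl⟩
  rw [← hs]
  have hms : ∀ t, t ∈ s ↔ (t.1 < N + 1 ∧ t.2.1 < N + 1 ∧ t.2.2 < N + 1) ∧ Spl N t.1 t.2.1 t.2.2 := by
    intro t
    rw [hs, mem_filter, mem_product, mem_product, mem_range, mem_range, mem_range]
  rw [← Fintype.card_coe s, ← Nat.card_eq_fintype_card]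
  refine Nat.card_congr
    { toFun := fun t => ⟨fun c => if c = 0 then t.1.1 else if c = 1 then t.1.2.1 else t.1.2.2, ?_⟩
      invFun := fun d => ⟨(d.1 0, d.1 1, d.1 2), ?_⟩
      left_inv := ?_
      right_inv := ?_ }
  · rw [splF_iff hN]
    have h2 := ((hms _).1 t.2).2
    have e1 : (1 : ZMod 3) ≠ 0 := by decide
    have e2 : (2 : ZMod 3) ≠ 0 := by decide
    have e3 : (2 : ZMod 3) ≠ 1 := by decide
    simp only [if_true, if_neg e1, if_neg e2, if_neg e3]
    exact h2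
  · rw [hms]
    exact ⟨⟨hb _ d.2 0, hb _ d.2 1, hb _ d.2 2⟩, (splF_iff hN _).1 d.2⟩
  · rintro ⟨⟨a, b, c⟩, ht⟩
    rfl
  · rintro ⟨d, hd⟩
    apply Subtype.ext
    funext c
    have : c = 0 ∨ c = 1 ∨ c = 2 := by
      revert c; decide
    rcases this with rfl | rfl | rfl <;> rfl

/-- **The number of splittings** is `3 ^ (r + 1)`, where `r` is the corank. -/
theorem spc_rr (h : LamP) {N : ℕ} (hC : Cls N) : spc N = 3 ^ (rr N + 1) := by
  rw [spc_eq hC.1.1, card_splF h hC.1]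
  obtain ⟨q, hq, -, hd, -⟩ := hC.2.2.2
  have hqN : q ∈ N.primeFactors := Nat.mem_primeFactors.2 ⟨hq, hd, hC.1.1⟩
  have h1 : 1 ≤ finrank (ZMod 3) (KT N.primeFactors (fe N)) :=
    Q283.Q3A.finrank_ge ⟨q, hqN, (fe_ne hC.1).2 hqN⟩
  congr 1
  unfold rr
  omega

end Q155.AL
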