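import Mathlib
import Pool.Agent.Helper446.RE
import Pool.Agent.W960.GA.Comp
import Pool.Agent.Helper566.FD.J7

/-! Computable families of integer polynomials in two variables -/

set_option autoImplicit false
set_option maxHeartbeats 200000

namespace Q155.AL

open Polynomial Pool.Agent.Helper446 Pool.Agent.W960.GA

/-- the polynomials in two variables: the exponents of the outer variable `x` and of the inner variable
`y` -/
abbrev PP : Type := Polynomial (Polynomial ℤ)

/-- the coefficients -/
noncomputable def cf2 (F : PP) (i j : ℕ) : ℤ := (F.coeff i).coeff j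

theorem cf2_ext {F G : PP} (h : ∀ i j, cf2 F i j = cf2 G i j) : F = G :=
  Polynomial.ext fun i => Polynomial.ext fun j => h i j

theorem cf2_mul (F G : PP) (i j : ℕ) : cf2 (F * G) i j =
    ∑ a ∈ Finset.range (i + 1), ∑ b ∈ Finset.range (j + 1), cf2 F a b * cf2 G (i - a) (j - b) := by
  unfold cf2
  rw [coeff_mul, Finset.Nat.sum_antidiagonal_eq_sum_range_succ_mk, finset_sum_coeff]
  refine Finset.sum_congr rfl fun a _ => ?_
  rw [coeff_mul, Finset.Nat.sum_antidiagonal_eq_sum_range_succ_mk]

/-- a computable family of polynomials, with a computable bound for the degrees -/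
structure CB {α : Type} [Primcodable α] (F : α → PP) : Prop where
  /-- the coefficients -/
  coef : Computable fun t : α × (ℕ × ℕ) => cf2 (F t.1) t.2.1 t.2.2
  /-- the bound -/
  bd : ∃ B : α → ℕ, Computable B ∧ ∀ a i j, cf2 (F a) i j ≠ 0 → i < B a ∧ j < B a

section

variable {α : Type} [Primcodable α]

theorem zadd {f g : α → ℤ} (hf : Computable f) (hg : Computable g) :
    Computable (fun x => f x + g x) :=
  Pool.Agent.Helper566.FD.J7.prim_int_add.to_comp.comp hf hg

theorem zsub {f g : α → ℤ} (hf : Computable f) (hg : Computable g) :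
    Computable (fun x => f x - g x) :=
  Pool.Agent.Helper566.FD.J7.prim_int_sub.to_comp.comp hf hg

theorem zmul {f g : α → ℤ} (hf : Computable f) (hg : Computable g) :
    Computable (fun x => f x * g x) :=
  Pool.Agent.Helper566.FD.J7.prim_int_mul.to_comp.comp hf hg

theorem nadd {f g : α → ℕ} (hf : Computable f) (hg : Computable g) :
    Computable (fun x => f x + g x) :=
  Primrec.nat_add.to_comp.comp hf hg

theorem nsub {f g : α → ℕ} (hf : Computable f) (hg : Computable g) :
    Computable (fun x => f x - g x) :=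
  Primrec.nat_sub.to_comp.comp hf hg

/-- finite sums -/
theorem csum {f : α → ℕ} {g : α → ℕ → ℤ} (hf : Computable f)
    (hg : Computable fun t : α × ℕ => g t.1 t.2) :
    Computable fun a => ∑ x ∈ Finset.range (f a), g a x := by
  have p : Computable fun t : α × (ℕ × ℤ) => (t.1, t.2.1) :=
    Computable.pair Computable.fst (Computable.fst.comp Computable.snd)
  have q : Computable fun t : α × (ℕ × ℤ) => t.2.2 := Computable.snd.comp Computable.snd
  have p' := hg.comp p
  have h : Computable₂ fun (a : α) (p : ℕ × ℤ) => p.2 + g a p.1 := zadd q p'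
  refine (Computable.nat_rec hf (Computable.const 0) h).of_eq fun a => ?_
  induction f a with
  | zero => rfl
  | succ n ih => rw [Finset.sum_range_succ, ← ih]

theorem nsum {f : α → ℕ} {g : α → ℕ → ℕ} (hf : Computable f)
    (hg : Computable fun t : α × ℕ => g t.1 t.2) :
    Computable fun a => ∑ x ∈ Finset.range (f a), g a x := by
  have p : Computable fun t : α × (ℕ × ℕ) => (t.1, t.2.1) :=
    Computable.pair Computable.fst (Computable.fst.comp Computable.snd)
  have q : Computable fun t : α × (ℕ × ℕ) => t.2.2 := Computable.snd.comp Computable.snd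
  have p' := hg.comp p
  have h : Computable₂ fun (a : α) (p : ℕ × ℕ) => p.2 + g a p.1 := nadd q p'
  refine (Computable.nat_rec hf (Computable.const 0) h).of_eq fun a => ?_
  induction f a with
  | zero => rfl
  | succ n ih => rw [Finset.sum_range_succ, ← ih]

theorem CB.comp {β : Type} [Primcodable β] {F : α → PP} (hF : CB F) {f : β → α} (hf : Computable f) :
    CB fun b => F (f b) := by
  obtain ⟨B, hB, h⟩ := hF.bd
  have p : Computable fun t : β × (ℕ × ℕ) => (f t.1, t.2) :=
    Computable.pair (hf.comp Computable.fst) Computable.snd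
  have q := hF.coef.comp p
  exact ⟨q, fun b => B (f b), hB.comp hf, fun b i j hij => h _ i j hij⟩

theorem CB.add {F G : α → PP} (hF : CB F) (hG : CB G) : CB fun a => F a + G a := by
  obtain ⟨B, hB, h⟩ := hF.bd
  obtain ⟨B', hB', h'⟩ := hG.bd
  refine ⟨(zadd hF.coef hG.coef).of_eq fun t => ?_, fun a => B a + B' a, nadd hB hB',
    fun a i j hij => ?_⟩
  · unfold cf2
    rw [coeff_add, coeff_add]
  · have h1 : cf2 (F a) i j ≠ 0 ∨ cf2 (G a) i j ≠ 0 := by
      by_contra hc
      push Not at hc
      apply hij
      have e : cf2 (F a + G a) i j = cf2 (F a) i j + cf2 (G a) i j := by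
        unfold cf2
        rw [coeff_add, coeff_add]
      rw [e, hc.1, hc.2, add_zero]
    show i < B a + B' a ∧ j < B a + B' a
    rcases h1 with h1 | h1
    · have := h a i j h1
      omega
    · have := h' a i j h1
      omega

theorem CB.sub {F G : α → PP} (hF : CB F) (hG : CB G) : CB fun a => F a - G a := by
  obtain ⟨B, hB, h⟩ := hF.bd
  obtain ⟨B', hB', h'⟩ := hG.bd
  refine ⟨(zsub hF.coef hG.coef).of_eq fun t => ?_, fun a => B a + B' a, nadd hB hB',
    fun a i j hij => ?_⟩
  · unfold cf2
    rw [coeff_sub, coeff_sub]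
  · have h1 : cf2 (F a) i j ≠ 0 ∨ cf2 (G a) i j ≠ 0 := by
      by_contra hc
      push Not at hc
      apply hij
      have e : cf2 (F a - G a) i j = cf2 (F a) i j - cf2 (G a) i j := by
        unfold cf2
        rw [coeff_sub, coeff_sub]
      rw [e, hc.1, hc.2, sub_zero]
    show i < B a + B' a ∧ j < B a + B' a
    rcases h1 with h1 | h1
    · have := h a i j h1
      omega
    · have := h' a i j h1
      omega

theorem CB.mul {F G : α → PP} (hF : CB F) (hG : CB G) : CB fun a => F a * G a := by
  obtain ⟨B, hB, h⟩ := hF.bd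
  obtain ⟨B', hB', h'⟩ := hG.bd
  refine ⟨?_, fun a => B a + B' a, nadd hB hB', fun a i j hij => ?_⟩
  · have h1 : Computable fun t : ((α × (ℕ × ℕ)) × ℕ) × ℕ =>
        cf2 (F t.1.1.1) t.1.2 t.2 * cf2 (G t.1.1.1) (t.1.1.2.1 - t.1.2) (t.1.1.2.2 - t.2) := by
      have p1 : Computable fun t : ((α × (ℕ × ℕ)) × ℕ) × ℕ => t.1.1 :=
        Computable.fst.comp Computable.fst
      have p2 : Computable fun t : ((α × (ℕ × ℕ)) × ℕ) × ℕ => t.1.2 :=
        Computable.snd.comp Computable.fst
      have p3 : Computable fun t : ((α × (ℕ × ℕ)) × ℕ) × ℕ => t.1.1.1 := Computable.fst.comp p1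
      have p4 : Computable fun t : ((α × (ℕ × ℕ)) × ℕ) × ℕ => t.1.1.2.1 :=
        Computable.fst.comp (Computable.snd.comp p1)
      have p5 : Computable fun t : ((α × (ℕ × ℕ)) × ℕ) × ℕ => t.1.1.2.2 :=
        Computable.snd.comp (Computable.snd.comp p1)
      have p6 : Computable fun t : ((α × (ℕ × ℕ)) × ℕ) × ℕ => t.2 := Computable.snd
      have p7 : Computable fun t : ((α × (ℕ × ℕ)) × ℕ) × ℕ => (t.1.1.1, (t.1.2, t.2)) :=
        Computable.pair p3 (Computable.pair p2 p6)
      have p8 : Computable fun t : ((α × (ℕ × ℕ)) × ℕ) × ℕ =>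
          (t.1.1.1, (t.1.1.2.1 - t.1.2, t.1.1.2.2 - t.2)) :=
        Computable.pair p3 (Computable.pair (nsub p4 p2) (nsub p5 p6))
      have q1 := hF.coef.comp p7
      have q2 := hG.coef.comp p8
      exact zmul q1 q2
    have r1 : Computable fun t : (α × (ℕ × ℕ)) × ℕ => t.1.2.2 + 1 :=
      Computable.succ.comp (Computable.snd.comp (Computable.snd.comp Computable.fst))
    have h2 : Computable fun t : (α × (ℕ × ℕ)) × ℕ => ∑ b ∈ Finset.range (t.1.2.2 + 1),
        cf2 (F t.1.1) t.2 b * cf2 (G t.1.1) (t.1.2.1 - t.2) (t.1.2.2 - b) :=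
      csum (g := fun (t : (α × (ℕ × ℕ)) × ℕ) (b : ℕ) =>
        cf2 (F t.1.1) t.2 b * cf2 (G t.1.1) (t.1.2.1 - t.2) (t.1.2.2 - b)) r1 h1
    have r2 : Computable fun t : α × (ℕ × ℕ) => t.2.1 + 1 :=
      Computable.succ.comp (Computable.fst.comp Computable.snd)
    have h3 : Computable fun t : α × (ℕ × ℕ) => ∑ a ∈ Finset.range (t.2.1 + 1),
        ∑ b ∈ Finset.range (t.2.2 + 1), cf2 (F t.1) a b * cf2 (G t.1) (t.2.1 - a) (t.2.2 - b) :=
      csum (g := fun (t : α × (ℕ × ℕ)) (a : ℕ) => ∑ b ∈ Finset.range (t.2.2 + 1),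
        cf2 (F t.1) a b * cf2 (G t.1) (t.2.1 - a) (t.2.2 - b)) r2 h2
    exact h3.of_eq fun t => (cf2_mul _ _ _ _).symm
  · rw [cf2_mul] at hij
    obtain ⟨c, hc, hne⟩ := Finset.exists_ne_zero_of_sum_ne_zero hij
    obtain ⟨b, hb, hne⟩ := Finset.exists_ne_zero_of_sum_ne_zero hne
    have h1 := h a c b (left_ne_zero_of_mul hne)
    have h2 := h' a _ _ (right_ne_zero_of_mul hne)
    rw [Finset.mem_range] at hc hb
    show i < B a + B' a ∧ j < B a + B' a
    omega

theorem cf2_const (n : ℤ) (i j : ℕ) : cf2 (C (C n)) i j = if i = 0 ∧ j = 0 then n else 0 := by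
  unfold cf2
  rw [coeff_C]
  by_cases hi : i = 0
  · rw [if_pos hi, coeff_C]
    by_cases hj : j = 0
    · rw [if_pos hj, if_pos ⟨hi, hj⟩]
    · rw [if_neg hj, if_neg fun h => hj h.2]
  · rw [if_neg hi, coeff_zero, if_neg fun h => hi h.1]

theorem CB.const {f : α → ℤ} (hf : Computable f) : CB fun a => (C (C (f a)) : PP) := by
  refine ⟨?_, fun _ => 1, Computable.const 1, fun a i j hij => ?_⟩
  · have h1 : ComputablePred fun t : α × (ℕ × ℕ) => t.2 = (0, 0) :=
      RE.cp_eq Computable.snd (Computable.const (0, 0))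
    obtain ⟨hd, h2⟩ := h1
    have h3 : Computable fun t : α × (ℕ × ℕ) => bif decide (t.2 = (0, 0)) then f t.1 else 0 :=
      Computable.cond h2 (hf.comp Computable.fst) (Computable.const 0)
    refine h3.of_eq fun t => ?_
    obtain ⟨a, i, j⟩ := t
    rw [cf2_const]
    by_cases h : i = 0 ∧ j = 0
    · rw [if_pos h, h.1, h.2]
      simp
    · rw [if_neg h]
      have h' : ((i, j) : ℕ × ℕ) ≠ (0, 0) := fun e => h ⟨congrArg Prod.fst e, congrArg Prod.snd e⟩
      have h4 : @decide _ (hd (a, (i, j))) = false := decide_eq_false h'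
      show (bif @decide _ (hd (a, (i, j))) then f a else 0) = 0
      rw [h4]
      rfl
  · rw [cf2_const] at hij
    by_cases h : i = 0 ∧ j = 0
    · exact ⟨by rw [h.1]; exact Nat.one_pos, by rw [h.2]; exact Nat.one_pos⟩
    · rw [if_neg h] at hij
      exact absurd rfl hij

/-- equality of polynomials is decidable -/
theorem CB.eq {F G : α → PP} (hF : CB F) (hG : CB G) : ComputablePred fun a => F a = G a := by
  obtain ⟨B, hB, h⟩ := hF.bd
  obtain ⟨B', hB', h'⟩ := hG.bd
  have h1 : ComputablePred fun t : (α × ℕ) × ℕ =>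
      cf2 (F t.1.1) t.1.2 t.2 = cf2 (G t.1.1) t.1.2 t.2 := by
    have p : Computable fun t : (α × ℕ) × ℕ => (t.1.1, (t.1.2, t.2)) :=
      Computable.pair (Computable.fst.comp Computable.fst)
        (Computable.pair (Computable.snd.comp Computable.fst) Computable.snd)
    have q1 := hF.coef.comp p
    have q2 := hG.coef.comp p
    exact RE.cp_eq q1 q2
  have h2 : ComputablePred fun t : α × ℕ => ∀ j < B t.1 + B' t.1,
      cf2 (F t.1) t.2 j = cf2 (G t.1) t.2 j :=
    cp_all_lt (α := α × ℕ) (p := fun t j => cf2 (F t.1) t.2 j = cf2 (G t.1) t.2 j) h1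
      (nadd (hB.comp Computable.fst) (hB'.comp Computable.fst))
  have h3 : ComputablePred fun a => ∀ i < B a + B' a, ∀ j < B a + B' a,
      cf2 (F a) i j = cf2 (G a) i j :=
    cp_all_lt (p := fun a i => ∀ j < B a + B' a, cf2 (F a) i j = cf2 (G a) i j) h2 (nadd hB hB')
  refine cp_of_iff h3 fun a => ⟨fun e i _ j _ => by rw [e], fun e => cf2_ext fun i j => ?_⟩
  by_contra hne
  have h4 : cf2 (F a) i j ≠ 0 ∨ cf2 (G a) i j ≠ 0 := by
    by_contra hc
    push Not at hc
    exact hne (hc.1.trans hc.2.symm)
  have h5 : i < B a + B' a ∧ j < B a + B' a := by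
    rcases h4 with h4 | h4
    · have := h a i j h4
      omega
    · have := h' a i j h4
      omega
  exact hne (e i h5.1 j h5.2)

end

/-- the polynomial given by a list of lists of coefficients -/
noncomputable def toP (L : List (List ℤ)) : PP :=
  ∑ i ∈ Finset.range L.length, ∑ j ∈ Finset.range (L.getD i []).length,
    C (C ((L.getD i []).getD j 0)) * X ^ i * C X ^ j

theorem cf2_toP (L : List (List ℤ)) (i j : ℕ) : cf2 (toP L) i j = (L.getD i []).getD j 0 := by
  unfold cf2 toP
  rw [finset_sum_coeff]
  have h1 : ∀ k, (∑ l ∈ Finset.range (L.getD k []).length,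
      C (C ((L.getD k []).getD l 0)) * X ^ k * (C X : PP) ^ l).coeff i =
      if k = i then ∑ l ∈ Finset.range (L.getD k []).length,
        C ((L.getD k []).getD l 0) * X ^ l else 0 := by
    intro k
    rw [finset_sum_coeff]
    split_ifs with hk
    · refine Finset.sum_congr rfl fun l _ => ?_
      rw [← C_pow, coeff_mul_C, coeff_C_mul, hk, coeff_X_pow_self, mul_one]
    · refine Finset.sum_eq_zero fun l _ => ?_
      rw [← C_pow, coeff_mul_C, coeff_C_mul, coeff_X_pow, if_neg (Ne.symm hk), mul_zero, zero_mul]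
  rw [Finset.sum_congr rfl fun k _ => h1 k]
  rw [Finset.sum_ite_eq' (Finset.range L.length) i]
  split_ifs with hi
  · rw [finset_sum_coeff]
    have h2 : ∀ l, (C ((L.getD i []).getD l 0) * X ^ l : ℤ[X]).coeff j =
        if l = j then (L.getD i []).getD l 0 else 0 := by
      intro l
      rw [coeff_C_mul, coeff_X_pow]
      split_ifs with h1 h2 h2
      · rw [mul_one]
      · exact absurd h1.symm h2
      · exact absurd h2.symm h1
      · rw [mul_zero]
    rw [Finset.sum_congr rfl fun l _ => h2 l, Finset.sum_ite_eq']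
    split_ifs with hj
    · rfl
    · rw [Finset.mem_range, not_lt] at hj
      exact (List.getD_eq_default _ _ hj).symm
  · rw [Finset.mem_range, not_lt] at hi
    rw [List.getD_eq_default _ _ hi]
    simp

theorem toP_cb {α : Type} [Primcodable α] {f : α → List (List ℤ)} (hf : Computable f) :
    CB fun a => toP (f a) := by
  have hg : Computable fun t : (List (List ℤ)) × ℕ => t.1.getD t.2 [] :=
    (Primrec.list_getD (α := List ℤ) []).to_comp
  have hg' : Computable fun t : (List ℤ) × ℕ => t.1.getD t.2 0 :=
    (Primrec.list_getD (α := ℤ) 0).to_comp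
  have hlen : Computable fun l : List (List ℤ) => l.length := Primrec.list_length.to_comp
  have hlen' : Computable fun l : List ℤ => l.length := Primrec.list_length.to_comp
  have base : CB fun L : List (List ℤ) => toP L := by
    refine ⟨?_, fun L => L.length + ∑ i ∈ Finset.range L.length, (L.getD i []).length, ?_,
      fun L i j hij => ?_⟩
    · have p1 : Computable fun t : (List (List ℤ)) × (ℕ × ℕ) => (t.1, t.2.1) :=
        Computable.pair Computable.fst (Computable.fst.comp Computable.snd)
      have p2 := hg.comp p1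
      have p3 : Computable fun t : (List (List ℤ)) × (ℕ × ℕ) => t.2.2 :=
        Computable.snd.comp Computable.snd
      have p4 : Computable fun t : (List (List ℤ)) × (ℕ × ℕ) => (t.1.getD t.2.1 [], t.2.2) :=
        Computable.pair p2 p3
      have h := hg'.comp p4
      exact h.of_eq fun t => (cf2_toP _ _ _).symm
    · exact nadd hlen (nsum hlen (hlen'.comp hg))
    · rw [cf2_toP] at hij
      have h1 : i < L.length := by
        by_contra h
        rw [List.getD_eq_default _ _ (not_lt.1 h)] at hij
        simp at hij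
      have h2 : j < (L.getD i []).length := by
        by_contra h
        rw [List.getD_eq_default _ _ (not_lt.1 h)] at hij
        exact hij rfl
      have h3 : (L.getD i []).length ≤ ∑ i ∈ Finset.range L.length, (L.getD i []).length :=
        Finset.single_le_sum (f := fun i => (L.getD i []).length) (fun _ _ => Nat.zero_le _)
          (Finset.mem_range.2 h1)
      exact ⟨h1.trans_le (Nat.le_add_right _ _), h2.trans_le (h3.trans (Nat.le_add_left _ _))⟩
  exact base.comp hf

/-- every polynomial is given by a list -/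
theorem toP_surj (F : PP) : ∃ L, toP L = F := by
  refine ⟨(List.range (F.natDegree + 1)).map fun i =>
    (List.range ((F.coeff i).natDegree + 1)).map fun j => (F.coeff i).coeff j, cf2_ext fun i j => ?_⟩
  rw [cf2_toP]
  unfold cf2
  by_cases hi : i < F.natDegree + 1
  · have h1 : ((List.range (F.natDegree + 1)).map fun i =>
        (List.range ((F.coeff i).natDegree + 1)).map fun j => (F.coeff i).coeff j).getD i [] =
        (List.range ((F.coeff i).natDegree + 1)).map fun j => (F.coeff i).coeff j := by
      rw [List.getD_eq_getElem _ _ (by simpa using hi)]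
      simp
    rw [h1]
    by_cases hj : j < (F.coeff i).natDegree + 1
    · rw [List.getD_eq_getElem _ _ (by simpa using hj)]
      simp
    · rw [List.getD_eq_default _ _ (by simpa using hj)]
      exact (coeff_eq_zero_of_natDegree_lt (by omega)).symm
  · have h1 : ((List.range (F.natDegree + 1)).map fun i =>
        (List.range ((F.coeff i).natDegree + 1)).map fun j => (F.coeff i).coeff j).getD i [] = [] :=
      List.getD_eq_default _ _ (by simpa using hi)
    rw [h1, coeff_eq_zero_of_natDegree_lt (by omega : F.natDegree < i)]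
    simp

end Q155.AL
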