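import Pool.Agent.Q155.AL.Alg
import Pool.Agent.Q283.ND.Fn
import Pool.Agent.Q155.AL.Poly
import Pool.Agent.Q155.AL.Bez

/-! The algorithm for plane curves with a map to a cubic twist -/

set_option autoImplicit false
set_option maxHeartbeats 400000

open scoped Classical

namespace Q155.AL

open Polynomial Pool.Agent.Helper446 Pool.Agent.W960.GA

/-- the zeros in the rational plane -/
def Zer (L : List (List ℤ)) : Set (ℚ × ℚ) := {p : ℚ × ℚ |
  ∑ i ∈ Finset.range L.length, ∑ j ∈ Finset.range (L.getD i []).length,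
    (((L.getD i []).getD j 0 : ℤ) : ℚ) * p.1 ^ i * p.2 ^ j = 0}

/-- the values -/
noncomputable def evR (x y : ℚ) : PP →+* ℚ := eval₂RingHom (eval₂RingHom (Int.castRingHom ℚ) y) x

theorem evR_C (x y : ℚ) (w : ℤ[X]) : evR x y (C w) = eval₂ (Int.castRingHom ℚ) y w := by
  unfold evR
  rw [coe_eval₂RingHom, eval₂_C, coe_eval₂RingHom]

theorem evR_X (x y : ℚ) : evR x y X = x := by
  unfold evR
  rw [coe_eval₂RingHom, eval₂_X]

theorem evR_CX (x y : ℚ) : evR x y (C X) = y := by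
  rw [evR_C, eval₂_X]

theorem evR_CC (x y : ℚ) (n : ℤ) : evR x y (C (C n)) = n := by
  rw [evR_C, eval₂_C]
  rfl

theorem evR_map (x y : ℚ) (w : ℤ[X]) : evR x y (w.map C) = eval₂ (Int.castRingHom ℚ) x w := by
  unfold evR
  rw [coe_eval₂RingHom, eval₂_map]
  congr 1
  ext n
  simp

theorem evR_toP (x y : ℚ) (L : List (List ℤ)) : evR x y (toP L) =
    ∑ i ∈ Finset.range L.length, ∑ j ∈ Finset.range (L.getD i []).length,
    (((L.getD i []).getD j 0 : ℤ) : ℚ) * x ^ i * y ^ j := by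
  unfold toP
  rw [map_sum]
  refine Finset.sum_congr rfl fun i _ => ?_
  rw [map_sum]
  refine Finset.sum_congr rfl fun j _ => ?_
  rw [map_mul, map_mul, map_pow, map_pow, evR_CC, evR_X, evR_CX]

theorem mem_Zer (L : List (List ℤ)) (p : ℚ × ℚ) : p ∈ Zer L ↔ evR p.1 p.2 (toP L) = 0 := by
  rw [evR_toP]
  rfl

/-- the points of the solved curves -/
theorem gens_pts {A : ℤ} (hA : A ≠ 0) (h : gens A ≠ none) {P : ℚ × ℚ} (hP : P ∈ pts A) :
    P.1 * P.2 * (P.1 - P.2) = 0 := by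
  obtain ⟨L, hL⟩ := Option.ne_none_iff_exists'.1 h
  have h1 := (gens_spec hA hL).1
  rw [← h1] at hP
  obtain ⟨Q, hQ, rfl⟩ := hP
  rw [Set.mem_setOf_eq] at hQ
  unfold gens at hL
  unfold toQ
  split_ifs at hL with g1 g2 g3
  · rw [Option.some.injEq] at hL
    rw [← hL, List.mem_cons, List.mem_singleton] at hQ
    rcases hQ with rfl | rfl
    · simp
    · simp
  · rw [Option.some.injEq] at hL
    rw [← hL, List.mem_singleton] at hQ
    rw [hQ]
    simp
  · rw [Option.some.injEq] at hL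
    rw [← hL] at hQ
    simp at hQ

/-- the polynomial of a list -/
noncomputable def w1 (l : List ℤ) : ℤ[X] := ∑ j ∈ Finset.range l.length, C (l.getD j 0) * X ^ j

theorem w1_surj (w : ℤ[X]) : ∃ l, w1 l = w := by
  refine ⟨(List.range (w.natDegree + 1)).map w.coeff, ?_⟩
  unfold w1
  rw [List.length_map, List.length_range]
  conv_rhs => rw [as_sum_range_C_mul_X_pow w]
  refine Finset.sum_congr rfl fun j hj => ?_
  rw [Finset.mem_range] at hj
  rw [List.getD_eq_getElem _ _ (by simpa using hj)]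
  simp

/-- the polynomials in `y` -/
def rowY (M : List (List ℤ)) : List (List ℤ) := [M.getD 0 []]

/-- the polynomials in `x` -/
def rowX (M : List (List ℤ)) : List (List ℤ) := (M.getD 0 []).map fun a => [a]

theorem toP_rowY (M : List (List ℤ)) : toP (rowY M) = C (w1 (M.getD 0 [])) := by
  unfold toP rowY w1
  simp

theorem toP_rowX (M : List (List ℤ)) : toP (rowX M) = (w1 (M.getD 0 [])).map C := by
  unfold toP rowX w1
  rw [Polynomial.map_sum, List.length_map]
  refine Finset.sum_congr rfl fun i hi => ?_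
  rw [Finset.mem_range] at hi
  have h1 : ((M.getD 0 []).map fun a => [a]).getD i [] = [(M.getD 0 []).getD i 0] := by
    rw [List.getD_eq_getElem _ _ (by simpa using hi), List.getD_eq_getElem _ _ hi]
    simp
  rw [h1]
  simp

theorem fin_roots {w : ℤ[X]} (hw : w ≠ 0) : {x : ℚ | eval₂ (Int.castRingHom ℚ) x w = 0}.Finite := by
  have h1 : w.map (Int.castRingHom ℚ) ≠ 0 := by
    rwa [Ne, Polynomial.map_eq_zero_iff (RingHom.injective_int _)]
  refine (Polynomial.finite_setOf_isRoot h1).subset fun x hx => ?_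
  show (w.map (Int.castRingHom ℚ)).IsRoot x
  rw [IsRoot, eval_map]
  exact hx

/-- the polynomial number `k` of a certificate -/
noncomputable def pk (c : ℤ × List (List (List ℤ))) (k : ℕ) : PP := toP (c.2.getD k [])

/-- the product which has to be prime to the polynomial -/
noncomputable def tk (c : ℤ × List (List (List ℤ))) : PP :=
  pk c 0 * pk c 1 * pk c 2 * (pk c 0 - pk c 1)

/-- the certificates for finitely many zeros -/
def NC (L : List (List ℤ)) (c : ℤ × List (List (List ℤ))) : Prop :=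
  (¬ c.1 = 0 ∧ ¬ gens c.1 = none) ∧
  pk c 0 * pk c 0 * pk c 0 + pk c 1 * pk c 1 * pk c 1 =
    C (C c.1) * (pk c 2 * pk c 2 * pk c 2) + toP L * pk c 3 ∧
  (pk c 4 * toP L + pk c 5 * tk c = toP (rowY (c.2.getD 6 [])) ∧
    ¬ toP (rowY (c.2.getD 6 [])) = C (C 0)) ∧
  (pk c 7 * toP L + pk c 8 * tk c = toP (rowX (c.2.getD 9 [])) ∧
    ¬ toP (rowX (c.2.getD 9 [])) = C (C 0))

/-- **Soundness.** -/
theorem nc_sound {L : List (List ℤ)} {c : ℤ × List (List (List ℤ))} (h : NC L c) :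
    (Zer L).Finite := by
  obtain ⟨⟨hA, hg⟩, h1, ⟨h2, h3⟩, h4, h5⟩ := h
  rw [toP_rowY] at h2 h3
  rw [toP_rowX] at h4 h5
  obtain ⟨w, hw⟩ : ∃ w, w = w1 ((c.2.getD 6 []).getD 0 []) := ⟨_, rfl⟩
  obtain ⟨v, hv⟩ : ∃ v, v = w1 ((c.2.getD 9 []).getD 0 []) := ⟨_, rfl⟩
  rw [← hw] at h2 h3
  rw [← hv] at h4 h5
  have hw0 : w ≠ 0 := by
    rintro rfl
    exact h3 (by simp)
  have hv0 : v ≠ 0 := by
    rintro rfl
    exact h5 (by simp)
  refine ((fin_roots hv0).prod (fin_roots hw0)).subset fun p hp => ?_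
  rw [mem_Zer] at hp
  have hT : evR p.1 p.2 (tk c) = 0 := by
    unfold tk
    rw [map_mul, map_mul, map_mul, map_sub]
    by_cases hr : evR p.1 p.2 (pk c 2) = 0
    · rw [hr, mul_zero, zero_mul]
    · have h6 := congrArg (evR p.1 p.2) h1
      simp only [map_add, map_mul] at h6
      rw [hp, zero_mul, add_zero, evR_CC] at h6
      have h7 : (evR p.1 p.2 (pk c 0) / evR p.1 p.2 (pk c 2),
          evR p.1 p.2 (pk c 1) / evR p.1 p.2 (pk c 2)) ∈ pts c.1 := by
        show (evR p.1 p.2 (pk c 0) / evR p.1 p.2 (pk c 2)) ^ 3 +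
          (evR p.1 p.2 (pk c 1) / evR p.1 p.2 (pk c 2)) ^ 3 = (c.1 : ℚ)
        rw [div_pow, div_pow, ← add_div, div_eq_iff (pow_ne_zero 3 hr)]
        linear_combination h6
      have h8 := gens_pts hA hg h7
      simp only at h8
      have h9 : evR p.1 p.2 (pk c 0) * evR p.1 p.2 (pk c 1) *
          (evR p.1 p.2 (pk c 0) - evR p.1 p.2 (pk c 1)) = 0 := by
        have e : evR p.1 p.2 (pk c 0) * evR p.1 p.2 (pk c 1) *
          (evR p.1 p.2 (pk c 0) - evR p.1 p.2 (pk c 1)) =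
          (evR p.1 p.2 (pk c 0) / evR p.1 p.2 (pk c 2) *
            (evR p.1 p.2 (pk c 1) / evR p.1 p.2 (pk c 2)) *
            (evR p.1 p.2 (pk c 0) / evR p.1 p.2 (pk c 2) -
              evR p.1 p.2 (pk c 1) / evR p.1 p.2 (pk c 2))) * evR p.1 p.2 (pk c 2) ^ 3 := by
          field_simp
        rw [e, h8, zero_mul]
      linear_combination (evR p.1 p.2 (pk c 2)) * h9
  have k1 := congrArg (evR p.1 p.2) h2
  have k2 := congrArg (evR p.1 p.2) h4
  rw [map_add, map_mul, map_mul, hp, hT, mul_zero, mul_zero, add_zero, evR_C] at k1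
  rw [map_add, map_mul, map_mul, hp, hT, mul_zero, mul_zero, add_zero, evR_map] at k2
  exact ⟨k2.symm, k1.symm⟩

/-- a rational map to the cubic, not to its points with `X Y Z (X - Y) = 0` -/
def Mp (F : PP) (A : ℤ) : Prop := ∃ P Q R : PP, F ∣ P ^ 3 + Q ^ 3 - C (C A) * R ^ 3 ∧
  ∀ D : PP, D ∣ F → D ∣ P * Q * R * (P - Q) → ∃ n : ℤ, D = C (C n)

/-- **Completeness.** -/
theorem nc_complete {L : List (List ℤ)} {A : ℤ} (hA : A ≠ 0) (hg : gens A ≠ none)
    (h : Mp (toP L) A) : ∃ c, NC L c := by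
  obtain ⟨P, Q, R, ⟨G, hG⟩, hc⟩ := h
  obtain ⟨⟨U, V, w, hw, h1⟩, U', V', v, hv, h2⟩ := bez2 hc
  obtain ⟨l0, e0⟩ := toP_surj P
  obtain ⟨l1, e1⟩ := toP_surj Q
  obtain ⟨l2, e2⟩ := toP_surj R
  obtain ⟨l3, e3⟩ := toP_surj G
  obtain ⟨l4, e4⟩ := toP_surj U
  obtain ⟨l5, e5⟩ := toP_surj V
  obtain ⟨l6, e6⟩ := w1_surj w
  obtain ⟨l7, e7⟩ := toP_surj U'
  obtain ⟨l8, e8⟩ := toP_surj V'
  obtain ⟨l9, e9⟩ := w1_surj v
  refine ⟨(A, [l0, l1, l2, l3, l4, l5, [l6], l7, l8, [l9]]), ⟨hA, hg⟩, ?_⟩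
  obtain ⟨c, hcc⟩ : ∃ c, c = (A, [l0, l1, l2, l3, l4, l5, [l6], l7, l8, [l9]]) := ⟨_, rfl⟩
  rw [← hcc]
  have p0 : pk c 0 = P := by rw [hcc]; exact e0
  have p1 : pk c 1 = Q := by rw [hcc]; exact e1
  have p2 : pk c 2 = R := by rw [hcc]; exact e2
  have p3 : pk c 3 = G := by rw [hcc]; exact e3
  have p4 : pk c 4 = U := by rw [hcc]; exact e4
  have p5 : pk c 5 = V := by rw [hcc]; exact e5
  have p7 : pk c 7 = U' := by rw [hcc]; exact e7
  have p8 : pk c 8 = V' := by rw [hcc]; exact e8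
  have q6 : toP (rowY (c.2.getD 6 [])) = C w := by
    rw [toP_rowY, hcc]
    exact congrArg C e6
  have q9 : toP (rowX (c.2.getD 9 [])) = v.map C := by
    rw [toP_rowX, hcc]
    exact congrArg (Polynomial.map C) e9
  have qc : c.1 = A := by rw [hcc]
  have qt : tk c = P * Q * R * (P - Q) := by
    unfold tk
    rw [p0, p1, p2]
  rw [p0, p1, p2, p3, p4, p5, p7, p8, q6, q9, qc, qt]
  refine ⟨by linear_combination hG, ⟨h1, ?_⟩, h2, ?_⟩
  · rw [C_0, C_0]
    exact C_ne_zero.2 hw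
  · rw [C_0, C_0]
    rwa [Polynomial.map_eq_zero_iff C_injective]

/-- the certificates can be checked -/
theorem nc_cp : ComputablePred fun t : (List (List ℤ)) × (ℤ × List (List (List ℤ))) => NC t.1 t.2 := by
  have hL : Computable fun t : (List (List ℤ)) × (ℤ × List (List (List ℤ))) => t.1 :=
    Computable.fst
  have hA : Computable fun t : (List (List ℤ)) × (ℤ × List (List (List ℤ))) => t.2.1 :=
    Computable.fst.comp Computable.snd
  have hc : Computable fun t : (List (List ℤ)) × (ℤ × List (List (List ℤ))) => t.2.2 :=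
    Computable.snd.comp Computable.snd
  have hg : Computable fun t : (List (List (List ℤ))) × ℕ => t.1.getD t.2 [] :=
    (Primrec.list_getD (α := List (List ℤ)) []).to_comp
  have hk : ∀ k : ℕ, Computable fun t : (List (List ℤ)) × (ℤ × List (List (List ℤ))) =>
      t.2.2.getD k [] := by
    intro k
    have p : Computable fun t : (List (List ℤ)) × (ℤ × List (List (List ℤ))) => (t.2.2, k) :=
      Computable.pair hc (Computable.const k)
    exact hg.comp p
  have hpk : ∀ k : ℕ, CB fun t : (List (List ℤ)) × (ℤ × List (List (List ℤ))) => pk t.2 k :=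
    fun k => toP_cb (hk k)
  have htk : CB fun t : (List (List ℤ)) × (ℤ × List (List (List ℤ))) => tk t.2 :=
    (((hpk 0).mul (hpk 1)).mul (hpk 2)).mul ((hpk 0).sub (hpk 1))
  have hrow : Computable fun M : List (List ℤ) => M.getD 0 [] := by
    have h0 : Computable fun t : (List (List ℤ)) × ℕ => t.1.getD t.2 [] :=
      (Primrec.list_getD (α := List ℤ) []).to_comp
    have p : Computable fun M : List (List ℤ) => (M, 0) :=
      Computable.pair Computable.id (Computable.const 0)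
    exact h0.comp p
  have hY : Computable rowY := by
    have h0 : Computable fun t : (List ℤ) × (List (List ℤ)) => t.1 :: t.2 :=
      (Primrec.list_cons (α := List ℤ)).to_comp
    have p : Computable fun M : List (List ℤ) => (M.getD 0 [], ([] : List (List ℤ))) :=
      Computable.pair hrow (Computable.const [])
    exact h0.comp p
  have hX : Computable rowX := by
    have h0 : Primrec fun l : List ℤ => l.map fun a => [a] := by
      refine Primrec.list_map Primrec.id ?_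
      have h1 : Primrec fun t : (List ℤ) × ℤ => [t.2] :=
        Primrec.list_cons.comp Primrec.snd (Primrec.const [])
      exact h1.to₂
    exact h0.to_comp.comp hrow
  have hF : CB fun t : (List (List ℤ)) × (ℤ × List (List (List ℤ))) => toP t.1 := toP_cb hL
  have h6 : CB fun t : (List (List ℤ)) × (ℤ × List (List (List ℤ))) =>
      toP (rowY (t.2.2.getD 6 [])) := toP_cb (hY.comp (hk 6))
  have h9 : CB fun t : (List (List ℤ)) × (ℤ × List (List (List ℤ))) =>
      toP (rowX (t.2.2.getD 9 [])) := toP_cb (hX.comp (hk 9))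
  have hz : CB fun _ : (List (List ℤ)) × (ℤ × List (List (List ℤ))) => (C (C 0) : PP) :=
    CB.const (f := fun _ => 0) (Computable.const 0)
  have hcA : CB fun t : (List (List ℤ)) × (ℤ × List (List (List ℤ))) => (C (C t.2.1) : PP) :=
    CB.const (f := fun t : (List (List ℤ)) × (ℤ × List (List (List ℤ))) => t.2.1) hA
  have hgens : Computable fun t : (List (List ℤ)) × (ℤ × List (List (List ℤ))) => gens t.2.1 :=
    gensP.to_comp.comp hA
  refine cp_and (cp_and (cp_not (RE.cp_eq hA (Computable.const 0)))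
    (cp_not (RE.cp_eq hgens (Computable.const none)))) (cp_and ?_ (cp_and (cp_and ?_ (cp_not ?_))
      (cp_and ?_ (cp_not ?_))))
  · exact CB.eq ((((hpk 0).mul (hpk 0)).mul (hpk 0)).add (((hpk 1).mul (hpk 1)).mul (hpk 1)))
      ((hcA.mul (((hpk 2).mul (hpk 2)).mul (hpk 2))).add (hF.mul (hpk 3)))
  · exact CB.eq (((hpk 4).mul hF).add ((hpk 5).mul htk)) h6
  · exact CB.eq h6 hz
  · exact CB.eq (((hpk 7).mul hF).add ((hpk 8).mul htk)) h9
  · exact CB.eq h9 hz

theorem nc_re : REPred fun L => ∃ c, NC L c := RE.ex (p := NC) nc_cp.to_re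

/-! ### The positive answers -/

/-- the polynomial `x³ + y³ - A` -/
def cubL (A : ℤ) : List (List ℤ) := [[-A, 0, 0, 1], [], [], [1]]

theorem zer_cubL (A : ℤ) : Zer (cubL A) = pts A := by
  ext p
  unfold Zer cubL pts
  simp only [Set.mem_setOf_eq, List.length_cons, List.length_nil, Finset.sum_range_succ,
    Finset.sum_range_zero, List.getD_cons_zero, List.getD_cons_succ]
  push_cast
  constructor
  · intro h
    linear_combination h
  · intro h
    linear_combination h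

/-- infinitely many points -/
theorem pts_inf {A : ℤ} (hA : A ≠ 0) {P : ℚ × ℚ} (hP : P ∈ pts A) (h1 : P.1 ≠ P.2) (h2 : P.1 ≠ 0)
    (h3 : P.2 ≠ 0) : (pts A).Infinite := by
  intro hfin
  have hA' : A.natAbs ≠ 0 := Int.natAbs_ne_zero.2 hA
  obtain ⟨b, hb⟩ : ∃ b : ℕ, Q283.ND.cf A.natAbs * b ^ 3 = A.natAbs :=
    ⟨_, (Q283.ND.cf_mul hA').symm⟩
  obtain ⟨N, hN⟩ : ∃ N, N = Q283.ND.cf A.natAbs := ⟨_, rfl⟩
  have hcf : ∀ p : ℕ, p.Prime → ¬ p ^ 3 ∣ N := by rw [hN]; exact Q283.ND.cf_free _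
  rw [← hN] at hb
  have hs := sg_cube hb
  have hN0 : N ≠ 0 := by
    rintro rfl
    exact hA' (by rw [← hb, zero_mul])
  have hc0 : sg A b ≠ 0 := by
    intro h0
    rw [h0] at hs
    exact hA (by rw [hs]; norm_num)
  have hcq : ((sg A b : ℤ) : ℚ) ≠ 0 := by exact_mod_cast hc0
  have hsc := pts_scale hc0 hs
  rw [hsc] at hP hfin
  obtain ⟨Q, hQ, hQP⟩ := hP
  rw [← hQP] at h1 h2 h3
  simp only at h1 h2 h3
  have g1 : Q.1 ≠ Q.2 := fun h => h1 (by rw [h])
  have hfin' : (pts (N : ℤ)).Finite := by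
    refine Set.Finite.of_finite_image hfin fun u _ v _ huv => ?_
    simp only [Prod.mk.injEq] at huv
    exact Prod.ext (mul_left_cancel₀ hcq huv.1) (mul_left_cancel₀ hcq huv.2)
  by_cases hN1 : N = 1
  · rw [hN1, Nat.cast_one, pts_one] at hQ
    rcases hQ with h | h
    · exact h3 (by rw [h]; simp)
    · rw [Set.mem_singleton_iff] at h
      exact h2 (by rw [h]; simp)
  · exact g1 (diag (N := N) (by exact_mod_cast hN0) (by exact_mod_cast hN1)
      (fun p hp hd => hcf p hp (by exact_mod_cast hd)) (by exact_mod_cast Nat.pos_of_ne_zero hN0)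
      hfin' hQ)

/-- there is a point outside the trivial ones -/
theorem ex_pt {A : ℤ} (h : (pts A).Infinite) : ∃ P ∈ pts A, P.1 ≠ P.2 ∧ P.1 ≠ 0 ∧ P.2 ≠ 0 := by
  by_contra hc
  push Not at hc
  apply h
  have h1 : {P ∈ pts A | P.1 = P.2}.Finite := by
    refine Set.Subsingleton.finite ?_
    rintro ⟨x, y⟩ ⟨hP, hx⟩ ⟨x', y'⟩ ⟨hQ, hx'⟩
    simp only at hx hx'
    subst hx
    subst hx'
    have e1 : x ^ 3 + x ^ 3 = (A : ℚ) := hP
    have e2 : x' ^ 3 + x' ^ 3 = (A : ℚ) := hQ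
    have : x = x' := cube_inj (by linarith)
    rw [this]
  have h2 : {P ∈ pts A | P.1 = 0}.Finite := by
    refine Set.Subsingleton.finite ?_
    rintro ⟨x, y⟩ ⟨hP, hx⟩ ⟨x', y'⟩ ⟨hQ, hx'⟩
    simp only at hx hx'
    subst hx
    subst hx'
    have e1 : 0 ^ 3 + y ^ 3 = (A : ℚ) := hP
    have e2 : 0 ^ 3 + y' ^ 3 = (A : ℚ) := hQ
    have : y = y' := cube_inj (by linarith)
    rw [this]
  have h3 : {P ∈ pts A | P.2 = 0}.Finite := by
    refine Set.Subsingleton.finite ?_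
    rintro ⟨x, y⟩ ⟨hP, hx⟩ ⟨x', y'⟩ ⟨hQ, hx'⟩
    simp only at hx hx'
    subst hx
    subst hx'
    have e1 : x ^ 3 + 0 ^ 3 = (A : ℚ) := hP
    have e2 : x' ^ 3 + 0 ^ 3 = (A : ℚ) := hQ
    have : x = x' := cube_inj (by linarith)
    rw [this]
  refine ((h1.union h2).union h3).subset fun P hP => ?_
  by_cases g1 : P.1 = P.2
  · exact Or.inl (Or.inl ⟨hP, g1⟩)
  · by_cases g2 : P.1 = 0
    · exact Or.inl (Or.inr ⟨hP, g2⟩)
    · exact Or.inr ⟨hP, hc P hP g1 g2⟩

/-- the certificates for infinitely many zeros -/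
def PC (L : List (List ℤ)) (c : ℤ × (ℤ × (ℤ × ℤ))) : Prop :=
  L = cubL c.1 ∧ ¬ c.1 = 0 ∧ ¬ c.2.2.2 = 0 ∧
  c.2.1 * c.2.1 * c.2.1 + c.2.2.1 * c.2.2.1 * c.2.2.1 = c.1 * (c.2.2.2 * c.2.2.2 * c.2.2.2) ∧
  ¬ c.2.1 = c.2.2.1 ∧ ¬ c.2.1 = 0 ∧ ¬ c.2.2.1 = 0

theorem pc_sound {L : List (List ℤ)} {c : ℤ × (ℤ × (ℤ × ℤ))} (h : PC L c) : (Zer L).Infinite := by
  obtain ⟨A, a, b, d⟩ := c
  obtain ⟨hL, hA, hd, he, hab, ha, hb⟩ := h
  simp only at hL hA hd he hab ha hb
  have hdq : (d : ℚ) ≠ 0 := by exact_mod_cast hd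
  rw [hL, zer_cubL]
  refine pts_inf hA (P := ((a : ℚ) / d, (b : ℚ) / d)) ?_ ?_ ?_ ?_
  · show ((a : ℚ) / d) ^ 3 + ((b : ℚ) / d) ^ 3 = (A : ℚ)
    have h1 : ((a * a * a + b * b * b : ℤ) : ℚ) = ((A * (d * d * d) : ℤ) : ℚ) := by rw [he]
    push_cast at h1
    rw [div_pow, div_pow, ← add_div, div_eq_iff (pow_ne_zero 3 hdq)]
    linear_combination h1
  · simp only
    rw [Ne, div_left_inj' hdq]
    exact_mod_cast hab
  · simp only
    exact div_ne_zero (by exact_mod_cast ha) hdq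
  · simp only
    exact div_ne_zero (by exact_mod_cast hb) hdq

theorem pc_complete {A : ℤ} (hA : A ≠ 0) (h : (pts A).Infinite) : ∃ c, PC (cubL A) c := by
  obtain ⟨⟨X, Y⟩, hP, h1, h2, h3⟩ := ex_pt h
  simp only at h1 h2 h3
  have hXY : X ^ 3 + Y ^ 3 = (A : ℚ) := hP
  have hden : X.den = Y.den := den_eq hP
  have hzq : ((X.den : ℤ) : ℚ) ≠ 0 := by exact_mod_cast X.den_ne_zero
  have hXz : X * ((X.den : ℤ) : ℚ) = X.num := by
    push_cast
    exact Rat.mul_den_eq_num X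
  have hYz : Y * ((X.den : ℤ) : ℚ) = Y.num := by
    rw [hden]
    push_cast
    exact Rat.mul_den_eq_num Y
  have hd0 : ¬ (X.den : ℤ) = 0 := by exact_mod_cast X.den_ne_zero
  refine ⟨(A, X.num, Y.num, (X.den : ℤ)), rfl, hA, hd0, ?_, ?_,
    fun h => h2 (Rat.num_eq_zero.1 h), fun h => h3 (Rat.num_eq_zero.1 h)⟩
  · simp only
    have h4 : ((X.num : ℤ) : ℚ) * X.num * X.num + (Y.num : ℚ) * Y.num * Y.num =
        (A : ℚ) * (((X.den : ℤ) : ℚ) * ((X.den : ℤ) : ℚ) * ((X.den : ℤ) : ℚ)) := by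
      rw [← hXz, ← hYz]
      linear_combination ((X.den : ℤ) : ℚ) ^ 3 * hXY
    exact_mod_cast h4
  · simp only
    intro h
    apply h1
    rw [← h] at hYz
    exact mul_right_cancel₀ hzq (hXz.trans hYz.symm)

theorem pc_cp : ComputablePred fun t : (List (List ℤ)) × (ℤ × (ℤ × (ℤ × ℤ))) => PC t.1 t.2 := by
  have hL : Computable fun t : (List (List ℤ)) × (ℤ × (ℤ × (ℤ × ℤ))) => t.1 := Computable.fst
  have hc : Computable fun t : (List (List ℤ)) × (ℤ × (ℤ × (ℤ × ℤ))) => t.2 := Computable.snd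
  have hA : Computable fun t : (List (List ℤ)) × (ℤ × (ℤ × (ℤ × ℤ))) => t.2.1 :=
    Computable.fst.comp hc
  have hc2 : Computable fun t : (List (List ℤ)) × (ℤ × (ℤ × (ℤ × ℤ))) => t.2.2 :=
    Computable.snd.comp hc
  have ha : Computable fun t : (List (List ℤ)) × (ℤ × (ℤ × (ℤ × ℤ))) => t.2.2.1 :=
    Computable.fst.comp hc2
  have hc3 : Computable fun t : (List (List ℤ)) × (ℤ × (ℤ × (ℤ × ℤ))) => t.2.2.2 :=
    Computable.snd.comp hc2
  have hb : Computable fun t : (List (List ℤ)) × (ℤ × (ℤ × (ℤ × ℤ))) => t.2.2.2.1 :=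
    Computable.fst.comp hc3
  have hd : Computable fun t : (List (List ℤ)) × (ℤ × (ℤ × (ℤ × ℤ))) => t.2.2.2.2 :=
    Computable.snd.comp hc3
  have hcub : Computable cubL := by
    have h1 : Primrec fun A : ℤ => -A := Pool.Agent.Helper566.FD.J7.prim_int_neg
    have h2 : Primrec fun A : ℤ => [-A, 0, 0, 1] := Primrec.list_cons.comp h1 (Primrec.const _)
    have h3 : Primrec cubL := Primrec.list_cons.comp h2 (Primrec.const [[], [], [1]])
    exact h3.to_comp
  refine cp_and (RE.cp_eq hL (hcub.comp hA)) (cp_and (cp_not (RE.cp_eq hA (Computable.const 0)))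
    (cp_and (cp_not (RE.cp_eq hd (Computable.const 0))) (cp_and
      (RE.cp_eq (zadd (zmul (zmul ha ha) ha) (zmul (zmul hb hb) hb)) (zmul hA (zmul (zmul hd hd) hd)))
      (cp_and (cp_not (RE.cp_eq ha hb)) (cp_and (cp_not (RE.cp_eq ha (Computable.const 0)))
        (cp_not (RE.cp_eq hb (Computable.const 0))))))))

theorem pc_re : REPred fun L => ∃ c, PC L c := RE.ex (p := PC) pc_cp.to_re

/-- **The algorithm.** -/
theorem main_alg : ∃ φ : List (List ℤ) →. Bool, Partrec φ ∧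
    (∀ L, ∀ r ∈ φ L, (r = true ↔ (Zer L).Infinite)) ∧
    (∀ A : ℤ, A ≠ 0 → (pts A).Infinite → true ∈ φ (cubL A)) ∧
    ∀ A : ℤ, A ≠ 0 → gens A ≠ none → ∀ L, Mp (toP L) A → false ∈ φ L := by
  have hf : Partrec fun L : List (List ℤ) =>
      (Part.assert (∃ c, PC L c) fun _ => Part.some ()).map (fun _ => true) :=
    Partrec.map pc_re (Computable.const true).to₂
  have hg : Partrec fun L : List (List ℤ) =>
      (Part.assert (∃ c, NC L c) fun _ => Part.some ()).map (fun _ => false) :=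
    Partrec.map nc_re (Computable.const false).to₂
  have mf : ∀ L x, x ∈ (Part.assert (∃ c, PC L c) fun _ => Part.some ()).map (fun _ => true) ↔
      x = true ∧ ∃ c, PC L c := by
    intro L x
    rw [Part.mem_map_iff]
    constructor
    · rintro ⟨u, hu, rfl⟩
      exact ⟨rfl, (Part.mem_assert_iff.1 hu).1⟩
    · rintro ⟨rfl, h⟩
      exact ⟨(), Part.mem_assert_iff.2 ⟨h, Part.mem_some _⟩, rfl⟩
  have mg : ∀ L x, x ∈ (Part.assert (∃ c, NC L c) fun _ => Part.some ()).map (fun _ => false) ↔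
      x = false ∧ ∃ c, NC L c := by
    intro L x
    rw [Part.mem_map_iff]
    constructor
    · rintro ⟨u, hu, rfl⟩
      exact ⟨rfl, (Part.mem_assert_iff.1 hu).1⟩
    · rintro ⟨rfl, h⟩
      exact ⟨(), Part.mem_assert_iff.2 ⟨h, Part.mem_some _⟩, rfl⟩
  obtain ⟨φ, hφ, hm⟩ := Partrec.merge hf hg (fun L x hx y hy => by
    obtain ⟨-, c, hc⟩ := (mf L x).1 hx
    obtain ⟨-, c', hc'⟩ := (mg L y).1 hy
    exact absurd (nc_sound hc') (pc_sound hc))
  refine ⟨φ, hφ, fun L r hr => ?_, fun A hA h => ?_, fun A hA h L hL => ?_⟩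
  · rcases (hm L r).1 hr with h | h
    · obtain ⟨rfl, c, hc⟩ := (mf L r).1 h
      exact ⟨fun _ => pc_sound hc, fun _ => rfl⟩
    · obtain ⟨rfl, c, hc⟩ := (mg L r).1 h
      exact ⟨fun h => Bool.noConfusion h, fun h => absurd (nc_sound hc) h⟩
  · exact (hm _ _).2 (Or.inl ((mf _ _).2 ⟨rfl, pc_complete hA h⟩))
  · exact (hm _ _).2 (Or.inr ((mg _ _).2 ⟨rfl, nc_complete hA h hL⟩))

end Q155.AL
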