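import Pool.Agent.Q155.AL.Cert

/-! Examples: the cubic itself, the curve `y² = x³ - 432 A²` and the diagonal cubics -/

set_option autoImplicit false
set_option maxHeartbeats 400000

open scoped Classical

namespace Q155.AL

open Polynomial

theorem const_of_dvd {D : PP} {w v : ℤ[X]} (hw : w ≠ 0) (hv : v ≠ 0) (d1 : D ∣ C w)
    (d2 : D ∣ v.map C) : ∃ n : ℤ, D = C (C n) := by
  have g1 : D.natDegree = 0 := by
    have := natDegree_le_of_dvd d1 (C_ne_zero.2 hw)
    rw [natDegree_C] at this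
    omega
  obtain ⟨d, rfl⟩ : ∃ d, D = C d := ⟨_, eq_C_of_natDegree_eq_zero g1⟩
  rw [C_dvd_iff_dvd_coeff] at d2
  obtain ⟨i, hi⟩ : ∃ i, v.coeff i ≠ 0 := by
    by_contra hc
    push Not at hc
    exact hv (Polynomial.ext fun i => by rw [hc i, coeff_zero])
  have d3 := d2 i
  rw [coeff_map] at d3
  have g2 : d.natDegree = 0 := by
    have := natDegree_le_of_dvd d3 (C_ne_zero.2 hi)
    rw [natDegree_C] at this
    omega
  exact ⟨_, congrArg C (eq_C_of_natDegree_eq_zero g2)⟩

theorem FA_not_dvd {A : ℤ} {G : PP} (hG : G ≠ 0) (hd : G.natDegree < 3) : ¬ FA A ∣ G := fun h => by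
  have h1 := natDegree_le_of_dvd h hG
  rw [FA_eq, natDegree_X_pow_add_C] at h1
  omega

/-- linear polynomials -/
theorem lin_dvd {A a b c : ℤ} (h : FA A ∣ C (C a) * X + C (C b) * C X + C (C c)) :
    a = 0 ∧ b = 0 ∧ c = 0 := by
  have h1 : C (C a) * X + C (C b) * C X + C (C c) = (0 : PP) := by
    by_contra hne
    refine FA_not_dvd hne ?_ h
    have e : (C (C a) * X + C (C b) * C X + C (C c) : PP) = C (C a) * X + C (C b * X + C c) := by
      rw [C_add, C_mul]
      ring
    rw [e]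
    exact lt_of_le_of_lt natDegree_linear_le (by norm_num)
  have g : ∀ x y : ℚ, (a : ℚ) * x + b * y + c = 0 := by
    intro x y
    have := congrArg (evR x y) h1
    rw [map_add, map_add, map_mul, map_mul, evR_CC, evR_CC, evR_CC, evR_X, evR_CX, map_zero] at this
    exact this
  have g0 := g 0 0
  have g1 := g 1 0
  have g2 := g 0 1
  have c0 : (c : ℚ) = 0 := by linarith
  have a0 : (a : ℚ) = 0 := by linarith
  have b0 : (b : ℚ) = 0 := by linarith
  exact ⟨by exact_mod_cast a0, by exact_mod_cast b0, by exact_mod_cast c0⟩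

theorem cv_self (A : ℤ) : Cv (cubL A) A := by
  refine ⟨X, C X, 1, 3, fun i j h => ?_, ?_, FA_not_dvd one_ne_zero (by simp), fun a b c hc => ?_⟩
  · match i, j with
    | 0, 0 => omega
    | 0, 1 => omega
    | 0, 2 => omega
    | 0, 3 => omega
    | 0, j + 4 => exact absurd (by simp [cubL]) h
    | 1, j => exact absurd (by simp [cubL]) h
    | 2, j => exact absurd (by simp [cubL]) h
    | 3, 0 => omega
    | 3, j + 1 => exact absurd (by simp [cubL]) h
    | i + 4, j => exact absurd (by simp [cubL]) h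
  · have e : hom 3 (cubL A) X (C X) 1 = FA A := by
      rw [← FA_cub]
      unfold hom toP
      simp only [one_pow, mul_one]
    rw [e]
  · rintro ⟨h, -⟩
    have e : C (C c) * X - C (C a) * 1 = (C (C c) * X + C (C 0) * C X + C (C (-a)) : PP) := by
      simp only [map_neg, map_zero]
      ring
    rw [e] at h
    exact hc (lin_dvd h).1

theorem ne_C_sub (k : ℤ) {n : ℕ} (hn : n ≠ 0) : C k - (X : ℤ[X]) ^ n ≠ 0 := by
  rw [← neg_sub]
  exact neg_ne_zero.2 (X_pow_sub_C_ne_zero (Nat.pos_of_ne_zero hn) _)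

/-! ### The curve `y² = x³ - 432 A²` -/

/-- the coefficients of `y² - x³ + 432 A²` -/
def weiL (A : ℤ) : List (List ℤ) := [[432 * A ^ 2, 0, 1], [], [], [-1]]

theorem toP_weiL (A : ℤ) : toP (weiL A) = C X ^ 2 - X ^ 3 + C (C (432 * A ^ 2)) := by
  unfold toP weiL
  simp only [List.length_cons, List.length_nil, Finset.sum_range_succ,
    Finset.sum_range_zero, List.getD_cons_zero, List.getD_cons_succ]
  simp only [map_neg, map_zero, map_one]
  ring

theorem mp_wei {A : ℤ} (hA : A ≠ 0) : Mp (toP (weiL A)) A := by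
  rw [toP_weiL]
  have c12 : (C (C (12 : ℤ)) : PP) = 12 := rfl
  refine ⟨C (C (36 * A)) + C X, C (C (36 * A)) - C X, C (C 6) * X, ?_, fun D hF hT => ?_⟩
  · refine ⟨C (C (216 * A)), ?_⟩
    have n1 : (C (C (216 : ℤ)) : PP) = 216 := rfl
    have n2 : (C (C (36 : ℤ)) : PP) = 36 := rfl
    have n3 : (C (C (6 : ℤ)) : PP) = 6 := rfl
    have n4 : (C (C (432 : ℤ)) : PP) = 432 := rfl
    simp only [map_mul, map_pow, n1, n2, n3, n4]
    ring
  · have n2 : (C (C (36 : ℤ)) : PP) = 36 := rfl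
    have n3 : (C (C (6 : ℤ)) : PP) = 6 := rfl
    have n4 : (C (C (432 : ℤ)) : PP) = 432 := rfl
    refine const_of_dvd (w := C 12 * X * (C (1296 * A ^ 2) - X ^ 2) * (X ^ 2 + C (432 * A ^ 2)))
      (v := C 12 * X * (X ^ 3 - C (432 * A ^ 2)) * (C (1728 * A ^ 2) - X ^ 3)) ?_ ?_ ?_ ?_
    · refine mul_ne_zero (mul_ne_zero (mul_ne_zero (C_ne_zero.2 (by norm_num)) X_ne_zero) ?_) ?_
      · exact ne_C_sub _ (by norm_num)
      · exact (monic_X_pow_add_C _ (by norm_num)).ne_zero
    · refine mul_ne_zero (mul_ne_zero (mul_ne_zero (C_ne_zero.2 (by norm_num)) X_ne_zero) ?_) ?_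
      · exact X_pow_sub_C_ne_zero (by norm_num) _
      · exact ne_C_sub _ (by norm_num)
    · have h1 := (hT.mul_left (X ^ 2 : PP))
      have h2 := hF.mul_left (C (C 12) * C X * (C (C (1296 * A ^ 2)) - C X ^ 2) : PP)
      have h3 := dvd_add h1 h2
      refine h3.trans (dvd_of_eq ?_)
      have n5 : (C (C (1296 : ℤ)) : PP) = 1296 := rfl
      simp only [map_mul, map_pow, map_sub, map_add, n2, n3, n4, n5, c12]
      ring
    · have h1 := (hT.mul_left (C X : PP))
      have h2 := hF.mul_left (-(C (C 12) * X * (C (C (1296 * A ^ 2)) + C (C (432 * A ^ 2)) - X ^ 3 - C X ^ 2)) : PP)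
      have h3 := dvd_add h1 h2
      refine h3.trans (dvd_of_eq ?_)
      have n5 : (C (C (1296 : ℤ)) : PP) = 1296 := rfl
      have n6 : (C (C (1728 : ℤ)) : PP) = 1728 := rfl
      simp only [Polynomial.map_mul, Polynomial.map_sub, Polynomial.map_pow, map_X, map_C, map_mul,
        map_pow, n2, n3, n4, n5, n6, c12]
      ring

theorem cv_wei {A : ℤ} (hA : A ≠ 0) : Cv (weiL A) A := by
  refine ⟨C (C (12 * A)), C (C (36 * A)) * (X - C X), X + C X, 3, fun i j h => ?_, ?_, ?_,
    fun a b c hc => ?_⟩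
  · match i, j with
    | 0, 0 => omega
    | 0, 1 => omega
    | 0, 2 => omega
    | 0, j + 3 => exact absurd (by simp [weiL]) h
    | 1, j => exact absurd (by simp [weiL]) h
    | 2, j => exact absurd (by simp [weiL]) h
    | 3, 0 => omega
    | 3, j + 1 => exact absurd (by simp [weiL]) h
    | i + 4, j => exact absurd (by simp [weiL]) h
  · refine ⟨C (C (1728 * A ^ 2)), ?_⟩
    have n1 : (C (C (1728 : ℤ)) : PP) = 1728 := rfl
    have n2 : (C (C (36 : ℤ)) : PP) = 36 := rfl
    have n3 : (C (C (12 : ℤ)) : PP) = 12 := rfl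
    have n4 : (C (C (432 : ℤ)) : PP) = 432 := rfl
    unfold hom weiL FA
    simp only [List.length_cons, List.length_nil, Finset.sum_range_succ,
      Finset.sum_range_zero, List.getD_cons_zero, List.getD_cons_succ]
    simp only [map_neg, map_zero, map_one, map_mul, map_pow, n1, n2, n3, n4, Nat.sub_zero,
      Nat.sub_self, pow_zero, zero_add]
    norm_num
    ring
  · intro h
    have e : (X + C X : PP) = C (C 1) * X + C (C 1) * C X + C (C 0) := by
      simp only [map_one, map_zero]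
      ring
    rw [e] at h
    exact one_ne_zero (lin_dvd h).1
  · rintro ⟨h, -⟩
    have e : C (C c) * C (C (12 * A)) - C (C a) * (X + C X) =
        (C (C (-a)) * X + C (C (-a)) * C X + C (C (c * (12 * A))) : PP) := by
      simp only [map_neg, map_mul]
      ring
    rw [e] at h
    have h1 := (lin_dvd h).2.2
    rcases mul_eq_zero.1 h1 with h2 | h2
    · exact hc h2
    · omega

/-! ### The diagonal cubics -/

section

variable {R : Type} [CommRing R]

/-- the first covariant -/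
def pp (u v w : R) : R := u ^ 2 * v + v ^ 2 * w + w ^ 2 * u - 3 * u * v * w

/-- the second covariant -/
def qq (u v w : R) : R := u * v ^ 2 + v * w ^ 2 + w * u ^ 2 - 3 * u * v * w

/-- the norm -/
def nn (u v w : R) : R := u ^ 2 + v ^ 2 + w ^ 2 - u * v - v * w - w * u

/-- the product restricted to `u = - v - w` -/
def gg (v w : R) : R :=
  (v + w) * (v ^ 3 + 6 * v ^ 2 * w + 3 * v * w ^ 2 - w ^ 3) *
    (-v ^ 3 + 3 * v ^ 2 * w + 6 * v * w ^ 2 + w ^ 3) *
    (2 * v ^ 3 + 3 * v ^ 2 * w - 3 * v * w ^ 2 - 2 * w ^ 3) * (3 * (v ^ 2 + v * w + w ^ 2))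

theorem cub_id (u v w : R) : u + v + w ∣ pp u v w ^ 3 + qq u v w ^ 3 + u * v * w * nn u v w ^ 3 := by
  obtain ⟨G, hG⟩ : ∃ G : R[X], G = (X ^ 2 * C v + C v ^ 2 * C w + C w ^ 2 * X - 3 * X * C v * C w) ^ 3 +
    (X * C v ^ 2 + C v * C w ^ 2 + C w * X ^ 2 - 3 * X * C v * C w) ^ 3 +
    X * C v * C w * (X ^ 2 + C v ^ 2 + C w ^ 2 - X * C v - C v * C w - C w * X) ^ 3 := ⟨_, rfl⟩
  have h := sub_dvd_eval_sub u (-v - w) G
  have e0 : (C (3 : R) : R[X]) = 3 := rfl
  have e1 : G.eval u = pp u v w ^ 3 + qq u v w ^ 3 + u * v * w * nn u v w ^ 3 := by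
    rw [hG]
    unfold pp qq nn
    simp only [← e0, eval_add, eval_sub, eval_mul, eval_pow, eval_C, eval_X]
  have e2 : G.eval (-v - w) = 0 := by
    rw [hG]
    simp only [← e0, eval_add, eval_sub, eval_mul, eval_pow, eval_C, eval_X]
    ring
  rw [e1, e2, sub_zero] at h
  have e3 : u + v + w = u - (-v - w) := by ring
  rw [e3]
  exact h

theorem red {D u v w k : R} (hF : D ∣ u + v + w)
    (h : D ∣ k * (u * pp u v w * qq u v w * (pp u v w - qq u v w) * nn u v w)) : D ∣ k * gg v w := by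
  obtain ⟨G, hG⟩ : ∃ G : R[X], G = X * (X ^ 2 * C v + C v ^ 2 * C w + C w ^ 2 * X - 3 * X * C v * C w) *
    (X * C v ^ 2 + C v * C w ^ 2 + C w * X ^ 2 - 3 * X * C v * C w) *
    ((X ^ 2 * C v + C v ^ 2 * C w + C w ^ 2 * X - 3 * X * C v * C w) -
      (X * C v ^ 2 + C v * C w ^ 2 + C w * X ^ 2 - 3 * X * C v * C w)) *
    (X ^ 2 + C v ^ 2 + C w ^ 2 - X * C v - C v * C w - C w * X) := ⟨_, rfl⟩
  have h0 := sub_dvd_eval_sub u (-v - w) G
  have e0 : (C (3 : R) : R[X]) = 3 := rfl
  have e1 : G.eval u = u * pp u v w * qq u v w * (pp u v w - qq u v w) * nn u v w := by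
    rw [hG]
    unfold pp qq nn
    simp only [← e0, eval_add, eval_sub, eval_mul, eval_pow, eval_C, eval_X]
  have e2 : G.eval (-v - w) = -gg v w := by
    rw [hG]
    unfold gg
    simp only [← e0, eval_add, eval_sub, eval_mul, eval_pow, eval_C, eval_X]
    ring
  rw [e1, e2] at h0
  have e3 : u + v + w = u - (-v - w) := by ring
  have h1 : D ∣ k * (u * pp u v w * qq u v w * (pp u v w - qq u v w) * nn u v w - -gg v w) :=
    (hF.trans (e3 ▸ h0)).mul_left k
  have h2 := dvd_sub h1 h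
  refine h2.trans (dvd_of_eq ?_)
  ring

theorem pp_swap (u v w : R) : pp v u w = qq u v w := by
  unfold pp qq
  ring

theorem qq_swap (u v w : R) : qq v u w = pp u v w := by
  unfold pp qq
  ring

theorem nn_swap (u v w : R) : nn v u w = nn u v w := by
  unfold nn
  ring

end

theorem gg_ne {b c m : ℤ} (hc : c ≠ 0) (hm : m ≠ 0) :
    C m * X * gg (C b * X ^ 3) (C (-c)) ≠ (0 : ℤ[X]) := by
  refine mul_ne_zero (mul_ne_zero (C_ne_zero.2 hm) X_ne_zero) fun h => ?_
  have h1 := congrArg (eval 0) h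
  have n1 : (C (3 : ℤ) : ℤ[X]) = 3 := rfl
  have n2 : (C (2 : ℤ) : ℤ[X]) = 2 := rfl
  have n3 : (C (6 : ℤ) : ℤ[X]) = 6 := rfl
  unfold gg at h1
  simp only [← n1, ← n2, ← n3, eval_add, eval_sub, eval_mul, eval_pow, eval_neg, eval_C, eval_X,
    eval_zero] at h1
  have h2 : 6 * c ^ 12 = 0 := by linear_combination h1
  have h3 : c ^ 12 ≠ 0 := pow_ne_zero _ hc
  omega

/-- the coefficients of `a x³ + b y³ - c` -/
def diaL (a b c : ℤ) : List (List ℤ) := [[-c, 0, 0, b], [], [], [a]]

theorem toP_diaL (a b c : ℤ) :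
    toP (diaL a b c) = C (C a) * X ^ 3 + C (C b) * C X ^ 3 + C (C (-c)) := by
  unfold toP diaL
  simp only [List.length_cons, List.length_nil, Finset.sum_range_succ,
    Finset.sum_range_zero, List.getD_cons_zero, List.getD_cons_succ]
  simp only [map_neg, map_zero, map_one]
  ring

theorem mp_dia {A a b c m : ℤ} (hA : A ≠ 0) (hm : m ≠ 0) (h : a * b * c = A * m ^ 3) :
    Mp (toP (diaL a b c)) A := by
  have h0 : a * b * c ≠ 0 := by
    rw [h]
    exact mul_ne_zero hA (pow_ne_zero _ hm)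
  have hc : c ≠ 0 := right_ne_zero_of_mul h0
  have ha : a ≠ 0 := left_ne_zero_of_mul (left_ne_zero_of_mul h0)
  have hb : b ≠ 0 := right_ne_zero_of_mul (left_ne_zero_of_mul h0)
  rw [toP_diaL]
  obtain ⟨u, hu⟩ : ∃ u : PP, u = C (C a) * X ^ 3 := ⟨_, rfl⟩
  obtain ⟨v, hv⟩ : ∃ v : PP, v = C (C b) * C X ^ 3 := ⟨_, rfl⟩
  obtain ⟨w, hw⟩ : ∃ w : PP, w = C (C (-c)) := ⟨_, rfl⟩
  rw [← hu, ← hv, ← hw]
  refine ⟨pp u v w, qq u v w, C (C m) * X * C X * nn u v w, ?_, fun D hF hT => ?_⟩
  · refine (cub_id u v w).trans (dvd_of_eq ?_)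
    have e : u * v * w = -(C (C A) * (C (C m) * X * C X) ^ 3) := by
      have h1 : (C (C (a * b * c)) : PP) = C (C (A * m ^ 3)) := by rw [h]
      simp only [map_mul, map_pow] at h1
      rw [hu, hv, hw]
      simp only [map_neg]
      linear_combination (-(X ^ 3 * C X ^ 3) : PP) * h1
    rw [e]
    ring
  · refine const_of_dvd (w := C m * X * gg (C b * X ^ 3) (C (-c)))
      (v := C m * X * gg (C a * X ^ 3) (C (-c))) (gg_ne hc hm) (gg_ne hc hm) ?_ ?_
    · have h1 : D ∣ (C (C m) * C X) *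
          (u * pp u v w * qq u v w * (pp u v w - qq u v w) * nn u v w) := by
        refine (hT.mul_left (C (C a) * X ^ 2 : PP)).trans (dvd_of_eq ?_)
        rw [hu]
        ring
      refine (red hF h1).trans (dvd_of_eq ?_)
      rw [hv, hw]
      have n1 : (C (3 : ℤ[X]) : PP) = 3 := rfl
      have n2 : (C (2 : ℤ[X]) : PP) = 2 := rfl
      have n3 : (C (6 : ℤ[X]) : PP) = 6 := rfl
      unfold gg
      simp only [map_mul, map_add, map_sub, map_pow, map_neg, n1, n2, n3]
    · have hF' : D ∣ v + u + w := by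
        rw [add_comm v u]
        exact hF
      have h1 : D ∣ (C (C m) * X) *
          (v * pp v u w * qq v u w * (pp v u w - qq v u w) * nn v u w) := by
        rw [pp_swap u v w, qq_swap u v w, nn_swap u v w]
        refine (hT.mul_left (-(C (C b) * C X ^ 2) : PP)).trans (dvd_of_eq ?_)
        rw [hv]
        ring
      refine (red hF' h1).trans (dvd_of_eq ?_)
      rw [hu, hw]
      unfold gg
      simp only [Polynomial.map_mul, Polynomial.map_add, Polynomial.map_sub, Polynomial.map_pow,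
        Polynomial.map_neg, map_X, map_C, Polynomial.map_ofNat]

end Q155.AL
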