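import Pool.Agent.Q283.Q3.Lawq

/-! The measure of the vectors that vanish on a set -/

set_option autoImplicit false

open scoped Classical

namespace Q155.AL

open Finset
open Q283.Q3 (cq cq_ge sum_cq)
open Q283.T3B (hasSum_pi)

/-- the measure of the vectors that vanish on a set -/
theorem meas_B {M : ℕ} (B : Finset (Fin M)) :
    ∑' r : {r : Fin M → ℕ | ∀ k ∈ B, r k = 0}, ∏ k, cq (r.1 k) = cq 0 ^ B.card := by
  have h1 : ∀ k : Fin M, HasSum (fun r : ℕ => if (k ∈ B → r = 0) then cq r else 0)
      (if k ∈ B then cq 0 else 1) := by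
    intro k
    by_cases hk : k ∈ B
    · rw [if_pos hk]
      have : (fun r : ℕ => if (k ∈ B → r = 0) then cq r else 0) =
          fun r => if r = 0 then cq 0 else 0 := by
        funext r
        by_cases hr : r = 0
        · subst hr
          simp
        · simp [hk, hr]
      rw [this]
      exact hasSum_ite_eq 0 (cq 0)
    · rw [if_neg hk]
      refine sum_cq.congr_fun fun r => ?_
      rw [if_pos fun h => absurd h hk]
  have h2 := hasSum_pi (M := M) (fun k r => if (k ∈ B → r = 0) then cq r else 0) _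
    (fun k r => by
      show 0 ≤ if (k ∈ B → r = 0) then cq r else 0
      split_ifs
      · exact cq_ge r
      · exact le_rfl) h1
  rw [tsum_subtype {r : Fin M → ℕ | ∀ k ∈ B, r k = 0} fun r => ∏ k, cq (r k)]
  have h3 : (fun r : Fin M → ℕ => ({r : Fin M → ℕ | ∀ k ∈ B, r k = 0}.indicator
      fun r => ∏ k, cq (r k)) r) =
      fun r => ∏ k, if (k ∈ B → r k = 0) then cq (r k) else 0 := by
    funext r
    by_cases hr : ∀ k ∈ B, r k = 0
    · rw [Set.indicator_of_mem (show r ∈ {r : Fin M → ℕ | ∀ k ∈ B, r k = 0} from hr)]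
      exact prod_congr rfl fun k _ => (if_pos (hr k)).symm
    · rw [Set.indicator_of_notMem (show r ∉ {r : Fin M → ℕ | ∀ k ∈ B, r k = 0} from hr)]
      obtain ⟨k, hk⟩ := not_forall.1 hr
      exact (prod_eq_zero (mem_univ k) (if_neg hk)).symm
  rw [h3, h2.tsum_eq, prod_ite, prod_const, prod_const, one_pow, mul_one]
  congr 2
  ext k
  simp

end Q155.AL
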