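import Pool.Agent.Q155.AL.Ex

/-! The algorithm for curves with several components -/

set_option autoImplicit false
set_option maxHeartbeats 400000

open scoped Classical

namespace Q155.AL

open Polynomial Pool.Agent.Helper446 Pool.Agent.W960.GA

theorem CB.prod {α : Type} [Primcodable α] {F : α × ℕ → PP} (hF : CB F) {n : α → ℕ}
    (hn : Computable n) : CB fun a => ∏ k ∈ Finset.range (n a), F (a, k) := by
  obtain ⟨l, hl, hlF⟩ := hF.rep
  obtain ⟨m, hm, hmt⟩ := ex_mul
  have p0 : Computable fun t : α × (ℕ × List (List ℤ)) => (t.1, t.2.1) :=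
    Computable.pair Computable.fst (Computable.fst.comp Computable.snd)
  have p1 := hl.comp p0
  have p : Computable fun t : α × (ℕ × List (List ℤ)) => (t.2.2, l (t.1, t.2.1)) :=
    Computable.pair (Computable.snd.comp Computable.snd) p1
  have p' := hm.comp p
  have h : Computable₂ fun (a : α) (q : ℕ × List (List ℤ)) => m (q.2, l (a, q.1)) := p'
  have h1 := Computable.nat_rec hn (Computable.const ([[1]] : List (List ℤ))) h
  have h2 := toP_cb h1
  have e : (fun a => ∏ k ∈ Finset.range (n a), F (a, k)) = fun a =>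
      toP (Nat.rec ([[1]] : List (List ℤ)) (fun y IH => m ((y, IH).2, l (a, (y, IH).1))) (n a)) := by
    funext a
    induction n a with
    | zero => simp [toP]
    | succ n ih =>
      rw [Finset.prod_range_succ, ih]
      show _ = toP (m (_, l (a, n)))
      rw [hmt, hlF]
  rw [e]
  exact h2

/-- the certificates for finitely many zeros: a factorization -/
def NM (L : List (List ℤ)) (c : List (List (List ℤ))) : Prop :=
  toP L = ∏ k ∈ Finset.range c.length, toP (c.getD k []) ∧ ∀ M ∈ c, ∃ c', NC M c'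

theorem nm_re : REPred fun L => ∃ c, NM L c := by
  refine RE.ex (p := NM) (RE.and ?_ ?_)
  · have gl : Computable fun t : (List (List (List ℤ))) × ℕ => t.1.getD t.2 [] :=
      (Primrec.list_getD (α := List (List ℤ)) []).to_comp
    have p : Computable fun t : ((List (List ℤ)) × (List (List (List ℤ)))) × ℕ => (t.1.2, t.2) :=
      Computable.pair (Computable.snd.comp Computable.fst) Computable.snd
    have q := gl.comp p
    have b1 : CB fun t : ((List (List ℤ)) × (List (List (List ℤ)))) × ℕ => toP (t.1.2.getD t.2 []) :=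
      toP_cb q
    have hlen : Computable fun t : (List (List ℤ)) × (List (List (List ℤ))) => t.2.length :=
      Computable.list_length.comp Computable.snd
    have b2 := CB.prod b1 hlen
    exact (CB.eq (toP_cb Computable.fst) b2).to_re
  · have h1 : REPred fun x : ((List (List ℤ)) × (List (List (List ℤ)))) × (List (List ℤ)) =>
        ∃ c', NC x.2 c' := RE.comp nc_re Computable.snd
    exact RE.all_mem (p := fun (_ : (List (List ℤ)) × (List (List (List ℤ)))) M => ∃ c', NC M c')
      (l := fun x => x.2) h1 Computable.snd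

theorem prod_list (c : List (List (List ℤ))) :
    ∏ k ∈ Finset.range c.length, toP (c.getD k []) = (c.map toP).prod := by
  induction c with
  | nil => simp
  | cons M c ih =>
    rw [List.length_cons, Finset.prod_range_succ', List.map_cons, List.prod_cons, ← ih, mul_comm]
    rfl

theorem nm_sound {L : List (List ℤ)} {c : List (List (List ℤ))} (h : NM L c) : (Zer L).Finite := by
  obtain ⟨h1, h2⟩ := h
  rw [prod_list] at h1
  have h3 : (⋃ M ∈ {M | M ∈ c}, Zer M).Finite :=
    (List.finite_toSet c).biUnion fun M hM => by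
      obtain ⟨c', hc'⟩ := h2 M hM
      exact nc_sound hc'
  refine h3.subset fun p hp => ?_
  rw [mem_Zer, h1, map_list_prod, List.prod_eq_zero_iff, List.map_map, List.mem_map] at hp
  obtain ⟨M, hM, hz⟩ := hp
  rw [Set.mem_iUnion₂]
  exact ⟨M, hM, (mem_Zer M p).2 hz⟩

/-- the certificates for infinitely many zeros: a factor -/
def PM (L : List (List ℤ)) (c : List (List ℤ) × (List (List ℤ) × CT)) : Prop :=
  toP L = toP c.1 * toP c.2.1 ∧ PD c.1 c.2.2

theorem pm_re : REPred fun L => ∃ c, PM L c := by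
  refine RE.ex (p := PM) (RE.and ?_ ?_)
  · have p1 : Computable fun t : (List (List ℤ)) × (List (List ℤ) × (List (List ℤ) × CT)) => t.2.1 :=
      Computable.fst.comp Computable.snd
    have p2 : Computable fun t : (List (List ℤ)) × (List (List ℤ) × (List (List ℤ) × CT)) => t.2.2.1 :=
      Computable.fst.comp (Computable.snd.comp Computable.snd)
    exact (CB.eq (toP_cb Computable.fst) ((toP_cb p1).mul (toP_cb p2))).to_re
  · have p : Computable fun t : (List (List ℤ)) × (List (List ℤ) × (List (List ℤ) × CT)) =>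
        (t.2.1, t.2.2.2) :=
      Computable.pair (Computable.fst.comp Computable.snd)
        (Computable.snd.comp (Computable.snd.comp Computable.snd))
    exact RE.comp pd_cp.to_re p

theorem pm_sound {L : List (List ℤ)} {c : List (List ℤ) × (List (List ℤ) × CT)} (h : PM L c) :
    (Zer L).Infinite := by
  refine (pd_sound h.2).mono fun p hp => ?_
  rw [mem_Zer] at hp ⊢
  rw [h.1, map_mul, hp, zero_mul]

/-- **The algorithm.** -/
theorem main_alg3 : ∃ φ : List (List ℤ) →. Bool, Partrec φ ∧
    (∀ L, ∀ r ∈ φ L, (r = true ↔ (Zer L).Infinite)) ∧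
    (∀ A : ℤ, A ≠ 0 → (pts A).Infinite → ∀ L, Cv L A → true ∈ φ L) ∧
    (∀ A : ℤ, A ≠ 0 → gens A ≠ none → ∀ L, Mp (toP L) A → false ∈ φ L) ∧
    ∀ L L' L'' : List (List ℤ), toP L = toP L' * toP L'' →
      (false ∈ φ L' → false ∈ φ L'' → false ∈ φ L) ∧ (true ∈ φ L' → true ∈ φ L) := by
  have hf : Partrec fun L : List (List ℤ) =>
      (Part.assert (∃ c, PM L c) fun _ => Part.some ()).map (fun _ => true) :=
    Partrec.map pm_re (Computable.const true).to₂
  have hg : Partrec fun L : List (List ℤ) =>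
      (Part.assert (∃ c, NM L c) fun _ => Part.some ()).map (fun _ => false) :=
    Partrec.map nm_re (Computable.const false).to₂
  have mf : ∀ L x, x ∈ (Part.assert (∃ c, PM L c) fun _ => Part.some ()).map (fun _ => true) ↔
      x = true ∧ ∃ c, PM L c := by
    intro L x
    rw [Part.mem_map_iff]
    constructor
    · rintro ⟨u, hu, rfl⟩
      exact ⟨rfl, (Part.mem_assert_iff.1 hu).1⟩
    · rintro ⟨rfl, h⟩
      exact ⟨(), Part.mem_assert_iff.2 ⟨h, Part.mem_some _⟩, rfl⟩
  have mg : ∀ L x, x ∈ (Part.assert (∃ c, NM L c) fun _ => Part.some ()).map (fun _ => false) ↔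
      x = false ∧ ∃ c, NM L c := by
    intro L x
    rw [Part.mem_map_iff]
    constructor
    · rintro ⟨u, hu, rfl⟩
      exact ⟨rfl, (Part.mem_assert_iff.1 hu).1⟩
    · rintro ⟨rfl, h⟩
      exact ⟨(), Part.mem_assert_iff.2 ⟨h, Part.mem_some _⟩, rfl⟩
  obtain ⟨φ, hφ, hm⟩ := Partrec.merge hf hg (fun L x hx y hy => by
    obtain ⟨-, c, hc⟩ := (mf L x).1 hx
    obtain ⟨-, c', hc'⟩ := (mg L y).1 hy
    exact absurd (nm_sound hc') (pm_sound hc))
  have ht : ∀ L, true ∈ φ L ↔ ∃ c, PM L c := by
    intro L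
    rw [hm, mf, mg]
    simp
  have hff : ∀ L, false ∈ φ L ↔ ∃ c, NM L c := by
    intro L
    rw [hm, mf, mg]
    simp
  refine ⟨φ, hφ, fun L r hr => ?_, fun A hA h L hL => ?_, fun A hA h L hL => ?_,
    fun L L' L'' hL => ⟨fun h1 h2 => ?_, fun h1 => ?_⟩⟩
  · cases r
    · obtain ⟨c, hc⟩ := (hff L).1 hr
      exact ⟨fun h => Bool.noConfusion h, fun h => absurd (nm_sound hc) h⟩
    · obtain ⟨c, hc⟩ := (ht L).1 hr
      exact ⟨fun _ => pm_sound hc, fun _ => rfl⟩
  · obtain ⟨c, hc⟩ := pd_complete hA h hL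
    refine (ht L).2 ⟨(L, [[1]], c), ?_, hc⟩
    have e : toP [[1]] = 1 := by simp [toP]
    rw [e, mul_one]
  · obtain ⟨c, hc⟩ := nc_complete hA h hL
    refine (hff L).2 ⟨[L], ?_, fun M hM => ?_⟩
    · rw [prod_list]
      simp
    · rw [List.mem_singleton] at hM
      exact ⟨c, hM ▸ hc⟩
  · obtain ⟨c, hc, hc'⟩ := (hff L').1 h1
    obtain ⟨d, hd, hd'⟩ := (hff L'').1 h2
    refine (hff L).2 ⟨c ++ d, ?_, fun M hM => ?_⟩
    · rw [prod_list] at hc hd ⊢
      rw [List.map_append, List.prod_append, ← hc, ← hd, hL]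
    · rcases List.mem_append.1 hM with h | h
      · exact hc' M h
      · exact hd' M h
  · obtain ⟨⟨M, M', c⟩, hc, hc'⟩ := (ht L').1 h1
    simp only at hc hc'
    obtain ⟨M'', hM''⟩ := toP_surj (toP M' * toP L'')
    refine (ht L).2 ⟨(M, M'', c), ?_, hc'⟩
    rw [hL, hc]
    simp only
    rw [hM'', mul_assoc]

end Q155.AL
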