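import Pool.Agent.Q155.AL.Dec

/-! The identity is an admissible map -/

set_option autoImplicit false
set_option maxHeartbeats 400000

open scoped Classical

namespace Q155.AL

open Polynomial

theorem const_of_elim {F T U V U' V' : PP} {w v : ℤ[X]} (hw : w ≠ 0) (hv : v ≠ 0)
    (h1 : U * F + V * T = C w) (h2 : U' * F + V' * T = v.map C) {D : PP} (hF : D ∣ F) (hT : D ∣ T) :
    ∃ n : ℤ, D = C (C n) := by
  have d1 : D ∣ C w := h1 ▸ dvd_add (hF.mul_left U) (hT.mul_left V)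
  have d2 : D ∣ v.map C := h2 ▸ dvd_add (hF.mul_left U') (hT.mul_left V')
  have g1 : D.natDegree = 0 := by
    have := natDegree_le_of_dvd d1 (C_ne_zero.2 hw)
    rw [natDegree_C] at this
    omega
  obtain ⟨d, rfl⟩ : ∃ d, D = C d := ⟨_, eq_C_of_natDegree_eq_zero g1⟩
  rw [C_dvd_iff_dvd_coeff] at d2
  obtain ⟨i, hi⟩ : ∃ i, v.coeff i ≠ 0 := by
    by_contra hc
    push Not at hc
    exact hv (Polynomial.ext fun i => by rw [hc i, coeff_zero])
  have d3 := d2 i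
  rw [coeff_map] at d3
  have g2 : d.natDegree = 0 := by
    have := natDegree_le_of_dvd d3 (C_ne_zero.2 hi)
    rw [natDegree_C] at this
    omega
  exact ⟨_, congrArg C (eq_C_of_natDegree_eq_zero g2)⟩

theorem ne_aux {A : ℤ} : ((X : ℤ[X]) ^ 3 - C A) * X * (2 * X ^ 3 - C A) ≠ 0 := by
  have h1 : (X : ℤ[X]) ^ 3 - C A ≠ 0 := X_pow_sub_C_ne_zero (by norm_num) A
  have h2 : 2 * (X : ℤ[X]) ^ 3 - C A ≠ 0 := by
    intro h
    have h3 := congrArg (fun p : ℤ[X] => p.coeff 3) h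
    have e : (2 : ℤ[X]) = C 2 := rfl
    simp only [e, coeff_sub, coeff_C_mul, coeff_X_pow_self, coeff_C, coeff_zero] at h3
    norm_num at h3
  exact mul_ne_zero (mul_ne_zero h1 X_ne_zero) h2

/-- the polynomial of the cubic -/
theorem toP_cubL (A : ℤ) : toP (cubL A) = X ^ 3 + C X ^ 3 - C (C A) := by
  unfold toP cubL
  simp only [List.length_cons, List.length_nil, Finset.sum_range_succ,
    Finset.sum_range_zero, List.getD_cons_zero, List.getD_cons_succ]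
  simp only [map_neg, map_zero, map_one]
  ring

theorem mp_self (A : ℤ) : Mp (toP (cubL A)) A := by
  rw [toP_cubL]
  refine ⟨X, C X, 1, ⟨1, by ring⟩, fun D hF hT => ?_⟩
  obtain ⟨F, eF⟩ : ∃ F : PP, F = X ^ 3 + C X ^ 3 - C (C A) := ⟨_, rfl⟩
  obtain ⟨T, eT⟩ : ∃ T : PP, T = X * C X * 1 * (X - C X) := ⟨_, rfl⟩
  rw [← eF] at hF
  rw [← eT] at hT
  refine const_of_elim (w := ((X : ℤ[X]) ^ 3 - C A) * X * (2 * X ^ 3 - C A))
    (v := ((X : ℤ[X]) ^ 3 - C A) * X * (2 * X ^ 3 - C A)) ne_aux ne_aux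
    (U := (2 * C X ^ 3 - C (C A) - C X ^ 2 * X) * C X)
    (V := -(2 * C X ^ 3 - C (C A) - C X ^ 2 * X) * (X + C X) + C X ^ 4)
    (U' := (2 * X ^ 3 - C (C A) - X ^ 2 * C X) * X)
    (V' := (2 * X ^ 3 - C (C A) - X ^ 2 * C X) * (X + C X) - X ^ 4) ?_ ?_ hF hT
  · rw [eF, eT]
    have e2 : (C (2 : ℤ[X]) : PP) = 2 := rfl
    simp only [map_mul, map_sub, map_pow, e2]
    ring
  · rw [eF, eT]
    simp only [Polynomial.map_mul, Polynomial.map_sub, Polynomial.map_pow, map_X, map_C,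
      Polynomial.map_ofNat]
    ring

end Q155.AL
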