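import Pool.Agent.Q155.AL.Poly

/-! Powers and sums of computable families of polynomials, homogeneous substitution -/

set_option autoImplicit false
set_option maxHeartbeats 400000

namespace Q155.AL

open Polynomial Pool.Agent.Helper446 Pool.Agent.W960.GA

section

variable {α β : Type} [Primcodable α] [Primcodable β]

/-- selection for total relations -/
theorem sel {r : α → β → Prop} (hr : REPred fun x : α × β => r x.1 x.2) (ht : ∀ a, ∃ b, r a b) :
    ∃ f : α → β, Computable f ∧ ∀ a, r a (f a) := by
  obtain ⟨g, hg, h1, h2⟩ := RE.uniformize hr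
  have hd : ∀ a, (g a).Dom := fun a => (h1 a).2 (ht a)
  exact ⟨fun a => (g a).get (hd a), hg.of_eq_tot fun a => Part.get_mem (hd a),
    fun a => h2 a _ (Part.get_mem (hd a))⟩

/-- lists for a computable family -/
theorem CB.rep {F : α → PP} (hF : CB F) :
    ∃ l : α → List (List ℤ), Computable l ∧ ∀ a, toP (l a) = F a := by
  refine sel (r := fun a l => toP l = F a) ?_ fun a => toP_surj (F a)
  have h1 : CB fun x : α × List (List ℤ) => toP x.2 := toP_cb Computable.snd
  have h2 : CB fun x : α × List (List ℤ) => F x.1 := hF.comp Computable.fst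
  exact (CB.eq h1 h2).to_re

theorem ex_mul : ∃ m : List (List ℤ) × List (List ℤ) → List (List ℤ), Computable m ∧
    ∀ t, toP (m t) = toP t.1 * toP t.2 :=
  (CB.mul (toP_cb Computable.fst) (toP_cb Computable.snd)).rep

theorem CB.pow {F : α → PP} (hF : CB F) {k : α → ℕ} (hk : Computable k) :
    CB fun a => F a ^ k a := by
  obtain ⟨l, hl, hlF⟩ := hF.rep
  obtain ⟨m, hm, hmt⟩ := ex_mul
  have p : Computable fun t : α × (ℕ × List (List ℤ)) => (t.2.2, l t.1) :=
    Computable.pair (Computable.snd.comp Computable.snd) (hl.comp Computable.fst)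
  have p' := hm.comp p
  have h : Computable₂ fun (a : α) (q : ℕ × List (List ℤ)) => m (q.2, l a) := p'
  have h1 := Computable.nat_rec hk (Computable.const ([[1]] : List (List ℤ))) h
  have h2 := toP_cb h1
  have e : (fun a => F a ^ k a) = fun a =>
      toP (Nat.rec ([[1]] : List (List ℤ)) (fun y IH => m ((y, IH).2, l a)) (k a)) := by
    funext a
    induction k a with
    | zero => simp [toP]
    | succ n ih =>
      rw [pow_succ, ih]
      show _ = toP (m (_, l a))
      rw [hmt, hlF]
  rw [e]
  exact h2

theorem CB.sum {F : α × ℕ → PP} (hF : CB F) {n : α → ℕ} (hn : Computable n) :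
    CB fun a => ∑ k ∈ Finset.range (n a), F (a, k) := by
  obtain ⟨B, hB, h⟩ := hF.bd
  have e : ∀ (a : α) i j, cf2 (∑ k ∈ Finset.range (n a), F (a, k)) i j =
      ∑ k ∈ Finset.range (n a), cf2 (F (a, k)) i j := by
    intro a i j
    unfold cf2
    rw [finset_sum_coeff, finset_sum_coeff]
  refine ⟨?_, fun a => ∑ k ∈ Finset.range (n a), B (a, k), nsum hn hB, fun a i j hij => ?_⟩
  · have p : Computable fun t : (α × (ℕ × ℕ)) × ℕ => ((t.1.1, t.2), t.1.2) :=
      Computable.pair (Computable.pair (Computable.fst.comp Computable.fst) Computable.snd)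
        (Computable.snd.comp Computable.fst)
    have q := hF.coef.comp p
    have r : Computable fun t : α × (ℕ × ℕ) => n t.1 := hn.comp Computable.fst
    exact (csum (f := fun t : α × (ℕ × ℕ) => n t.1)
      (g := fun t k => cf2 (F (t.1, k)) t.2.1 t.2.2) r q).of_eq fun t => (e _ _ _).symm
  · rw [e] at hij
    obtain ⟨k, hk, hne⟩ := Finset.exists_ne_zero_of_sum_ne_zero hij
    have h1 := h (a, k) i j hne
    have h2 : B (a, k) ≤ ∑ k ∈ Finset.range (n a), B (a, k) :=
      Finset.single_le_sum (f := fun k => B (a, k)) (fun _ _ => Nat.zero_le _) hk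
    exact ⟨h1.1.trans_le h2, h1.2.trans_le h2⟩

end

/-- a bound for the degrees -/
def dg (L : List (List ℤ)) : ℕ := L.length + ∑ i ∈ Finset.range L.length, (L.getD i []).length

theorem dg_comp : Computable dg := by
  have hg : Computable fun t : (List (List ℤ)) × ℕ => t.1.getD t.2 [] :=
    (Primrec.list_getD (α := List ℤ) []).to_comp
  have hlen : Computable fun l : List (List ℤ) => l.length := Primrec.list_length.to_comp
  have hlen' : Computable fun l : List ℤ => l.length := Primrec.list_length.to_comp
  exact nadd hlen (nsum hlen (hlen'.comp hg))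

theorem dg_le {L : List (List ℤ)} {i j : ℕ} (h1 : i < L.length) (h2 : j < (L.getD i []).length) :
    i + j ≤ dg L := by
  have h3 : (L.getD i []).length ≤ ∑ i ∈ Finset.range L.length, (L.getD i []).length :=
    Finset.single_le_sum (f := fun i => (L.getD i []).length) (fun _ _ => Nat.zero_le _)
      (Finset.mem_range.2 h1)
  unfold dg
  omega

/-- the homogeneous substitution -/
noncomputable def hom (N : ℕ) (L : List (List ℤ)) (U V W : PP) : PP :=
  ∑ i ∈ Finset.range L.length, ∑ j ∈ Finset.range (L.getD i []).length,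
    C (C ((L.getD i []).getD j 0)) * U ^ i * V ^ j * W ^ (N - i - j)

theorem hom_cb {α : Type} [Primcodable α] {N : α → ℕ} {L : α → List (List ℤ)} {U V W : α → PP}
    (hN : Computable N) (hL : Computable L) (hU : CB U) (hV : CB V) (hW : CB W) :
    CB fun a => hom (N a) (L a) (U a) (V a) (W a) := by
  have hg : Computable fun t : (List (List ℤ)) × ℕ => t.1.getD t.2 [] :=
    (Primrec.list_getD (α := List ℤ) []).to_comp
  have hg' : Computable fun t : (List ℤ) × ℕ => t.1.getD t.2 0 :=
    (Primrec.list_getD (α := ℤ) 0).to_comp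
  have hlen : Computable fun l : List (List ℤ) => l.length := Primrec.list_length.to_comp
  have hlen' : Computable fun l : List ℤ => l.length := Primrec.list_length.to_comp
  have a1 : Computable fun t : (α × ℕ) × ℕ => t.1.1 := Computable.fst.comp Computable.fst
  have a2 : Computable fun t : (α × ℕ) × ℕ => t.1.2 := Computable.snd.comp Computable.fst
  have a3 : Computable fun t : (α × ℕ) × ℕ => t.2 := Computable.snd
  have p1 : Computable fun t : (α × ℕ) × ℕ => (L t.1.1, t.1.2) := Computable.pair (hL.comp a1) a2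
  have p2 := hg.comp p1
  have p3 : Computable fun t : (α × ℕ) × ℕ => ((L t.1.1).getD t.1.2 [], t.2) :=
    Computable.pair p2 a3
  have p4 := hg'.comp p3
  have b1 : CB fun t : (α × ℕ) × ℕ => (C (C (((L t.1.1).getD t.1.2 []).getD t.2 0)) : PP) :=
    CB.const p4
  have b2 : CB fun t : (α × ℕ) × ℕ => U t.1.1 ^ t.1.2 := (hU.comp a1).pow a2
  have b3 : CB fun t : (α × ℕ) × ℕ => V t.1.1 ^ t.2 := (hV.comp a1).pow a3
  have b4 : CB fun t : (α × ℕ) × ℕ => W t.1.1 ^ (N t.1.1 - t.1.2 - t.2) :=
    (hW.comp a1).pow (nsub (nsub (hN.comp a1) a2) a3)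
  have b5 := ((b1.mul b2).mul b3).mul b4
  have q1 : Computable fun t : α × ℕ => (L t.1, t.2) :=
    Computable.pair (hL.comp Computable.fst) Computable.snd
  have q2 : Computable fun t : α × ℕ => ((L t.1).getD t.2 []).length := hlen'.comp (hg.comp q1)
  have b6 := CB.sum b5 q2
  exact CB.sum b6 (hlen.comp hL)

end Q155.AL
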