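import Pool.Agent.Q155.AL.Own
import Pool.Agent.Q155.AL.Pow

/-! Curves covered by a cubic: the cubic is irreducible, infinitely many zeros -/

set_option autoImplicit false
set_option maxHeartbeats 400000

open scoped Classical

namespace Q155.AL

open Polynomial Pool.Agent.Helper446 Pool.Agent.W960.GA

/-- the polynomial of the cubic -/
noncomputable def FA (A : ℤ) : PP := X ^ 3 + C X ^ 3 - C (C A)

theorem FA_eq (A : ℤ) : FA A = X ^ 3 + C (X ^ 3 - C A) := by
  unfold FA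
  rw [C_sub, C_pow]
  ring

theorem evR_FA {A : ℤ} {p : ℚ × ℚ} (hp : p ∈ pts A) : evR p.1 p.2 (FA A) = 0 := by
  unfold FA
  rw [map_sub, map_add, map_pow, map_pow, evR_X, evR_CX, evR_CC]
  have h : p.1 ^ 3 + p.2 ^ 3 = (A : ℚ) := hp
  rw [h, sub_self]

theorem sq_free {A : ℤ} (hA : A ≠ 0) {p : ℤ[X]} (hp : ¬ IsUnit p) (h : p ^ 2 ∣ X ^ 3 - C A) :
    False := by
  obtain ⟨r, hr⟩ := h
  have hd : p ∣ derivative (X ^ 3 - C A) := by
    rw [hr, derivative_mul, pow_two, derivative_mul]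
    exact ⟨(derivative p + derivative p) * r + p * derivative r, by ring⟩
  have hd2 : derivative (X ^ 3 - C A) = 3 * X ^ 2 := by
    rw [derivative_sub, derivative_C, sub_zero, derivative_X_pow]
    norm_num
  have h1 : p ∣ X ^ 3 - C A := ⟨p * r, by rw [hr]; ring⟩
  have h2 : p ∣ C (-(3 * A)) := by
    have e : C (-(3 * A)) = 3 * (X ^ 3 - C A) - X * (3 * X ^ 2) := by
      have e3 : (C (3 : ℤ) : ℤ[X]) = 3 := rfl
      rw [C_neg, C_mul, e3]
      ring
    rw [e]
    exact dvd_sub (h1.mul_left 3) ((hd2 ▸ hd).mul_left X)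
  have h3 : p.natDegree = 0 := by
    have := natDegree_le_of_dvd h2 (C_ne_zero.2 (by omega))
    rw [natDegree_C] at this
    omega
  rw [eq_C_of_natDegree_eq_zero h3] at h1 hp
  rw [C_dvd_iff_dvd_coeff] at h1
  have h4 := h1 3
  rw [coeff_sub, coeff_X_pow_self, coeff_C, if_neg (by norm_num), sub_zero] at h4
  exact hp (isUnit_C.2 (isUnit_of_dvd_one h4))

theorem irr {A : ℤ} (hA : A ≠ 0) : Irreducible (FA A) := by
  have hm : (X ^ 3 - C A : ℤ[X]).Monic := monic_X_pow_sub_C A (by norm_num)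
  have hn : (X ^ 3 - C A : ℤ[X]).natDegree = 3 := natDegree_X_pow_sub_C
  obtain ⟨p, hp, hpd⟩ := WfDvdMonoid.exists_irreducible_factor (a := (X ^ 3 - C A : ℤ[X]))
    (fun hu => by
      have := natDegree_eq_zero_of_isUnit hu
      omega) hm.ne_zero
  rw [FA_eq]
  have hp0 : p ≠ 0 := hp.ne_zero
  refine irreducible_of_eisenstein_criterion (P := Ideal.span {p})
    ((Ideal.span_singleton_prime hp0).2 hp.prime) ?_ ?_ ?_ ?_ ?_
  · rw [(monic_X_pow_add_C _ (by norm_num : (3 : ℕ) ≠ 0)).leadingCoeff]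
    rw [Ideal.mem_span_singleton]
    exact fun h => hp.not_isUnit (isUnit_of_dvd_one h)
  · intro n hn'
    have h3 : (X ^ 3 + C (X ^ 3 - C A) : PP).degree = 3 := degree_X_pow_add_C (by norm_num) _
    rw [h3] at hn'
    have h4 : n < 3 := by exact_mod_cast hn'
    rw [Ideal.mem_span_singleton, coeff_add, coeff_X_pow, if_neg (by omega), zero_add, coeff_C]
    split_ifs
    · exact hpd
    · exact dvd_zero _
  · have h3 : (X ^ 3 + C (X ^ 3 - C A) : PP).degree = 3 := degree_X_pow_add_C (by norm_num) _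
    rw [h3]
    norm_num
  · rw [coeff_add, coeff_X_pow, if_neg (by norm_num), zero_add, coeff_C_zero,
      Ideal.span_singleton_pow, Ideal.mem_span_singleton]
    exact fun h => sq_free hA hp.not_isUnit h
  · exact (monic_X_pow_add_C _ (by norm_num : (3 : ℕ) ≠ 0)).isPrimitive

theorem fin_zeros {A : ℤ} (hA : A ≠ 0) {G : PP} (hG : ¬ FA A ∣ G) :
    {p ∈ pts A | evR p.1 p.2 G = 0}.Finite := by
  have h : ∀ D : PP, D ∣ FA A → D ∣ G → ∃ n : ℤ, D = C (C n) := by
    rintro D ⟨E, hE⟩ hDG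
    rcases (irr hA).isUnit_or_isUnit hE with hu | hu
    · obtain ⟨r, hr, rfl⟩ := Polynomial.isUnit_iff.1 hu
      obtain ⟨s, hs, rfl⟩ := Polynomial.isUnit_iff.1 hr
      exact ⟨s, rfl⟩
    · exfalso
      apply hG
      have h1 : FA A ∣ D := by
        rw [hE]
        exact hu.mul_right_dvd.2 dvd_rfl
      exact h1.trans hDG
  obtain ⟨⟨U, V, w, hw, h1⟩, U', V', v, hv, h2⟩ := bez2 h
  refine ((fin_roots hv).prod (fin_roots hw)).subset fun p hp => ?_
  have hF := evR_FA hp.1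
  have k1 := congrArg (evR p.1 p.2) h1
  have k2 := congrArg (evR p.1 p.2) h2
  rw [map_add, map_mul, map_mul, hF, hp.2, mul_zero, mul_zero, add_zero, evR_C] at k1
  rw [map_add, map_mul, map_mul, hF, hp.2, mul_zero, mul_zero, add_zero, evR_map] at k2
  exact ⟨k2.symm, k1.symm⟩

/-- the homogeneous substitution of numbers -/
def hq (N : ℕ) (L : List (List ℤ)) (u v w : ℚ) : ℚ :=
  ∑ i ∈ Finset.range L.length, ∑ j ∈ Finset.range (L.getD i []).length,
    (((L.getD i []).getD j 0 : ℤ) : ℚ) * u ^ i * v ^ j * w ^ (N - i - j)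

theorem evR_hom (x y : ℚ) (N : ℕ) (L : List (List ℤ)) (U V W : PP) :
    evR x y (hom N L U V W) = hq N L (evR x y U) (evR x y V) (evR x y W) := by
  unfold hom hq
  simp only [map_sum, map_mul, map_pow, evR_CC]

theorem hq_eq {N : ℕ} {L : List (List ℤ)} {u v w : ℚ} (hw : w ≠ 0)
    (hN : ∀ i j, (L.getD i []).getD j 0 ≠ 0 → i + j ≤ N) :
    hq N L u v w = w ^ N * evR (u / w) (v / w) (toP L) := by
  rw [evR_toP]
  unfold hq
  rw [Finset.mul_sum]
  refine Finset.sum_congr rfl fun i _ => ?_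
  rw [Finset.mul_sum]
  refine Finset.sum_congr rfl fun j _ => ?_
  by_cases h : (L.getD i []).getD j 0 = 0
  · rw [h]
    simp
  · have h1 := hN i j h
    have e : w ^ N = w ^ (N - i - j) * w ^ i * w ^ j := by
      rw [← pow_add, ← pow_add]
      congr 1
      omega
    rw [e, div_pow, div_pow]
    field_simp

theorem dg_bd {L : List (List ℤ)} {N : ℕ} (h : dg L ≤ N) (i j : ℕ)
    (hij : (L.getD i []).getD j 0 ≠ 0) : i + j ≤ N := by
  have h1 : i < L.length := by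
    by_contra h
    rw [List.getD_eq_default _ _ (not_lt.1 h)] at hij
    simp at hij
  have h2 : j < (L.getD i []).length := by
    by_contra h
    rw [List.getD_eq_default _ _ (not_lt.1 h)] at hij
    exact hij rfl
  exact (dg_le h1 h2).trans h

theorem hom_add {N m : ℕ} {L : List (List ℤ)} {U V W : PP}
    (hN : ∀ i j, (L.getD i []).getD j 0 ≠ 0 → i + j ≤ N) :
    hom (N + m) L U V W = hom N L U V W * W ^ m := by
  unfold hom
  rw [Finset.sum_mul]
  refine Finset.sum_congr rfl fun i _ => ?_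
  rw [Finset.sum_mul]
  refine Finset.sum_congr rfl fun j _ => ?_
  by_cases h : (L.getD i []).getD j 0 = 0
  · rw [h]
    simp
  · have h1 := hN i j h
    have e : N + m - i - j = N - i - j + m := by omega
    rw [e, pow_add]
    ring

/-- the cubic covers the curve -/
def Cv (L : List (List ℤ)) (A : ℤ) : Prop :=
  ∃ (U V W : PP) (N : ℕ), (∀ i j, (L.getD i []).getD j 0 ≠ 0 → i + j ≤ N) ∧
    FA A ∣ hom N L U V W ∧ ¬ FA A ∣ W ∧ ∀ a b c : ℤ, c ≠ 0 →
      ¬ (FA A ∣ C (C c) * U - C (C a) * W ∧ FA A ∣ C (C c) * V - C (C b) * W)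

theorem inf_S {A : ℤ} (hA : A ≠ 0) (hinf : (pts A).Infinite) {W : PP} (hW : ¬ FA A ∣ W) :
    {p ∈ pts A | evR p.1 p.2 W ≠ 0}.Infinite := by
  intro h
  refine hinf ((h.union (fin_zeros hA hW)).subset fun p hp => ?_)
  by_cases g : evR p.1 p.2 W = 0
  · exact Or.inr ⟨hp, g⟩
  · exact Or.inl ⟨hp, g⟩

theorem evR_lin (x y : ℚ) (c a : ℤ) (U W : PP) : evR x y (C (C c) * U - C (C a) * W) =
    (c : ℚ) * evR x y U - (a : ℚ) * evR x y W := by
  rw [map_sub, map_mul, map_mul, evR_CC, evR_CC]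

/-- constant quotients -/
theorem const_q {A : ℤ} (hA : A ≠ 0) {T : Set (ℚ × ℚ)} (hT : T.Infinite) (hTA : T ⊆ pts A)
    {U V W : PP} (x y : ℚ) (hU : ∀ p ∈ T, evR p.1 p.2 U = x * evR p.1 p.2 W)
    (hV : ∀ p ∈ T, evR p.1 p.2 V = y * evR p.1 p.2 W) :
    ∃ a b c : ℤ, c ≠ 0 ∧ FA A ∣ C (C c) * U - C (C a) * W ∧ FA A ∣ C (C c) * V - C (C b) * W := by
  have hx : (x.den : ℚ) ≠ 0 := by exact_mod_cast x.den_ne_zero
  have hy : (y.den : ℚ) ≠ 0 := by exact_mod_cast y.den_ne_zero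
  refine ⟨x.num * y.den, y.num * x.den, x.den * y.den, ?_, ?_, ?_⟩
  · have h1 := x.den_ne_zero
    have h2 := y.den_ne_zero
    positivity
  · by_contra hc
    refine hT ((fin_zeros hA hc).subset fun p hp => ⟨hTA hp, ?_⟩)
    rw [evR_lin, hU p hp]
    push_cast
    have e : (x.den : ℚ) * x = x.num := by
      rw [mul_comm]
      exact Rat.mul_den_eq_num x
    linear_combination (y.den : ℚ) * evR p.1 p.2 W * e
  · by_contra hc
    refine hT ((fin_zeros hA hc).subset fun p hp => ⟨hTA hp, ?_⟩)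
    rw [evR_lin, hV p hp]
    push_cast
    have e : (y.den : ℚ) * y = y.num := by
      rw [mul_comm]
      exact Rat.mul_den_eq_num y
    linear_combination (x.den : ℚ) * evR p.1 p.2 W * e

/-- infinitely many zeros -/
theorem inf_core {A : ℤ} (hA : A ≠ 0) (hinf : (pts A).Infinite) {N : ℕ} {L : List (List ℤ)}
    {U V W : PP} (hN : ∀ i j, (L.getD i []).getD j 0 ≠ 0 → i + j ≤ N)
    (hd : FA A ∣ hom N L U V W) (hW : ¬ FA A ∣ W)
    (hnc : ∀ a b c : ℤ, c ≠ 0 →
      ¬ (FA A ∣ C (C c) * U - C (C a) * W ∧ FA A ∣ C (C c) * V - C (C b) * W)) :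
    (Zer L).Infinite := by
  intro hfin
  have hS := inf_S hA hinf hW
  obtain ⟨Φ, hΦ⟩ : ∃ Φ : ℚ × ℚ → ℚ × ℚ, ∀ p, Φ p =
      (evR p.1 p.2 U / evR p.1 p.2 W, evR p.1 p.2 V / evR p.1 p.2 W) := ⟨_, fun _ => rfl⟩
  have hmap : ∀ p ∈ {p ∈ pts A | evR p.1 p.2 W ≠ 0}, Φ p ∈ Zer L := by
    rintro p ⟨hp, hw⟩
    rw [mem_Zer, hΦ]
    obtain ⟨G, hG⟩ := hd
    have h1 := congrArg (evR p.1 p.2) hG
    rw [evR_hom, map_mul, evR_FA hp, zero_mul, hq_eq hw hN] at h1
    exact (mul_eq_zero.1 h1).resolve_left (pow_ne_zero _ hw)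
  have hq : ∃ q ∈ Zer L, {p ∈ pts A | evR p.1 p.2 W ≠ 0 ∧ Φ p = q}.Infinite := by
    by_contra hc
    push Not at hc
    apply hS
    refine (hfin.biUnion fun q hq => hc q hq).subset fun p hp => ?_
    rw [Set.mem_iUnion₂]
    exact ⟨Φ p, hmap p hp, hp.1, hp.2, rfl⟩
  obtain ⟨q, -, hinf'⟩ := hq
  obtain ⟨a, b, c, hc, h1, h2⟩ := const_q hA hinf' (fun p hp => hp.1) q.1 q.2
    (U := U) (V := V) (W := W) (fun p hp => by
      have h := congrArg Prod.fst ((hΦ p).symm.trans hp.2.2)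
      simp only at h
      rw [← h, div_mul_cancel₀ _ hp.2.1]) (fun p hp => by
      have h := congrArg Prod.snd ((hΦ p).symm.trans hp.2.2)
      simp only at h
      rw [← h, div_mul_cancel₀ _ hp.2.1])
  exact hnc a b c hc ⟨h1, h2⟩

end Q155.AL
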