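import Mathlib
import Pool.Agent.Y703.CT.Defs

/-! Primitive recursive forms of the criterion for cubic twists -/

set_option autoImplicit false

namespace Q155.AL

open Primrec

variable {α : Type} [Primcodable α]

theorem exL {f : α → ℕ} {R : α → ℕ → Prop} (hf : Primrec f) (hR : PrimrecRel R) :
    PrimrecPred fun a => ∃ x, x < f a ∧ R a x :=
  ((hR.swap.exists_mem_list).comp (list_range.comp hf) Primrec.id).of_eq fun a => by
    simp [Function.swap]

theorem faL {f : α → ℕ} {R : α → ℕ → Prop} (hf : Primrec f) (hR : PrimrecRel R) :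
    PrimrecPred fun a => ∀ x, x < f a → R a x :=
  ((hR.swap.forall_mem_list).comp (list_range.comp hf) Primrec.id).of_eq fun a => by
    simp [Function.swap]

theorem imp {p q : α → Prop} (hp : PrimrecPred p) (hq : PrimrecPred q) :
    PrimrecPred fun a => p a → q a :=
  (hp.not.or hq).of_eq fun a => by tauto

theorem eqP {f g : α → ℕ} (hf : Primrec f) (hg : Primrec g) : PrimrecPred fun a => f a = g a :=
  Primrec.eq.comp hf hg

theorem leP {f g : α → ℕ} (hf : Primrec f) (hg : Primrec g) : PrimrecPred fun a => f a ≤ g a :=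
  nat_le.comp hf hg

theorem dvP {f g : α → ℕ} (hf : Primrec f) (hg : Primrec g) : PrimrecPred fun a => f a ∣ g a :=
  (eqP (nat_mod.comp hg hf) (const 0)).of_eq fun _ => (Nat.dvd_iff_mod_eq_zero).symm

theorem mulP {f g : α → ℕ} (hf : Primrec f) (hg : Primrec g) : Primrec fun a => f a * g a :=
  nat_mul.comp hf hg

theorem primeP {f : α → ℕ} (hf : Primrec f) : PrimrecPred fun a => (f a).Prime := by
  have h : PrimrecPred Nat.Prime := by
    have h1 : PrimrecPred fun p : ℕ => 2 ≤ p ∧ ∀ m, m < p → (m ∣ p → m = 1) :=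
      (leP (const 2) Primrec.id).and (faL Primrec.id (PrimrecPred.primrecRel
        (imp (dvP Primrec.snd Primrec.fst) (eqP Primrec.snd (const 1)))))
    exact h1.of_eq fun p => Nat.prime_def_lt.symm
  exact h.comp hf

theorem cube {f : α → ℕ} (hf : Primrec f) : Primrec fun a => f a ^ 3 :=
  (mulP (mulP hf hf) hf).of_eq fun a => by ring

theorem sqr {f : α → ℕ} (hf : Primrec f) : Primrec fun a => f a ^ 2 :=
  (mulP hf hf).of_eq fun a => by ring

open Pool.Agent.Y703.CT (Cls NoSplit Base)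

/-- the class is primitive recursive -/
theorem clsP : PrimrecPred Cls := by
  have hb : PrimrecPred Base := by
    have h1 : PrimrecPred fun D : ℕ => D ≠ 0 ∧ ¬ 3 ∣ D ∧ ∀ p, p < D + 1 → (p.Prime → ¬ p ^ 3 ∣ D) :=
      (eqP Primrec.id (const 0)).not.and ((dvP (const 3) Primrec.id).not.and
        (faL Primrec.succ (PrimrecPred.primrecRel
          (imp (primeP Primrec.snd) (dvP (cube Primrec.snd) Primrec.fst).not))))
    refine h1.of_eq fun D => ?_
    unfold Base
    refine and_congr_right fun h0 => and_congr_right fun _ => ?_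
    constructor
    · intro h p hp hd
      exact h p (Nat.lt_succ_of_le (Nat.le_of_dvd (Nat.pos_of_ne_zero h0)
        ((dvd_pow_self p (by norm_num)).trans hd))) hp hd
    · intro h p _ hp
      exact h p hp
  have h3 : PrimrecPred fun t : ℕ × ℕ =>
      ∀ p, p < t.1 + 1 → (p.Prime → (p ∣ t.1 → (p ≠ t.2 → p % 3 = 1))) :=
    faL (Primrec.succ.comp Primrec.fst) (PrimrecPred.primrecRel
      (imp (primeP Primrec.snd) (imp (dvP Primrec.snd (Primrec.fst.comp Primrec.fst))
        (imp (eqP Primrec.snd (Primrec.snd.comp Primrec.fst)).not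
          (eqP (nat_mod.comp Primrec.snd (const 3)) (const 1))))))
  have h4 : PrimrecRel fun D q : ℕ => q.Prime ∧ q % 3 = 2 ∧ q ∣ D ∧
      ∀ p, p < D + 1 → (p.Prime → (p ∣ D → (p ≠ q → p % 3 = 1))) :=
    PrimrecPred.primrecRel ((primeP Primrec.snd).and
      ((eqP (nat_mod.comp Primrec.snd (const 3)) (const 2)).and
        ((dvP Primrec.snd Primrec.fst).and h3)))
  have h2 : PrimrecPred fun D : ℕ => Base D ∧ D % 9 ≠ 1 ∧ D % 9 ≠ 8 ∧ ∃ q, q < D + 1 ∧
      (q.Prime ∧ q % 3 = 2 ∧ q ∣ D ∧ ∀ p, p < D + 1 → (p.Prime → (p ∣ D → (p ≠ q → p % 3 = 1)))) :=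
    hb.and ((eqP (nat_mod.comp Primrec.id (const 9)) (const 1)).not.and
      ((eqP (nat_mod.comp Primrec.id (const 9)) (const 8)).not.and
        (exL Primrec.succ h4)))
  refine h2.of_eq fun D => ?_
  unfold Cls
  refine and_congr_right fun hB => and_congr_right fun _ => and_congr_right fun _ => ?_
  have hle : ∀ q, q ∣ D → q < D + 1 := fun q h =>
    Nat.lt_succ_of_le (Nat.le_of_dvd (Nat.pos_of_ne_zero hB.1) h)
  constructor
  · rintro ⟨q, -, h1, h2, h3, h4⟩
    exact ⟨q, h1, h2, h3, fun p hp hd hne => h4 p (hle p hd) hp hd hne⟩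
  · rintro ⟨q, h1, h2, h3, h4⟩
    exact ⟨q, hle q h3, h1, h2, h3, fun p _ hp hd hne => h4 p hp hd hne⟩

/-- `a`, `b` have no common prime divisor `≤ D` -/
def Cop (D a b : ℕ) : Prop := ∀ p, p < D + 1 → (p.Prime → (p ∣ a → ¬ p ∣ b))

/-- `b c²` is a cube modulo the primes dividing `a` -/
def Cub (D a b c : ℕ) : Prop :=
  ∀ p, p < D + 1 → (p.Prime → (p ∣ a → ∃ x, x < p ∧ (b * c ^ 2) % p = x ^ 3 % p))

/-- the splittings -/
def Spl (D a b c : ℕ) : Prop :=
  a * b * c = D ∧ (Cop D a b ∧ Cop D b c ∧ Cop D c a) ∧ Cub D a b c ∧ Cub D b c a ∧ Cub D c a b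

theorem copP {D a b : α → ℕ} (hD : Primrec D) (ha : Primrec a) (hb : Primrec b) :
    PrimrecPred fun t => Cop (D t) (a t) (b t) :=
  faL (Primrec.succ.comp hD) (PrimrecPred.primrecRel (imp (primeP Primrec.snd)
    (imp (dvP Primrec.snd (ha.comp Primrec.fst)) (dvP Primrec.snd (hb.comp Primrec.fst)).not)))

theorem cubP {D a b c : α → ℕ} (hD : Primrec D) (ha : Primrec a) (hb : Primrec b) (hc : Primrec c) :
    PrimrecPred fun t => Cub (D t) (a t) (b t) (c t) :=
  faL (Primrec.succ.comp hD) (PrimrecPred.primrecRel (imp (primeP Primrec.snd)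
    (imp (dvP Primrec.snd (ha.comp Primrec.fst))
      (exL Primrec.snd (PrimrecPred.primrecRel
        (eqP (nat_mod.comp (mulP (hb.comp (Primrec.fst.comp Primrec.fst))
          (sqr (hc.comp (Primrec.fst.comp Primrec.fst)))) (Primrec.snd.comp Primrec.fst))
          (nat_mod.comp (cube Primrec.snd) (Primrec.snd.comp Primrec.fst))))))))

theorem splP {D a b c : α → ℕ} (hD : Primrec D) (ha : Primrec a) (hb : Primrec b) (hc : Primrec c) :
    PrimrecPred fun t => Spl (D t) (a t) (b t) (c t) :=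
  (eqP (mulP (mulP ha hb) hc) hD).and (((copP hD ha hb).and ((copP hD hb hc).and
    (copP hD hc ha))).and ((cubP hD ha hb hc).and ((cubP hD hb hc ha).and (cubP hD hc ha hb))))

theorem sumP {f : α → ℕ} {g : α → ℕ → ℕ} (hf : Primrec f) (hg : Primrec₂ g) :
    Primrec fun t => ∑ x ∈ Finset.range (f t), g t x := by
  have h : Primrec₂ fun (t : α) (p : ℕ × ℕ) => p.2 + g t p.1 :=
    nat_add.comp (Primrec.snd.comp Primrec.snd) (hg.comp Primrec.fst (Primrec.fst.comp Primrec.snd))
  refine (nat_rec' hf (const 0) h).of_eq fun t => ?_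
  induction f t with
  | zero => rfl
  | succ n ih => rw [Finset.sum_range_succ, ← ih]

open Classical in
/-- the number of splittings -/
noncomputable def spc (D : ℕ) : ℕ :=
  ∑ a ∈ Finset.range (D + 1), ∑ b ∈ Finset.range (D + 1), ∑ c ∈ Finset.range (D + 1),
    if Spl D a b c then 1 else 0

open Classical in
theorem spcP : Primrec spc := by
  have h3 : Primrec₂ fun (t : (ℕ × ℕ) × ℕ) (c : ℕ) => if Spl t.1.1 t.1.2 t.2 c then 1 else 0 :=
    Primrec.ite (splP (Primrec.fst.comp (Primrec.fst.comp Primrec.fst))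
      (Primrec.snd.comp (Primrec.fst.comp Primrec.fst)) (Primrec.snd.comp Primrec.fst) Primrec.snd)
      (const 1) (const 0)
  have h2 : Primrec₂ fun (t : ℕ × ℕ) (b : ℕ) => ∑ c ∈ Finset.range (t.1 + 1),
      if Spl t.1 t.2 b c then 1 else 0 :=
    sumP (α := (ℕ × ℕ) × ℕ) (Primrec.succ.comp (Primrec.fst.comp Primrec.fst)) h3
  have h1 : Primrec₂ fun (D : ℕ) (a : ℕ) => ∑ b ∈ Finset.range (D + 1),
      ∑ c ∈ Finset.range (D + 1), if Spl D a b c then 1 else 0 :=
    sumP (α := ℕ × ℕ) (Primrec.succ.comp Primrec.fst) h2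
  exact sumP (α := ℕ) Primrec.succ h1

end Q155.AL
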