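import Mathlib

/-! The tangent map on the cubics `X³ + Y³ = N` -/

set_option autoImplicit false

namespace Q155.AL

/-- the affine rational points of `X³ + Y³ = A` -/
def pts (A : ℤ) : Set (ℚ × ℚ) := {P | P.1 ^ 3 + P.2 ^ 3 = (A : ℚ)}

theorem cube_inj {x y : ℚ} (h : x ^ 3 = y ^ 3) : x = y :=
  (Odd.strictMono_pow (by decide : Odd 3)).injective h

/-- differences of cubes -/
theorem diff_ge {x y : ℤ} (hx : x ≠ 0) (hy : y ≠ 0) (h1 : x ≠ y) (h2 : x ≠ -y) :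
    4 ≤ |x ^ 3 - y ^ 3| := by
  have key : ∀ a b : ℤ, 0 < b → b < a → 4 ≤ a ^ 3 - b ^ 3 := by
    intro a b hb hab
    nlinarith [mul_pos hb hb, mul_pos hb (hb.trans hab), sq_nonneg (a - b),
      mul_self_nonneg (a - b - 1), mul_pos (sub_pos.2 hab) hb]
  have key2 : ∀ a b : ℤ, 0 < a → 0 < b → a ≠ b → 4 ≤ a ^ 3 + b ^ 3 := by
    intro a b ha hb hab
    rcases lt_or_gt_of_ne hab with h | h
    · have := key b a ha h
      nlinarith [pow_pos ha 3]
    · have := key a b hb h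
      nlinarith [pow_pos hb 3]
  rcases lt_or_gt_of_ne hx with hx | hx <;> rcases lt_or_gt_of_ne hy with hy | hy
  · rcases lt_or_gt_of_ne h1 with h | h
    · have := key (-x) (-y) (by omega) (by omega)
      have e : y ^ 3 - x ^ 3 = (-x) ^ 3 - (-y) ^ 3 := by ring
      rw [abs_sub_comm]
      exact (by rw [e]; exact this : (4 : ℤ) ≤ y ^ 3 - x ^ 3).trans (le_abs_self _)
    · have := key (-y) (-x) (by omega) (by omega)
      have e : x ^ 3 - y ^ 3 = (-y) ^ 3 - (-x) ^ 3 := by ring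
      exact (by rw [e]; exact this : (4 : ℤ) ≤ x ^ 3 - y ^ 3).trans (le_abs_self _)
  · have := key2 (-x) y (by omega) hy (by omega)
    have e : y ^ 3 - x ^ 3 = (-x) ^ 3 + y ^ 3 := by ring
    rw [abs_sub_comm]
    exact (by rw [e]; exact this : (4 : ℤ) ≤ y ^ 3 - x ^ 3).trans (le_abs_self _)
  · have := key2 x (-y) hx (by omega) h2
    have e : x ^ 3 - y ^ 3 = x ^ 3 + (-y) ^ 3 := by ring
    exact (by rw [e]; exact this : (4 : ℤ) ≤ x ^ 3 - y ^ 3).trans (le_abs_self _)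
  · rcases lt_or_gt_of_ne h1 with h | h
    · have := key y x hx h
      rw [abs_sub_comm]
      exact this.trans (le_abs_self _)
    · have := key x y hy h
      exact this.trans (le_abs_self _)

/-- the step -/
theorem step {x y z N : ℤ} (hz : 0 < z) (hxy : IsCoprime x y) (hxz : IsCoprime x z)
    (hyz : IsCoprime y z) (h : x ^ 3 + y ^ 3 = N * z ^ 3) (hd : 4 ≤ |x ^ 3 - y ^ 3|) {q : ℚ}
    (hq : q * ((z : ℚ) * ((x : ℚ) ^ 3 - (y : ℚ) ^ 3)) = (x : ℚ) * ((x : ℚ) ^ 3 + 2 * (y : ℚ) ^ 3)) :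
    2 * z ≤ q.den := by
  have hden : (q.den : ℤ) ≠ 0 := by exact_mod_cast q.den_ne_zero
  have h1 : q.num * (z * (x ^ 3 - y ^ 3)) = x * (x ^ 3 + 2 * y ^ 3) * q.den := by
    have h2 : (q.num : ℚ) = q * q.den := (Rat.mul_den_eq_num q).symm
    have h3 : ((q.num * (z * (x ^ 3 - y ^ 3)) : ℤ) : ℚ) =
        ((x * (x ^ 3 + 2 * y ^ 3) * q.den : ℤ) : ℚ) := by
      push_cast
      rw [h2]
      linear_combination (q.den : ℚ) * hq
    exact_mod_cast h3
  have hxd : IsCoprime x (x ^ 3 - y ^ 3) := by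
    have h2 : IsCoprime x (y ^ 3) := hxy.pow_right
    have e : x ^ 3 - y ^ 3 = -(y ^ 3) + x * x ^ 2 := by ring
    rw [e]
    exact (h2.neg_right).add_mul_left_right _
  have hyd : IsCoprime y (x ^ 3 - y ^ 3) := by
    have h2 : IsCoprime y (x ^ 3) := hxy.symm.pow_right
    have e : x ^ 3 - y ^ 3 = x ^ 3 + y * (-y ^ 2) := by ring
    rw [e]
    exact h2.add_mul_left_right _
  have hsz : IsCoprime (x ^ 3 + 2 * y ^ 3) z := by
    have h2 : IsCoprime (y ^ 3) z := hyz.pow_left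
    have e : x ^ 3 + 2 * y ^ 3 = y ^ 3 + z * (N * z ^ 2) := by linear_combination h
    rw [e]
    exact h2.add_mul_left_left _
  have hdv : z * (x ^ 3 - y ^ 3) ∣ (x ^ 3 + 2 * y ^ 3) * q.den := by
    have h2 : z * (x ^ 3 - y ^ 3) ∣ x * ((x ^ 3 + 2 * y ^ 3) * q.den) :=
      ⟨q.num, by linear_combination -h1⟩
    exact (hxz.mul_right hxd).symm.dvd_of_dvd_mul_left h2
  obtain ⟨e, he⟩ : z ∣ (q.den : ℤ) :=
    hsz.symm.dvd_of_dvd_mul_left ((dvd_mul_right _ _).trans hdv)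
  have he0 : 0 < e := by
    have h2 : (0 : ℤ) < q.den := by exact_mod_cast q.den_pos
    rw [he] at h2
    exact (mul_pos_iff_of_pos_left hz).1 h2
  have h3 : x ^ 3 - y ^ 3 ∣ (x ^ 3 + 2 * y ^ 3) * e := by
    rw [he] at hdv
    have h4 : z * (x ^ 3 - y ^ 3) ∣ z * ((x ^ 3 + 2 * y ^ 3) * e) := by
      refine hdv.trans (dvd_of_eq ?_)
      ring
    exact (mul_dvd_mul_iff_left hz.ne').1 h4
  have h5 : x ^ 3 - y ^ 3 ∣ 3 * e := by
    have h6 : x ^ 3 - y ^ 3 ∣ y ^ 3 * (3 * e) := by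
      have h7 : y ^ 3 * (3 * e) = (x ^ 3 + 2 * y ^ 3) * e - (x ^ 3 - y ^ 3) * e := by ring
      rw [h7]
      exact dvd_sub h3 (dvd_mul_right _ _)
    exact (hyd.symm.pow_right (n := 3)).dvd_of_dvd_mul_left h6
  have h8 : |x ^ 3 - y ^ 3| ≤ 3 * e := by
    have h9 := Int.le_of_dvd (by omega : 0 < 3 * e) ((abs_dvd _ _).2 h5)
    exact h9
  have he2 : 2 ≤ e := by omega
  rw [he]
  nlinarith [mul_le_mul_of_nonneg_left he2 hz.le]

theorem den_cube (q : ℚ) : (q ^ 3).den = q.den ^ 3 := Rat.den_pow q 3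

/-- integral points and cubes -/
theorem int_of_cube {q : ℚ} {n : ℤ} (h : q ^ 3 = (n : ℚ)) : ∃ k : ℤ, q = k ∧ k ^ 3 = n := by
  have h1 : (q ^ 3).den = 1 := by rw [h]; rfl
  rw [den_cube] at h1
  have h2 : q.den = 1 := (Nat.pow_eq_one.1 h1).resolve_right (by norm_num)
  refine ⟨q.num, ((Rat.den_eq_one_iff q).1 h2).symm, ?_⟩
  have h3 : ((q.num : ℤ) : ℚ) ^ 3 = (n : ℚ) := by rw [(Rat.den_eq_one_iff q).1 h2, h]
  exact_mod_cast h3

theorem den_eq {N : ℤ} {P : ℚ × ℚ} (hP : P ∈ pts N) : P.1.den = P.2.den := by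
  have h1 : P.1 ^ 3 = (N : ℚ) - P.2 ^ 3 := by
    have := hP
    unfold pts at this
    rw [Set.mem_setOf_eq] at this
    linear_combination this
  have h2 : P.1.den ^ 3 = P.2.den ^ 3 := by
    rw [← den_cube, ← den_cube, h1, Rat.intCast_sub_den]
  exact Nat.pow_left_injective (by norm_num : 3 ≠ 0) h2

/-- the tangent -/
theorem tan_step {N : ℤ} (hN0 : N ≠ 0) (hN1 : N ≠ 1) (hcf : ∀ p : ℕ, p.Prime → ¬ (p : ℤ) ^ 3 ∣ N)
    (hpos : 0 < N) {P : ℚ × ℚ} (hP : P ∈ pts N) (hne : P.1 ≠ P.2) :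
    ∃ Q ∈ pts N, Q.1 ≠ Q.2 ∧ P.1.den < Q.1.den := by
  obtain ⟨X, Y⟩ := P
  have hXY : X ^ 3 + Y ^ 3 = (N : ℚ) := hP
  have hden : X.den = Y.den := den_eq hP
  simp only at hne
  -- coordinates
  obtain ⟨x, hx⟩ : ∃ x, x = X.num := ⟨_, rfl⟩
  obtain ⟨y, hy⟩ : ∃ y, y = Y.num := ⟨_, rfl⟩
  obtain ⟨z, hz⟩ : ∃ z : ℤ, z = X.den := ⟨_, rfl⟩
  have hz0 : 0 < z := by rw [hz]; exact_mod_cast X.den_pos
  have hzq : (z : ℚ) ≠ 0 := by exact_mod_cast hz0.ne'
  have hXz : X * z = x := by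
    rw [hz, hx]
    push_cast
    exact Rat.mul_den_eq_num X
  have hYz : Y * z = y := by
    rw [hz, hy, hden]
    push_cast
    exact Rat.mul_den_eq_num Y
  have hxz : IsCoprime x z := by
    rw [hx, hz]
    have h := X.reduced
    rw [Int.isCoprime_iff_gcd_eq_one]
    exact h
  have hyz : IsCoprime y z := by
    rw [hy, hz, hden]
    have h := Y.reduced
    rw [Int.isCoprime_iff_gcd_eq_one]
    exact h
  have heq : x ^ 3 + y ^ 3 = N * z ^ 3 := by
    have h1 : (x : ℚ) ^ 3 + (y : ℚ) ^ 3 = (N : ℚ) * (z : ℚ) ^ 3 := by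
      rw [← hXz, ← hYz]
      linear_combination (z : ℚ) ^ 3 * hXY
    exact_mod_cast h1
  have hxy : IsCoprime x y := by
    rw [Int.isCoprime_iff_gcd_eq_one]
    by_contra hg
    obtain ⟨p, hp, hpg⟩ := Nat.exists_prime_and_dvd hg
    have hpx : (p : ℤ) ∣ x := (Int.natCast_dvd_natCast.2 hpg).trans (Int.gcd_dvd_left _ _)
    have hpy : (p : ℤ) ∣ y := (Int.natCast_dvd_natCast.2 hpg).trans (Int.gcd_dvd_right _ _)
    have hpz : ¬ (p : ℤ) ∣ z := by
      intro h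
      have h1 := hxz.isUnit_of_dvd' hpx h
      rw [Int.isUnit_iff] at h1
      have := hp.two_le
      omega
    have h3 : (p : ℤ) ^ 3 ∣ N * z ^ 3 := by
      rw [← heq]
      exact dvd_add (pow_dvd_pow_of_dvd hpx 3) (pow_dvd_pow_of_dvd hpy 3)
    have h4 : IsCoprime ((p : ℤ) ^ 3) (z ^ 3) :=
      (((Nat.prime_iff_prime_int.1 hp).coprime_iff_not_dvd.2 hpz).pow_left).pow_right
    exact hcf p hp (h4.dvd_of_dvd_mul_right h3)
  have hxy' : x ≠ y := by
    intro h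
    apply hne
    have : X * z = Y * z := by rw [hXz, hYz, h]
    exact mul_right_cancel₀ hzq this
  have hcube1 : ∀ Z : ℚ, Z ^ 3 = (N : ℚ) → False := by
    intro Z hZ
    obtain ⟨k, -, hk⟩ := int_of_cube hZ
    have hk1 : k.natAbs ≠ 1 := by
      intro h
      rcases Int.natAbs_eq k with h1 | h1 <;> rw [h] at h1 <;> rw [h1] at hk <;> norm_num at hk <;>
        omega
    obtain ⟨p, hp, hpk⟩ := Nat.exists_prime_and_dvd hk1
    refine hcf p hp ?_
    rw [← hk]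
    exact pow_dvd_pow_of_dvd (Int.natCast_dvd.2 hpk) 3
  have hx0 : x ≠ 0 := by
    intro h
    rw [h, Int.cast_zero] at hXz
    have hX0 : X = 0 := (mul_eq_zero.1 hXz).resolve_right hzq
    rw [hX0] at hXY
    exact hcube1 Y (by linear_combination hXY)
  have hy0 : y ≠ 0 := by
    intro h
    rw [h, Int.cast_zero] at hYz
    have hY0 : Y = 0 := (mul_eq_zero.1 hYz).resolve_right hzq
    rw [hY0] at hXY
    exact hcube1 X (by linear_combination hXY)
  have hxny : x ≠ -y := by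
    intro h
    rw [h] at heq
    have h1 : N * z ^ 3 = 0 := by linear_combination -heq
    rcases mul_eq_zero.1 h1 with h2 | h2
    · exact hN0 h2
    · exact hz0.ne' (pow_eq_zero_iff (by norm_num) |>.1 h2)
  have hd := diff_ge hx0 hy0 hxy' hxny
  -- the new point
  have hD : X ^ 3 - Y ^ 3 ≠ 0 := fun h => hne (cube_inj (sub_eq_zero.1 h))
  obtain ⟨X', hX'⟩ : ∃ X', X' = X * (X ^ 3 + 2 * Y ^ 3) / (X ^ 3 - Y ^ 3) := ⟨_, rfl⟩
  obtain ⟨Y', hY'⟩ : ∃ Y', Y' = -Y * (2 * X ^ 3 + Y ^ 3) / (X ^ 3 - Y ^ 3) := ⟨_, rfl⟩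
  have hXD : X' * (X ^ 3 - Y ^ 3) = X * (X ^ 3 + 2 * Y ^ 3) := by
    rw [hX']; field_simp
  have hYD : Y' * (X ^ 3 - Y ^ 3) = -Y * (2 * X ^ 3 + Y ^ 3) := by
    rw [hY']; field_simp
  have hmem : (X', Y') ∈ pts N := by
    show X' ^ 3 + Y' ^ 3 = (N : ℚ)
    have h1 : (X' ^ 3 + Y' ^ 3) * (X ^ 3 - Y ^ 3) ^ 3 = (N : ℚ) * (X ^ 3 - Y ^ 3) ^ 3 := by
      have e : (X' ^ 3 + Y' ^ 3) * (X ^ 3 - Y ^ 3) ^ 3 =
        (X' * (X ^ 3 - Y ^ 3)) ^ 3 + (Y' * (X ^ 3 - Y ^ 3)) ^ 3 := by ring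
      rw [e, hXD, hYD, ← hXY]
      ring
    exact mul_right_cancel₀ (pow_ne_zero 3 hD) h1
  have hstep : 2 * z ≤ X'.den := by
    refine step hz0 hxy hxz hyz heq hd (q := X') ?_
    have e1 : (x : ℚ) = X * z := hXz.symm
    have e2 : (y : ℚ) = Y * z := hYz.symm
    rw [e1, e2]
    linear_combination (z : ℚ) ^ 4 * hXD
  have hlt : X.den < X'.den := by
    rw [hz] at hstep
    have := X.den_pos
    omega
  refine ⟨(X', Y'), hmem, ?_, hlt⟩
  intro h
  simp only at h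
  have h1 : X' ^ 3 + Y' ^ 3 = (N : ℚ) := hmem
  rw [← h] at h1
  have h2 : (2 * X') ^ 3 = ((4 * N : ℤ) : ℚ) := by
    push_cast
    linear_combination 4 * h1
  obtain ⟨k, hk, hk3⟩ := int_of_cube h2
  have h3 : 2 ∣ k := by
    have h4 : Even (k ^ 3) := by rw [hk3]; exact ⟨2 * N, by ring⟩
    exact (Int.even_pow.1 h4).1.two_dvd
  obtain ⟨m, hm⟩ := h3
  have h5 : X' = m := by
    rw [hm] at hk
    push_cast at hk
    linarith
  rw [h5] at hlt
  have : ((m : ℤ) : ℚ).den = 1 := rfl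
  rw [this] at hlt
  have := X.den_pos
  omega

/-- finitely many points: all are on the diagonal -/
theorem diag {N : ℤ} (hN0 : N ≠ 0) (hN1 : N ≠ 1) (hcf : ∀ p : ℕ, p.Prime → ¬ (p : ℤ) ^ 3 ∣ N)
    (hpos : 0 < N) (hfin : (pts N).Finite) {P : ℚ × ℚ} (hP : P ∈ pts N) : P.1 = P.2 := by
  by_contra hne
  have hS : {Q ∈ pts N | Q.1 ≠ Q.2}.Finite := hfin.subset fun Q h => h.1
  obtain ⟨Q, hQ, hmax⟩ := Set.exists_max_image _ (fun Q : ℚ × ℚ => Q.1.den) hS ⟨P, hP, hne⟩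
  obtain ⟨R, hR, hRne, hlt⟩ := tan_step hN0 hN1 hcf hpos hQ.1 hQ.2
  exact absurd (hmax R ⟨hR, hRne⟩) (not_le.2 hlt)

/-- **All the rational points.** -/
theorem pts_of_finite {N : ℤ} (hN1 : N ≠ 1) (hcf : ∀ p : ℕ, p.Prime → ¬ (p : ℤ) ^ 3 ∣ N)
    (hpos : 0 < N) (hfin : (pts N).Finite) : pts N = if N = 2 then {(1, 1)} else ∅ := by
  have hall : ∀ P ∈ pts N, P = (1, 1) ∧ N = 2 := by
    rintro ⟨X, Y⟩ hP
    have h1 : X = Y := diag hpos.ne' hN1 hcf hpos hfin hP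
    subst h1
    have h2 : X ^ 3 + X ^ 3 = (N : ℚ) := hP
    have h3 : (2 * X) ^ 3 = ((4 * N : ℤ) : ℚ) := by
      push_cast
      linear_combination 4 * h2
    obtain ⟨k, hk, hk3⟩ := int_of_cube h3
    have h4 : 2 ∣ k := by
      have h4 : Even (k ^ 3) := by rw [hk3]; exact ⟨2 * N, by ring⟩
      exact (Int.even_pow.1 h4).1.two_dvd
    obtain ⟨m, hm⟩ := h4
    have h5 : X = m := by
      rw [hm] at hk
      push_cast at hk
      linarith
    have h6 : 2 * m ^ 3 = N := by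
      rw [hm] at hk3
      have : 4 * (2 * m ^ 3) = 4 * N := by rw [← hk3]; ring
      omega
    have hm1 : m.natAbs = 1 := by
      by_contra h
      obtain ⟨p, hp, hpk⟩ := Nat.exists_prime_and_dvd h
      refine hcf p hp ?_
      rw [← h6]
      exact (pow_dvd_pow_of_dvd (Int.natCast_dvd.2 hpk) 3).mul_left 2
    have hm2 : m = 1 := by
      rcases Int.natAbs_eq m with h | h <;> rw [hm1] at h
      · exact_mod_cast h
      · rw [h] at h6
        norm_num at h6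
        omega
    subst hm2
    refine ⟨?_, by rw [← h6]; norm_num⟩
    rw [h5]
    norm_num
  split_ifs with h
  · ext P
    rw [Set.mem_singleton_iff]
    constructor
    · intro hP
      exact (hall P hP).1
    · rintro rfl
      show (1 : ℚ) ^ 3 + 1 ^ 3 = (N : ℚ)
      rw [h]
      norm_num
  · ext P
    rw [Set.mem_empty_iff_false, iff_false]
    intro hP
    exact h (hall P hP).2

/-- the cubes -/
theorem pts_one : pts 1 = {(1, 0), (0, 1)} := by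
  ext ⟨X, Y⟩
  have hm : (X, Y) ∈ pts 1 ↔ X ^ 3 + Y ^ 3 = 1 := by
    show X ^ 3 + Y ^ 3 = ((1 : ℤ) : ℚ) ↔ _
    rw [Int.cast_one]
  rw [hm, Set.mem_insert_iff, Set.mem_singleton_iff, Prod.mk.injEq, Prod.mk.injEq]
  constructor
  · intro h
    by_cases hX : X = 0
    · right
      refine ⟨hX, cube_inj ?_⟩
      rw [hX] at h
      linear_combination h
    · by_cases hY : Y = 0
      · left
        refine ⟨cube_inj ?_, hY⟩
        rw [hY] at h
        linear_combination h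
      · exfalso
        have h1 := (fermatLastTheoremFor_iff_rat.1 fermatLastTheoremThree) X Y 1 hX hY one_ne_zero
        exact h1 (by rw [h]; norm_num)
  · rintro (⟨rfl, rfl⟩ | ⟨rfl, rfl⟩) <;> norm_num

/-- scaling -/
theorem pts_scale {N A b : ℤ} (hb : b ≠ 0) (h : A = N * b ^ 3) :
    pts A = (fun P : ℚ × ℚ => ((b : ℚ) * P.1, (b : ℚ) * P.2)) '' pts N := by
  have hbq : (b : ℚ) ≠ 0 := by exact_mod_cast hb
  ext ⟨X, Y⟩
  constructor
  · intro hP
    have h1 : X ^ 3 + Y ^ 3 = (A : ℚ) := hP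
    refine ⟨(X / b, Y / b), ?_, ?_⟩
    · show (X / b) ^ 3 + (Y / b) ^ 3 = (N : ℚ)
      rw [h] at h1
      push_cast at h1
      field_simp
      linear_combination h1
    · simp only
      rw [Prod.mk.injEq]
      constructor <;> field_simp
  · rintro ⟨⟨U, V⟩, hUV, he⟩
    have h1 : U ^ 3 + V ^ 3 = (N : ℚ) := hUV
    simp only [Prod.mk.injEq] at he
    show X ^ 3 + Y ^ 3 = (A : ℚ)
    rw [← he.1, ← he.2, h]
    push_cast
    linear_combination (b : ℚ) ^ 3 * h1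

end Q155.AL
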